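import Pool.Agent.X96.HT.Evo2

/-!
The value of the derivative of the norm of `H^{1/2}`.
-/

open MeasureTheory Set Filter Topology
open scoped ContDiff
open H459R3.NS

namespace Pool.Agent.X96.HT

variable {ν T : ℝ} {u : ℝ → V → V} {P : ℝ → V → ℝ}

lemma sp_lap {f : V → ℝ} (hf : SP f) : SP (lap f) :=
  SP.sum fun j _ => (hf.pd j).pd j

lemma sp_conv {v : V → V} (hv : ∀ i, SP (fun x => v x i)) (i : Fin 3) :
    SP (conv (fun i y => v y i) i) :=
  SP.sum fun j _ => (hv j).mul ((hv i).pd j)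

lemma cod_eq (h : IsSol ν T u P) {t : ℝ} (ht : t ∈ Ioo 0 T) (k : K3) (i : Fin 3) :
    cod u t k i = -(ν * ((2 * Real.pi) ^ 2 * kn k ^ 2) : ℝ) * co (u t) k i
      - fr (conv (fun i y => u t y i) i) k - 2 * Real.pi * Complex.I * (k i : ℂ) * fr (P t) k := by
  have hI : t ∈ Ico 0 T := ⟨ht.1.le, ht.2⟩
  have hsp := h.sp hI
  have hp : SP (P t) := h.sp_p hI
  have e : dt (fun s y => u s y i) t = fun x => (ν * lap (fun y => u t y i) x
      + (-1) * conv (fun i y => u t y i) i x) + (-1) * pd i (P t) x := by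
    funext x
    rw [h.dt_eq ht i x]; ring
  unfold cod
  rw [e, fr_add, fr_add, fr_smul, fr_smul, fr_smul, fr_lap (hsp i), fr_pd hp, D]
  · unfold co; push_cast; ring
  · exact continuous_const.mul (sp_lap (hsp i)).cont
  · exact continuous_const.mul (sp_conv hsp i).cont
  · exact (continuous_const.mul (sp_lap (hsp i)).cont).add
      (continuous_const.mul (sp_conv hsp i).cont)
  · exact continuous_const.mul (hp.pd i).cont

lemma zt_eq (h : IsSol ν T u P) {t : ℝ} (ht : t ∈ Ioo 0 T) (k : K3) :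
    zt u t k = -(2 * ν * (2 * Real.pi) ^ 2) * (kn k ^ 3 * ∑ i, ‖co (u t) k i‖ ^ 2)
      - 2 * (kn k * ∑ i, co (u t) k i * fr (conv (fun i y => u t y i) i) (-k)).re := by
  have hI : t ∈ Ico 0 T := ⟨ht.1.le, ht.2⟩
  have hsp := h.sp hI
  have hd : dp (kc k) (co (u t) k) = 0 := dp_co hsp (h.divfree t hI) k
  have hd2 : ∑ i, (starRingEnd ℂ) (co (u t) k i) * (k i : ℂ) = 0 := by
    have := congrArg (starRingEnd ℂ) hd
    unfold dp kc at this
    simp only [map_add, map_mul, map_intCast, map_zero] at this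
    rw [Fin.sum_univ_three]
    linear_combination this
  have h1 : ∀ i, (starRingEnd ℂ) (co (u t) k i) * cod u t k i
      = -(ν * ((2 * Real.pi) ^ 2 * kn k ^ 2) : ℝ) * (‖co (u t) k i‖ ^ 2 : ℝ)
        - (starRingEnd ℂ) (co (u t) k i * fr (conv (fun i y => u t y i) i) (-k))
        - 2 * Real.pi * Complex.I * fr (P t) k
          * ((starRingEnd ℂ) (co (u t) k i) * (k i : ℂ)) := by
    intro i
    rw [cod_eq h ht, map_mul, ← fr_neg_conj, neg_neg]
    have : (starRingEnd ℂ) (co (u t) k i) * co (u t) k i = ((‖co (u t) k i‖ ^ 2 : ℝ) : ℂ) := by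
      rw [mul_comm, Complex.mul_conj, Complex.normSq_eq_norm_sq]
    rw [← this]; ring
  have h2 : ∑ i, (starRingEnd ℂ) (co (u t) k i) * cod u t k i
      = -(ν * ((2 * Real.pi) ^ 2 * kn k ^ 2) : ℝ) * (∑ i, ‖co (u t) k i‖ ^ 2 : ℝ)
        - (starRingEnd ℂ) (∑ i, co (u t) k i * fr (conv (fun i y => u t y i) i) (-k)) := by
    rw [Finset.sum_congr rfl fun i _ => h1 i, Finset.sum_sub_distrib, Finset.sum_sub_distrib,
      ← Finset.mul_sum, ← Finset.mul_sum, hd2, map_sum]
    push_cast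
    ring
  unfold zt
  rw [← Finset.mul_sum, ← Complex.re_sum, h2, Complex.sub_re, Complex.conj_re, ← Complex.ofReal_neg,
    ← Complex.ofReal_mul, Complex.ofReal_re, Complex.re_ofReal_mul]
  ring

lemma tsum_zt (h : IsSol ν T u P) {t : ℝ} (ht : t ∈ Ioo 0 T) :
    ∑' k, zt u t k = -(2 * ν * (2 * Real.pi) ^ 2) * hn 3 (co (u t))
      - 4 * Real.pi * (T3s (ft (co (u t)))).re := by
  have hI : t ∈ Ico 0 T := ⟨ht.1.le, ht.2⟩
  have hsp := h.sp hI
  have hU := rapV_co hsp
  have hS : S3s (fun k p q => ft (co (u t)) k q p) := S3s_23 (S3s_ft hU)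
  have hT : T3s (fun k p q => ft (co (u t)) k q p) = T3s (ft (co (u t))) := T3s_23 _
  have h1 : HasSum (fun p : K3 × K3 => 2 * Real.pi * ft (co (u t)) p.1 (-p.1 - p.2) p.2)
      (2 * Real.pi * T3s (ft (co (u t)))) := by
    rw [← hT]
    exact (Summable.hasSum hS).mul_left _
  have h2 : ∀ k, HasSum (fun l => 2 * Real.pi * ft (co (u t)) k (-k - l) l)
      (kn k * ∑ i, co (u t) k i * fr (conv (fun i y => u t y i) i) (-k)) := by
    intro k
    have h3 : HasSum (fun l => ∑ i, co (u t) k i * (2 * Real.pi * Complex.I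
        * (dp (kc (-k - l)) (co (u t) l) * co (u t) (-k - l) i)))
        (∑ i, co (u t) k i * fr (conv (fun i y => u t y i) i) (-k)) :=
      hasSum_sum fun i _ => (hasSum_conv hsp i k).mul_left _
    have h4 := h3.mul_left (kn k : ℂ)
    have e : (fun l => 2 * Real.pi * ft (co (u t)) k (-k - l) l)
        = fun l => (kn k : ℂ) * ∑ i, co (u t) k i * (2 * Real.pi * Complex.I
        * (dp (kc (-k - l)) (co (u t) l) * co (u t) (-k - l) i)) := by
      funext l
      unfold ft
      rw [Fin.sum_univ_three]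
      have : dp (co (u t) (-k - l)) (co (u t) k) = co (u t) (-k - l) 0 * co (u t) k 0
        + co (u t) (-k - l) 1 * co (u t) k 1 + co (u t) (-k - l) 2 * co (u t) k 2 := rfl
      rw [this]
      ring
    rw [e]; exact h4
  have h5 := h1.prod_fiberwise h2
  have h6 : HasSum (fun k => (kn k * ∑ i, co (u t) k i
      * fr (conv (fun i y => u t y i) i) (-k)).re) (2 * Real.pi * T3s (ft (co (u t)))).re :=
    Complex.hasSum_re h5
  have h7 := (hU.hn_summable 3).hasSum
  have h8 := (h7.mul_left (-(2 * ν * (2 * Real.pi) ^ 2))).sub (h6.mul_left 2)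
  have e8 : (fun k => -(2 * ν * (2 * Real.pi) ^ 2) * (kn k ^ 3 * ∑ i, ‖co (u t) k i‖ ^ 2)
      - 2 * (kn k * ∑ i, co (u t) k i * fr (conv (fun i y => u t y i) i) (-k)).re)
      = zt u t := by
    funext k; rw [zt_eq h ht k]
  rw [e8] at h8
  rw [h8.tsum_eq]
  have e9 : (2 * Real.pi * T3s (ft (co (u t)))).re = 2 * Real.pi * (T3s (ft (co (u t)))).re := by
    have : (2 * Real.pi * T3s (ft (co (u t)))) = ((2 * Real.pi : ℝ) : ℂ) * T3s (ft (co (u t))) := by
      push_cast; ring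
    rw [this, Complex.re_ofReal_mul]
  rw [e9]
  unfold hn
  ring

end Pool.Agent.X96.HT
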