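import Mathlib

/-!
Helical decomposition: the vector algebra of one triad of frequencies.
-/

open Complex

namespace Pool.Agent.X96.HT

/-- complex vectors -/
abbrev C3 := Fin 3 → ℂ

/-- bilinear dot product -/
def dp (a b : C3) : ℂ := a 0 * b 0 + a 1 * b 1 + a 2 * b 2

/-- cross product -/
def cp (a b : C3) : C3 :=
  ![a 1 * b 2 - a 2 * b 1, a 2 * b 0 - a 0 * b 2, a 0 * b 1 - a 1 * b 0]

@[simp] lemma cp0 (a b : C3) : cp a b 0 = a 1 * b 2 - a 2 * b 1 := rfl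
@[simp] lemma cp1 (a b : C3) : cp a b 1 = a 2 * b 0 - a 0 * b 2 := rfl
@[simp] lemma cp2 (a b : C3) : cp a b 2 = a 0 * b 1 - a 1 * b 0 := rfl

/-- `a` is an eigenvector of `I k ×` with the eigenvalue `m`. -/
def Hl (m : ℂ) (k a : C3) : Prop := ∀ j, I * cp k a j = m * a j

/-- the energy received by `a` from the pair `b`, `c` -/
def tau (p q a b c : C3) : ℂ := I * (dp p c * dp b a + dp q b * dp c a)

lemma tau_comm (p q a b c : C3) : tau p q a b c = tau q p a c b := by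
  unfold tau dp; ring

lemma tau_eq {k p q a b c : C3} {m n : ℂ} (hk : ∀ j, k j + p j + q j = 0) (ha : dp k a = 0)
    (hb : Hl m p b) (hc : Hl n q c) : tau p q a b c = (m - n) * dp a (cp b c) := by
  have hb0 := hb 0
  have hb1 := hb 1
  have hb2 := hb 2
  have hc0 := hc 0
  have hc1 := hc 1
  have hc2 := hc 2
  have h0 : q 0 = -k 0 - p 0 := by linear_combination hk 0
  have h1 : q 1 = -k 1 - p 1 := by linear_combination hk 1
  have h2 : q 2 = -k 2 - p 2 := by linear_combination hk 2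
  simp only [cp0, cp1, cp2, h0, h1, h2] at hb0 hb1 hb2 hc0 hc1 hc2
  unfold tau
  unfold dp at *
  simp only [cp0, cp1, cp2, h0, h1, h2]
  linear_combination (c 1 * a 2 - c 2 * a 1) * hb0 + (c 2 * a 0 - c 0 * a 2) * hb1
    + (c 0 * a 1 - c 1 * a 0) * hb2 - (a 1 * b 2 - a 2 * b 1) * hc0
    - (a 2 * b 0 - a 0 * b 2) * hc1 - (a 0 * b 1 - a 1 * b 0) * hc2
    - I * (b 0 * c 0 + b 1 * c 1 + b 2 * c 2) * ha

/-- `(m - n) b·c = I b·(k × c)` -/
lemma dp_opp {k p q b c : C3} {m n : ℂ} (hk : ∀ j, k j + p j + q j = 0)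
    (hb : Hl m p b) (hc : Hl n q c) : (m - n) * dp b c = I * dp b (cp k c) := by
  have hb0 := hb 0
  have hb1 := hb 1
  have hb2 := hb 2
  have hc0 := hc 0
  have hc1 := hc 1
  have hc2 := hc 2
  have h0 : q 0 = -k 0 - p 0 := by linear_combination hk 0
  have h1 : q 1 = -k 1 - p 1 := by linear_combination hk 1
  have h2 : q 2 = -k 2 - p 2 := by linear_combination hk 2
  simp only [cp0, cp1, cp2, h0, h1, h2] at hb0 hb1 hb2 hc0 hc1 hc2
  unfold dp
  simp only [cp0, cp1, cp2]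
  linear_combination - c 0 * hb0 - c 1 * hb1 - c 2 * hb2 + b 0 * hc0 + b 1 * hc1 + b 2 * hc2

/-- `m a·(b × c) = I ((p·c) (b·a) - (p·a) (b·c))` -/
lemma det_eq {p a b c : C3} {m : ℂ} (hb : Hl m p b) :
    m * dp a (cp b c) = I * (dp p c * dp b a - dp p a * dp b c) := by
  have hb0 := hb 0
  have hb1 := hb 1
  have hb2 := hb 2
  simp only [cp0, cp1, cp2] at hb0 hb1 hb2
  unfold dp
  simp only [cp0, cp1, cp2]
  linear_combination - (c 1 * a 2 - c 2 * a 1) * hb0 - (c 2 * a 0 - c 0 * a 2) * hb1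
    - (c 0 * a 1 - c 1 * a 0) * hb2

/-- the symmetric sum: production of the weighted norm by one triad -/
def Gs (x y z : ℂ) (k p q a b c : C3) : ℂ :=
  x * tau p q a b c + y * tau q k b c a + z * tau k p c a b

lemma Gs_rot (x y z : ℂ) (k p q a b c : C3) : Gs x y z k p q a b c = Gs y z x p q k b c a := by
  unfold Gs; ring

lemma Gs_swap (x y z : ℂ) (k p q a b c : C3) : Gs x y z k p q a b c = Gs y x z p k q b a c := by
  unfold Gs
  rw [tau_comm p q a b c, tau_comm q k b c a, tau_comm k p c a b]; ring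

lemma Gs_eq {k p q a b c : C3} {x y z l m n : ℂ} (hk : ∀ j, k j + p j + q j = 0)
    (ha' : dp k a = 0) (hb' : dp p b = 0) (hc' : dp q c = 0)
    (ha : Hl l k a) (hb : Hl m p b) (hc : Hl n q c) :
    Gs x y z k p q a b c
      = (x * (m - n) + y * (n - l) + z * (l - m)) * dp a (cp b c) := by
  have h1 := tau_eq hk ha' hb hc
  have h2 := tau_eq (k := p) (p := q) (q := k) (a := b) (b := c) (c := a)
    (fun j => by linear_combination hk j) hb' hc ha
  have h3 := tau_eq (k := q) (p := k) (q := p) (a := c) (b := a) (c := b)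
    (fun j => by linear_combination hk j) hc' ha hb
  have e1 : dp b (cp c a) = dp a (cp b c) := by unfold dp; simp only [cp0, cp1, cp2]; ring
  have e2 : dp c (cp a b) = dp a (cp b c) := by unfold dp; simp only [cp0, cp1, cp2]; ring
  unfold Gs
  rw [h1, h2, h3, e1, e2]; ring

/-! ### Norms -/

lemma norm_dp_le (a b : C3) : ‖dp a b‖ ≤ 3 * (‖a‖ * ‖b‖) := by
  have h : ∀ j, ‖a j * b j‖ ≤ ‖a‖ * ‖b‖ := fun j => by
    rw [norm_mul]
    exact mul_le_mul (norm_le_pi_norm a j) (norm_le_pi_norm b j) (norm_nonneg _) (norm_nonneg _)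
  unfold dp
  refine (norm_add₃_le).trans ?_
  linarith [h 0, h 1, h 2]

lemma norm_cp_le (a b : C3) : ‖cp a b‖ ≤ 2 * (‖a‖ * ‖b‖) := by
  have h : ∀ i j, ‖a i * b j‖ ≤ ‖a‖ * ‖b‖ := fun i j => by
    rw [norm_mul]
    exact mul_le_mul (norm_le_pi_norm a i) (norm_le_pi_norm b j) (norm_nonneg _) (norm_nonneg _)
  rw [pi_norm_le_iff_of_nonneg (by positivity)]
  intro j
  fin_cases j
  · show ‖a 1 * b 2 - a 2 * b 1‖ ≤ _
    exact (norm_sub_le _ _).trans (by linarith [h 1 2, h 2 1])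
  · show ‖a 2 * b 0 - a 0 * b 2‖ ≤ _
    exact (norm_sub_le _ _).trans (by linarith [h 2 0, h 0 2])
  · show ‖a 0 * b 1 - a 1 * b 0‖ ≤ _
    exact (norm_sub_le _ _).trans (by linarith [h 0 1, h 1 0])

/-- opposite signs: the determinant is small if the third frequency is small -/
lemma det_small {k p q a b c : C3} {x y z : ℝ} (hx : ‖k‖ ≤ x) (hy0 : 0 ≤ y) (hz0 : 0 ≤ z)
    (hy : ‖p‖ ≤ y) {s : ℝ} (hs : |s| = 1)
    (hk : ∀ j, k j + p j + q j = 0) (hc' : dp q c = 0)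
    (hb : Hl ((s * y : ℝ) : ℂ) p b) (hc : Hl ((-s * z : ℝ) : ℂ) q c) :
    y * ‖dp a (cp b c)‖ ≤ 27 * (x * (‖a‖ * ‖b‖ * ‖c‖)) := by
  have hx0 : 0 ≤ x := (norm_nonneg _).trans hx
  -- `b · c`
  have h1 := dp_opp hk hb hc
  have h2 : ‖dp b (cp k c)‖ ≤ 6 * (x * (‖b‖ * ‖c‖)) := by
    refine (norm_dp_le _ _).trans ?_
    have h3 := norm_cp_le k c
    have h4 : ‖k‖ * ‖c‖ ≤ x * ‖c‖ := by gcongr
    calc 3 * (‖b‖ * ‖cp k c‖) ≤ 3 * (‖b‖ * (2 * (x * ‖c‖))) := by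
          gcongr; linarith
      _ = _ := by ring
  have h3 : (y + z) * ‖dp b c‖ ≤ 6 * (x * (‖b‖ * ‖c‖)) := by
    have e : ‖(((s * y : ℝ) : ℂ) - ((-s * z : ℝ) : ℂ)) * dp b c‖ = (y + z) * ‖dp b c‖ := by
      rw [norm_mul]
      congr 1
      have : (((s * y : ℝ) : ℂ) - ((-s * z : ℝ) : ℂ)) = ((s * (y + z) : ℝ) : ℂ) := by
        push_cast; ring
      rw [this, Complex.norm_real, Real.norm_eq_abs, abs_mul, hs, one_mul,
        abs_of_nonneg (by positivity)]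
    rw [← e, h1, norm_mul, Complex.norm_I, one_mul]
    exact h2
  have h3' : y * ‖dp b c‖ ≤ 6 * (x * (‖b‖ * ‖c‖)) := by
    refine le_trans ?_ h3
    gcongr
    linarith
  -- the determinant
  have h4 := det_eq (a := a) (c := c) hb
  have h5 : dp p c = -dp k c := by
    have : dp k c + dp p c + dp q c = 0 := by
      unfold dp
      linear_combination c 0 * hk 0 + c 1 * hk 1 + c 2 * hk 2
    rw [hc'] at this
    linear_combination this
  have h6 : ‖((s * y : ℝ) : ℂ) * dp a (cp b c)‖ = y * ‖dp a (cp b c)‖ := by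
    rw [norm_mul, Complex.norm_real, Real.norm_eq_abs, abs_mul, hs, one_mul, abs_of_nonneg hy0]
  rw [← h6, h4, norm_mul, Complex.norm_I, one_mul, h5]
  refine (norm_sub_le _ _).trans ?_
  rw [norm_mul, norm_mul, norm_neg]
  have h7 := norm_dp_le k c
  have h8 := norm_dp_le b a
  have h9 := norm_dp_le p a
  have a1 : ‖dp k c‖ * ‖dp b a‖ ≤ 9 * (x * (‖a‖ * ‖b‖ * ‖c‖)) := by
    calc ‖dp k c‖ * ‖dp b a‖ ≤ (3 * (‖k‖ * ‖c‖)) * (3 * (‖b‖ * ‖a‖)) := by gcongr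
      _ ≤ (3 * (x * ‖c‖)) * (3 * (‖b‖ * ‖a‖)) := by gcongr
      _ = _ := by ring
  have a2 : ‖dp p a‖ * ‖dp b c‖ ≤ 18 * (x * (‖a‖ * ‖b‖ * ‖c‖)) := by
    calc ‖dp p a‖ * ‖dp b c‖ ≤ (3 * (‖p‖ * ‖a‖)) * ‖dp b c‖ := by gcongr
      _ ≤ (3 * (y * ‖a‖)) * ‖dp b c‖ := by gcongr
      _ = 3 * ‖a‖ * (y * ‖dp b c‖) := by ring
      _ ≤ 3 * ‖a‖ * (6 * (x * (‖b‖ * ‖c‖))) := by gcongr
      _ = _ := by ring
  linarith

/-- A mixed triad whose third mode has the minority sign. -/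
lemma Gs_mixed {k p q a b c : C3} {x y z : ℝ} (hx : ‖k‖ ≤ x) (hy : ‖p‖ ≤ y) (hz0 : 0 ≤ z)
    {s : ℝ} (hs : |s| = 1) (hk : ∀ j, k j + p j + q j = 0)
    (ha' : dp k a = 0) (hb' : dp p b = 0) (hc' : dp q c = 0)
    (ha : Hl ((s * x : ℝ) : ℂ) k a) (hb : Hl ((s * y : ℝ) : ℂ) p b)
    (hc : Hl ((-s * z : ℝ) : ℂ) q c) :
    ‖Gs x y z k p q a b c‖ ≤ 54 * (z * (min x y * (‖a‖ * ‖b‖ * ‖c‖))) := by
  have hx0 : 0 ≤ x := (norm_nonneg _).trans hx
  have hy0 : 0 ≤ y := (norm_nonneg _).trans hy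
  have h1 : y * ‖dp a (cp b c)‖ ≤ 27 * (x * (‖a‖ * ‖b‖ * ‖c‖)) :=
    det_small hx hy0 hz0 hy hs hk hc' hb hc
  have h2 : x * ‖dp a (cp b c)‖ ≤ 27 * (y * (‖a‖ * ‖b‖ * ‖c‖)) := by
    have h := det_small (k := p) (p := k) (q := q) (a := b) (b := a) (c := c) hy hx0 hz0 hx hs
      (fun j => by linear_combination hk j) hc' ha hc
    have e : dp b (cp a c) = -dp a (cp b c) := by unfold dp; simp only [cp0, cp1, cp2]; ring
    rw [e, norm_neg] at h
    calc _ ≤ _ := h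
      _ = _ := by ring
  rw [Gs_eq hk ha' hb' hc' ha hb hc]
  have e : ((x : ℂ) * (((s * y : ℝ) : ℂ) - ((-s * z : ℝ) : ℂ))
      + y * (((-s * z : ℝ) : ℂ) - ((s * x : ℝ) : ℂ)) + z * (((s * x : ℝ) : ℂ) - ((s * y : ℝ) : ℂ)))
      = ((2 * s * z * (x - y) : ℝ) : ℂ) := by
    push_cast; ring
  rw [e, norm_mul, Complex.norm_real, Real.norm_eq_abs, abs_mul, abs_mul, abs_mul, hs,
    abs_of_nonneg hz0, abs_of_nonneg (by norm_num : (0 : ℝ) ≤ 2), mul_one]
  have h3 : |x - y| * ‖dp a (cp b c)‖ ≤ 27 * (min x y * (‖a‖ * ‖b‖ * ‖c‖)) := by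
    rcases le_total x y with h | h
    · rw [min_eq_left h, abs_of_nonpos (by linarith)]
      refine le_trans ?_ h1
      gcongr
      linarith
    · rw [min_eq_right h, abs_of_nonneg (by linarith)]
      refine le_trans ?_ h2
      gcongr
      linarith
  calc 2 * z * |x - y| * ‖dp a (cp b c)‖ = 2 * z * (|x - y| * ‖dp a (cp b c)‖) := by ring
    _ ≤ 2 * z * (27 * (min x y * (‖a‖ * ‖b‖ * ‖c‖))) := by gcongr
    _ = _ := by ring

end Pool.Agent.X96.HT
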