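import Pool.Agent.X96.HT.Prod

/-!
The trilinear bound by three norms of `H^{1/2}`.
-/

open MeasureTheory Set Filter Topology
open scoped ENNReal
open H459R3.NS

namespace Pool.Agent.X96.HT

/-- the norm of `H^{1/2}` in extended reals -/
noncomputable def eh (x : K3 → ℝ≥0∞) : ℝ≥0∞ := (∑' k, N k * x k ^ 2) ^ (1 / 2 : ℝ)

/-- `∑_{0 < N q ≤ L} 1 / N q ≤ 54 L²` -/
lemma cube_sum1 (L : ℕ) (hL : 1 ≤ L) (F : Finset K3)
    (hF : ∀ q ∈ F, 0 < N q ∧ N q ≤ L) : ∑ q ∈ F, (1 : ℝ) / (N q : ℝ) ≤ 54 * L ^ 2 := by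
  have hcount : ∀ r : ℕ, 1 ≤ r → ((F.filter fun q => N q ≤ r).card : ℝ) ≤ 27 * r ^ 3 := by
    intro r hr
    have h1 : (F.filter fun q => N q ≤ r) ⊆ (finite_cube r).toFinset := by
      intro q hq
      rw [Finset.mem_filter] at hq
      rw [Set.Finite.mem_toFinset]
      exact hq.2
    have h2 := Finset.card_le_card h1
    have h3 : ((F.filter fun q => N q ≤ r).card : ℝ) ≤ (2 * r + 1) ^ 3 := by
      rw [← card_cube]; exact_mod_cast h2
    refine h3.trans ?_
    have hr1 : (1 : ℝ) ≤ r := by exact_mod_cast hr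
    calc (2 * (r : ℝ) + 1) ^ 3 ≤ (3 * r) ^ 3 := by gcongr; linarith
      _ = _ := by ring
  have h := layer F L hF (fun m => 1 / (m : ℝ))
    (fun m hm => one_div_le_one_div_of_le (by exact_mod_cast hm) (by push_cast; linarith))
    (fun r => 27 * r ^ 3) hcount hL (by positivity)
  refine h.trans ?_
  have hL0 : (0 : ℝ) < L := by exact_mod_cast (by omega : 0 < L)
  have e2 : ∀ m ∈ Finset.Ico 1 L,
      27 * (m : ℝ) ^ 3 * (1 / (m : ℝ) - 1 / ((m + 1 : ℕ) : ℝ)) ≤ 27 * L := by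
    intro m hm
    rw [Finset.mem_Ico] at hm
    have hm0 : (0 : ℝ) < m := by exact_mod_cast (by omega : 0 < m)
    have hmL : (m : ℝ) ≤ L := by exact_mod_cast hm.2.le
    have e : 27 * (m : ℝ) ^ 3 * (1 / (m : ℝ) - 1 / ((m + 1 : ℕ) : ℝ))
        = 27 * m * (m / (m + 1)) := by
      push_cast; field_simp; ring
    rw [e]
    calc 27 * (m : ℝ) * (m / (m + 1)) ≤ 27 * m * 1 := by
          gcongr
          rw [div_le_one (by positivity)]
          linarith
      _ ≤ 27 * L := by rw [mul_one]; gcongr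
  have e4 := Finset.sum_le_sum e2
  rw [Finset.sum_const, Nat.card_Ico, nsmul_eq_mul] at e4
  have h5 : ((L - 1 : ℕ) : ℝ) * (27 * L) ≤ L * (27 * L) := by
    gcongr
    omega
  have e3 : 27 * (L : ℝ) ^ 3 * (1 / (L : ℝ)) = 27 * L ^ 2 := by field_simp
  nlinarith

open Classical in
lemma cube_enn1 (n : ℕ) (hn1 : 1 ≤ n) :
    (∑' k : K3, if 0 < N k ∧ N k ≤ n then ((N k : ℝ≥0∞))⁻¹ else 0)
      ≤ 54 * (n : ℝ≥0∞) ^ 2 := by
  rw [ENNReal.tsum_eq_iSup_sum]
  refine iSup_le fun F => ?_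
  set G := F.filter fun k => 0 < N k ∧ N k ≤ n with hG
  have hF : ∀ q ∈ G, 0 < N q ∧ N q ≤ n := by
    intro q hq
    rw [hG, Finset.mem_filter] at hq
    exact hq.2
  have h1 := cube_sum1 n hn1 G hF
  have e1 : (∑ k ∈ F, if 0 < N k ∧ N k ≤ n then ((N k : ℝ≥0∞))⁻¹ else 0)
      = ∑ k ∈ G, ENNReal.ofReal (1 / (N k : ℝ)) := by
    rw [hG, Finset.sum_filter]
    refine Finset.sum_congr rfl fun k _ => ?_
    by_cases hk2 : 0 < N k ∧ N k ≤ n
    · rw [if_pos hk2, if_pos hk2, one_div, ENNReal.ofReal_inv_of_pos (by exact_mod_cast hk2.1),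
        ENNReal.ofReal_natCast]
    · rw [if_neg hk2, if_neg hk2]
  rw [e1, ← ENNReal.ofReal_sum_of_nonneg fun q _ => by positivity]
  refine (ENNReal.ofReal_le_ofReal h1).trans (le_of_eq ?_)
  rw [ENNReal.ofReal_mul (by norm_num), ENNReal.ofReal_pow (by positivity), ENNReal.ofReal_natCast]
  norm_num

lemma N_tri (k p : K3) : N k ≤ N p + N (-k - p) := by
  rw [N_le_iff]
  intro j
  have h1 := (N_le_iff p (N p)).1 le_rfl j
  have h2 := (N_le_iff (-k - p) (N (-k - p))).1 le_rfl j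
  simp only [Pi.sub_apply, Pi.neg_apply] at h2
  have : k j = -(p j) + -(-k j - p j) := by ring
  rw [this]
  refine (abs_add_le _ _).trans ?_
  rw [abs_neg, abs_neg]
  push_cast
  linarith

/-- the part of the sum over triads where the first frequency is the smallest -/
noncomputable def tm (x y z : K3 → ℝ≥0∞) : ℝ≥0∞ := by
  classical
  exact ∑' k, ∑' p, if N k ≤ N p ∧ N k ≤ N (-k - p) then x k * y p * z (-k - p) else 0

lemma tm_le {x y z : K3 → ℝ≥0∞} (hx0 : x 0 = 0) : tm x y z ≤ 11 * (eh x * eh y * eh z) := by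
  classical
  set s : K3 → ℝ≥0∞ := fun k => (N k : ℝ≥0∞) ^ (1 / 2 : ℝ) with hs
  set r : K3 → ℝ≥0∞ := fun k => ((N k : ℝ≥0∞)⁻¹) ^ (1 / 2 : ℝ) with hr
  have hsr : ∀ k, 0 < N k → s k * r k = 1 := by
    intro k hk
    simp only [hs, hr]
    rw [← ENNReal.mul_rpow_of_nonneg _ _ (by norm_num), ENNReal.mul_inv_cancel
      (by exact_mod_cast hk.ne') (ENNReal.natCast_ne_top _), ENNReal.one_rpow]
  have hs2 : ∀ k, s k ^ 2 = N k := fun k => enn_half_sq _
  have hr2 : ∀ k, r k ^ 2 = (N k : ℝ≥0∞)⁻¹ := fun k => enn_half_sq _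
  set φ : K3 → K3 → ℝ≥0∞ := fun k q => if 0 < N k ∧ N k ≤ N q then
    ((2 * (N q : ℝ≥0∞)⁻¹) ^ (1 / 2 : ℝ)) * z q else 0 with hφ
  have h1 : ∀ k, (∑' p, if N k ≤ N p ∧ N k ≤ N (-k - p) then x k * y p * z (-k - p) else 0)
      ≤ (s k * x k) * (r k * (eh y * (∑' q, φ k q ^ 2) ^ (1 / 2 : ℝ))) := by
    intro k
    rcases Nat.eq_zero_or_pos (N k) with h0 | h0
    · have hk : k = 0 := N_eq_zero.1 h0
      subst hk
      simp [hx0]
    have h2 : ∀ p, (if N k ≤ N p ∧ N k ≤ N (-k - p) then x k * y p * z (-k - p) else 0)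
        ≤ x k * ((s p * y p) * φ k (-k - p)) := by
      intro p
      split_ifs with h
      · have hp : 0 < N p := by omega
        have hq : 0 < N (-k - p) := by omega
        simp only [hφ]
        rw [if_pos ⟨h0, h.2⟩]
        have h3 : N (-k - p) ≤ 2 * N p := by
          have := N_tri (-k - p) p
          have e : -(-k - p) - p = k := by abel
          rw [e] at this
          omega
        have h4 : (1 : ℝ≥0∞) ≤ s p * (2 * (N (-k - p) : ℝ≥0∞)⁻¹) ^ (1 / 2 : ℝ) := by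
          simp only [hs]
          rw [← ENNReal.mul_rpow_of_nonneg _ _ (by norm_num)]
          refine ENNReal.one_le_rpow ?_ (by norm_num)
          rw [← mul_assoc, ← div_eq_mul_inv]
          rw [ENNReal.le_div_iff_mul_le (Or.inl (by exact_mod_cast hq.ne'))
            (Or.inl (ENNReal.natCast_ne_top _)), one_mul]
          have : (N (-k - p) : ℝ≥0∞) ≤ ((2 * N p : ℕ) : ℝ≥0∞) := by exact_mod_cast h3
          refine this.trans (le_of_eq ?_)
          push_cast; ring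
        calc x k * y p * z (-k - p) = x k * y p * z (-k - p) * 1 := (mul_one _).symm
          _ ≤ x k * y p * z (-k - p) * (s p * (2 * (N (-k - p) : ℝ≥0∞)⁻¹) ^ (1 / 2 : ℝ)) := by
            gcongr
          _ = _ := by ring
      · exact bot_le
    refine (ENNReal.tsum_le_tsum h2).trans ?_
    rw [ENNReal.tsum_mul_left]
    have h5 : ∑' p, (s p * y p) * φ k (-k - p) ≤ eh y * (∑' q, φ k q ^ 2) ^ (1 / 2 : ℝ) := by
      refine (enn_cs _ _).trans (le_of_eq ?_)
      unfold eh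
      congr 2
      · exact tsum_congr fun p => by rw [mul_pow, hs2]
      · exact (Equiv.subLeft (-k)).tsum_eq (fun q => φ k q ^ 2)
    calc x k * ∑' p, (s p * y p) * φ k (-k - p)
        ≤ x k * (eh y * (∑' q, φ k q ^ 2) ^ (1 / 2 : ℝ)) := by gcongr
      _ = (s k * r k) * (x k * (eh y * (∑' q, φ k q ^ 2) ^ (1 / 2 : ℝ))) := by
        rw [hsr k h0, one_mul]
      _ = _ := by ring
  have h6 : ∑' k, (r k * (eh y * (∑' q, φ k q ^ 2) ^ (1 / 2 : ℝ))) ^ 2
      ≤ eh y ^ 2 * (108 * ∑' q, N q * z q ^ 2) := by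
    have e : ∀ k, (r k * (eh y * (∑' q, φ k q ^ 2) ^ (1 / 2 : ℝ))) ^ 2
        = eh y ^ 2 * ∑' q, (N k : ℝ≥0∞)⁻¹ * φ k q ^ 2 := by
      intro k
      rw [mul_pow, mul_pow, enn_half_sq, ENNReal.tsum_mul_left, enn_half_sq]
      ring
    simp_rw [e]
    rw [ENNReal.tsum_mul_left]
    gcongr
    rw [ENNReal.tsum_comm, ← ENNReal.tsum_mul_left]
    refine ENNReal.tsum_le_tsum fun q => ?_
    rcases Nat.eq_zero_or_pos (N q) with h0 | h0
    · have : ∀ k, (N k : ℝ≥0∞)⁻¹ * φ k q ^ 2 = 0 := by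
        intro k
        simp only [hφ]
        rw [if_neg (by omega)]; simp
      simp_rw [this]; simp
    · have e : ∀ k, (N k : ℝ≥0∞)⁻¹ * φ k q ^ 2
          = (2 * (N q : ℝ≥0∞)⁻¹ * z q ^ 2)
            * (if 0 < N k ∧ N k ≤ N q then (N k : ℝ≥0∞)⁻¹ else 0) := by
        intro k
        simp only [hφ]
        split_ifs
        · rw [mul_pow, enn_half_sq]; ring
        · simp
      simp_rw [e]
      rw [ENNReal.tsum_mul_left]
      calc (2 * (N q : ℝ≥0∞)⁻¹ * z q ^ 2) * _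
          ≤ (2 * (N q : ℝ≥0∞)⁻¹ * z q ^ 2) * (54 * (N q : ℝ≥0∞) ^ 2) := by
            gcongr; exact cube_enn1 (N q) h0
        _ = 108 * (N q * z q ^ 2) * ((N q : ℝ≥0∞)⁻¹ * N q) := by ring
        _ = _ := by
          rw [ENNReal.inv_mul_cancel (by exact_mod_cast h0.ne') (ENNReal.natCast_ne_top _),
            mul_one]
  have h7 : (eh y ^ 2 * (108 * ∑' q, N q * z q ^ 2)) ^ (1 / 2 : ℝ) ≤ 11 * (eh y * eh z) := by
    have e : eh y ^ 2 * (108 * ∑' q, N q * z q ^ 2) ≤ (11 * (eh y * eh z)) ^ 2 := by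
      rw [mul_pow, mul_pow]
      have : eh z ^ 2 = ∑' q, N q * z q ^ 2 := enn_half_sq _
      rw [this]
      calc eh y ^ 2 * (108 * ∑' q, N q * z q ^ 2) = 108 * (eh y ^ 2 * ∑' q, N q * z q ^ 2) := by
            ring
        _ ≤ 11 ^ 2 * (eh y ^ 2 * ∑' q, N q * z q ^ 2) := by
          gcongr
          norm_num
    calc (eh y ^ 2 * (108 * ∑' q, N q * z q ^ 2)) ^ (1 / 2 : ℝ)
        ≤ ((11 * (eh y * eh z)) ^ 2) ^ (1 / 2 : ℝ) := by gcongr
      _ = _ := by
        rw [← ENNReal.rpow_natCast, ← ENNReal.rpow_mul]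
        norm_num
  unfold tm
  calc ∑' k, ∑' p, (if N k ≤ N p ∧ N k ≤ N (-k - p) then x k * y p * z (-k - p) else 0)
      ≤ ∑' k, (s k * x k) * (r k * (eh y * (∑' q, φ k q ^ 2) ^ (1 / 2 : ℝ))) :=
        ENNReal.tsum_le_tsum h1
    _ ≤ (∑' k, (s k * x k) ^ 2) ^ (1 / 2 : ℝ)
        * (∑' k, (r k * (eh y * (∑' q, φ k q ^ 2) ^ (1 / 2 : ℝ))) ^ 2) ^ (1 / 2 : ℝ) :=
        enn_cs _ _
    _ ≤ eh x * (11 * (eh y * eh z)) := by
        gcongr
        · refine le_of_eq ?_
          unfold eh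
          congr 1
          exact tsum_congr fun k => by rw [mul_pow, hs2]
        · refine le_trans ?_ h7
          gcongr
    _ = _ := by ring

/-- sums over triads in extended reals -/
noncomputable def TE (F : K3 → K3 → K3 → ℝ≥0∞) : ℝ≥0∞ := ∑' p : K3 × K3, F p.1 p.2 (-p.1 - p.2)

lemma TE_12 (f : K3 → K3 → K3 → ℝ≥0∞) : TE (fun k p q => f p k q) = TE f := by
  unfold TE
  rw [← (Equiv.prodComm K3 K3).tsum_eq]
  refine tsum_congr fun p => ?_
  simp only [Equiv.prodComm_apply, Prod.fst_swap, Prod.snd_swap]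
  rw [show -p.2 - p.1 = -p.1 - p.2 by abel]

lemma TE_23 (f : K3 → K3 → K3 → ℝ≥0∞) : TE (fun k p q => f k q p) = TE f := by
  unfold TE
  rw [← inv23.tsum_eq]
  refine tsum_congr fun p => ?_
  have : inv23 p = (p.1, -p.1 - p.2) := rfl
  rw [this]
  simp only
  rw [show -p.1 - (-p.1 - p.2) = p.2 by abel]

/-- the trilinear bound -/
lemma tz_half {x y z : K3 → ℝ≥0∞} (hx0 : x 0 = 0) (hy0 : y 0 = 0) (hz0 : z 0 = 0) :
    tz x y z ≤ 33 * (eh x * eh y * eh z) := by
  classical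
  have key : ∀ a b c : K3 → ℝ≥0∞, tm a b c = TE (fun k p q =>
      if N k ≤ N p ∧ N k ≤ N q then a k * b p * c q else 0) := by
    intro a b c
    unfold TE
    rw [ENNReal.tsum_prod']
    rfl
  have e2 : tm y x z = TE (fun k p q =>
      if N p ≤ N k ∧ N p ≤ N q then y p * x k * z q else 0) := by
    rw [key]
    exact (TE_12 (fun k p q => if N k ≤ N p ∧ N k ≤ N q then y k * x p * z q else 0)).symm
  have e3 : tm z x y = TE (fun k p q =>
      if N q ≤ N k ∧ N q ≤ N p then z q * x k * y p else 0) := by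
    rw [key, ← TE_12, ← TE_23 (fun k p q => if N p ≤ N k ∧ N p ≤ N q then z p * x k * y q else 0)]
  have h1 := tm_le (x := x) (y := y) (z := z) hx0
  have h2 := tm_le (x := y) (y := x) (z := z) hy0
  have h3 := tm_le (x := z) (y := x) (z := y) hz0
  have h4 : tz x y z ≤ tm x y z + tm y x z + tm z x y := by
    rw [key x y z, e2, e3]
    unfold TE tz
    rw [← ENNReal.tsum_add, ← ENNReal.tsum_add]
    refine ENNReal.tsum_le_tsum fun p => ?_
    beta_reduce
    rcases le_total (N p.1) (N p.2) with ha | ha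
    · rcases le_total (N p.1) (N (-p.1 - p.2)) with hb | hb
      · rw [if_pos ⟨ha, hb⟩, add_assoc]
        exact le_self_add
      · refine le_add_left ?_
        rw [if_pos ⟨hb, hb.trans ha⟩]
        exact le_of_eq (by ring)
    · rcases le_total (N p.2) (N (-p.1 - p.2)) with hb | hb
      · refine le_add_right (le_add_left ?_)
        rw [if_pos ⟨ha, hb⟩]
        exact le_of_eq (by ring)
      · refine le_add_left ?_
        rw [if_pos ⟨hb.trans ha, hb⟩]
        exact le_of_eq (by ring)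
  calc tz x y z ≤ tm x y z + tm y x z + tm z x y := h4
    _ ≤ 11 * (eh x * eh y * eh z) + 11 * (eh y * eh x * eh z) + 11 * (eh z * eh x * eh y) := by
      gcongr
    _ = _ := by ring

variable {U : K3 → C3} {A g h : ℝ} {Q : Set K3} {R W : Set (K3 × Bool)}

lemma eh_be_sq (hU : RapV U) : eh (be U) * eh (be U) ≤ ENNReal.ofReal (9 * hn 3 U) := by
  rw [← sq]
  unfold eh
  rw [enn_half_sq]
  exact sum_N_be hU

lemma eh_le {f : K3 → ℝ} (hf0 : ∀ k, 0 ≤ f k) {c : ℝ} (hc : 0 ≤ c)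
    {F : K3 → ℝ} (hF : Summable F) (hle : ∀ k, N k * f k ^ 2 ≤ F k) (hcF : ∑' k, F k ≤ c ^ 2) :
    eh (fun k => ENNReal.ofReal (f k)) ≤ ENNReal.ofReal c := by
  have hs : Summable fun k => N k * f k ^ 2 :=
    Summable.of_nonneg_of_le (fun k => by positivity) hle hF
  unfold eh
  have e : (∑' k, (N k : ℝ≥0∞) * ENNReal.ofReal (f k) ^ 2)
      = ENNReal.ofReal (∑' k, N k * f k ^ 2) := by
    rw [ENNReal.ofReal_tsum_of_nonneg (fun k => by positivity) hs]
    refine tsum_congr fun k => ?_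
    rw [ENNReal.ofReal_mul (by positivity), ENNReal.ofReal_pow (hf0 k), ENNReal.ofReal_natCast]
  rw [e]
  calc (ENNReal.ofReal (∑' k, N k * f k ^ 2)) ^ (1 / 2 : ℝ)
      ≤ (ENNReal.ofReal (c ^ 2)) ^ (1 / 2 : ℝ) := by
        gcongr
        exact (hs.tsum_le_tsum hle hF).trans hcF
    _ = ENNReal.ofReal c := by
      rw [ENNReal.ofReal_rpow_of_nonneg (by positivity) (by norm_num), ← Real.sqrt_eq_rpow,
        Real.sqrt_sq hc]

lemma summable_ind (hU : RapV U) (W : Set (K3 × Bool)) (n : ℕ) :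
    Summable (W.indicator fun m : K3 × Bool => kn m.1 ^ n * ‖par m.2 m.1 (U m.1)‖ ^ 2) := by
  have h2 : Summable fun m : K3 × Bool => 9 / 4 * (kn m.1 ^ n * ∑ i, ‖U m.1 i‖ ^ 2) :=
    (summable_bool (hU.hn_summable n) fun k => by have := kn_nonneg k; positivity).mul_left _
  have h0 : ∀ m : K3 × Bool, 0 ≤ kn m.1 ^ n * ‖par m.2 m.1 (U m.1)‖ ^ 2 := fun m => by
    have := kn_nonneg m.1; positivity
  refine Summable.of_nonneg_of_le (fun m => ?_) (fun m => ?_) h2
  · exact Set.indicator_nonneg (fun m _ => h0 m) _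
  · refine (Set.indicator_le_self' (fun m _ => h0 m) _).trans ?_
    have h3 := norm_par_le m.2 m.1 (U m.1)
    have h4 := sq_le_sum (U m.1)
    have h5 := kn_nonneg m.1
    calc kn m.1 ^ n * ‖par m.2 m.1 (U m.1)‖ ^ 2 ≤ kn m.1 ^ n * (3 / 2 * ‖U m.1‖) ^ 2 := by
          gcongr
      _ = 9 / 4 * (kn m.1 ^ n * ‖U m.1‖ ^ 2) := by ring
      _ ≤ _ := by gcongr

lemma xi_at_zero (W : Set (K3 × Bool)) (a : C3) : xi W 0 a = 0 := by
  unfold xi
  rw [par_zero, par_zero]; simp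

lemma tz_W2 (hU : RapV U) (hh0 : 0 ≤ h)
    (hW : ∑' m : K3 × Bool, W.indicator (fun m => kn m.1 * ‖par m.2 m.1 (U m.1)‖ ^ 2) m
      ≤ h ^ 2) :
    tz (xe W U) (be U) (be U) ≤ ENNReal.ofReal (594 * (h * hn 3 U)) := by
  classical
  have hx0 : xe W U 0 = 0 := by unfold xe; rw [xi_at_zero]; simp
  have hb0 : be U 0 = 0 := by unfold be; rw [bt_zero]; simp
  have h1 := tz_half hx0 hb0 hb0
  have hsW := summable_ind hU W 1
  simp only [pow_one] at hsW
  have h2 : eh (xe W U) ≤ ENNReal.ofReal (2 * h) := by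
    set ind : K3 × Bool → ℝ := W.indicator fun m : K3 × Bool =>
      kn m.1 * ‖par m.2 m.1 (U m.1)‖ ^ 2 with hind
    have hsF : Summable fun k => 2 * (ind (k, true) + ind (k, false)) :=
      ((hsW.comp_injective (i := fun k : K3 => (k, true)) fun a b h =>
        (Prod.ext_iff.1 h).1).add (hsW.comp_injective (i := fun k : K3 => (k, false))
        fun a b h => (Prod.ext_iff.1 h).1)).mul_left 2
    refine eh_le (fun k => xi_nonneg _ _ _) (by positivity) hsF (fun k => ?_) ?_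
    · have h2 := xi_sq_le W k (U k)
      have h3 := kn_nonneg k
      have h4 := N_le_kn k
      have h5 : 0 ≤ xi W k (U k) ^ 2 := sq_nonneg _
      calc (N k : ℝ) * xi W k (U k) ^ 2 ≤ kn k * xi W k (U k) ^ 2 := by gcongr
        _ ≤ kn k * (2 * ((W.indicator (fun m : K3 × Bool => ‖par m.2 m.1 (U k)‖ ^ 2) (k, true))
          + W.indicator (fun m : K3 × Bool => ‖par m.2 m.1 (U k)‖ ^ 2) (k, false))) := by gcongr
        _ = _ := by
          simp only [hind, Set.indicator_apply]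
          split_ifs <;> ring
    · rw [tsum_mul_left, ← tsum_bool' hsW, mul_pow]
      nlinarith [sq_nonneg h]
  have h0 := hn_nonneg 3 U
  calc tz (xe W U) (be U) (be U) ≤ 33 * (eh (xe W U) * eh (be U) * eh (be U)) := h1
    _ = 33 * (eh (xe W U) * (eh (be U) * eh (be U))) := by ring
    _ ≤ ENNReal.ofReal 33 * (ENNReal.ofReal (2 * h) * ENNReal.ofReal (9 * hn 3 U)) := by
      gcongr
      · norm_num
      · exact eh_be_sq hU
    _ = _ := by
      rw [← ENNReal.ofReal_mul (by positivity), ← ENNReal.ofReal_mul (by norm_num)]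
      congr 1
      ring

lemma xe_split (k : K3) :
    xe ({m | m.1 ∈ Q} ∪ R ∪ W) U k ≤ (xq Q U k + xe R U k) + xe W U k := by
  classical
  unfold xe xq
  have hb := bt_nonneg k (U k)
  have hx1 := xi_nonneg R k (U k)
  have hx2 := xi_nonneg W k (U k)
  by_cases hk : k ∈ Q
  · rw [if_pos hk, ← ENNReal.ofReal_add hb hx1, ← ENNReal.ofReal_add (by positivity) hx2]
    refine ENNReal.ofReal_le_ofReal ?_
    have : xi ({m | m.1 ∈ Q} ∪ R ∪ W) k (U k) ≤ bt k (U k) := by
      unfold xi bt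
      gcongr <;> split_ifs <;> simp
    linarith
  · rw [if_neg hk, zero_add, ← ENNReal.ofReal_add hx1 hx2]
    refine ENNReal.ofReal_le_ofReal ?_
    unfold xi
    have e : ∀ s : Bool, (k, s) ∈ ({m | m.1 ∈ Q} ∪ R ∪ W : Set (K3 × Bool))
        ↔ (k, s) ∈ R ∨ (k, s) ∈ W := by
      intro s
      simp only [mem_union]
      constructor
      · rintro ((h | h) | h)
        · exact absurd h hk
        · exact Or.inl h
        · exact Or.inr h
      · rintro (h | h)
        · exact Or.inl (Or.inr h)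
        · exact Or.inr h
    have key : ∀ s : Bool, (if (k, s) ∈ ({m | m.1 ∈ Q} ∪ R ∪ W : Set (K3 × Bool))
        then ‖par s k (U k)‖ else 0) ≤ (if (k, s) ∈ R then ‖par s k (U k)‖ else 0)
        + (if (k, s) ∈ W then ‖par s k (U k)‖ else 0) := by
      intro s
      have hn0 := norm_nonneg (par s k (U k))
      by_cases hr : (k, s) ∈ R
      · rw [if_pos ((e s).2 (Or.inl hr)), if_pos hr]
        split_ifs <;> linarith
      · by_cases hw : (k, s) ∈ W
        · rw [if_pos ((e s).2 (Or.inr hw)), if_neg hr, if_pos hw, zero_add]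
        · rw [if_neg (fun h => ((e s).1 h).elim hr hw), if_neg hr, if_neg hw, zero_add]
    refine le_trans (le_of_eq ?_) ((add_le_add (key true) (key false)).trans (le_of_eq ?_))
    · congr
    · ring

/-- The bound of the production, with a part measured in `H^{1/2}`. -/
theorem prod_le2 (hU : RapV U) (hdiv : ∀ k, dp (kc k) (U k) = 0) (hQ : Planar A Q)
    (hX : MeetsMixed ({m | m.1 ∈ Q} ∪ R ∪ W)) (hg0 : 0 ≤ g) (hh0 : 0 ≤ h)
    (hR : ∑' m : K3 × Bool, R.indicator (fun m => ‖par m.2 m.1 (U m.1)‖) m ≤ g)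
    (hW : ∑' m : K3 × Bool, W.indicator (fun m => kn m.1 * ‖par m.2 m.1 (U m.1)‖ ^ 2) m
      ≤ h ^ 2) :
    ‖T3s (ft U)‖ ≤ 54 * (108 * (Real.sqrt A * Real.sqrt (hn 3 U * hn 2 U * hn 1 U))
      + 9 * (g * hn 2 U) + 594 * (h * hn 3 U)) := by
  classical
  have h0 := hn_nonneg 2 U
  have h03 := hn_nonneg 3 U
  have h1 := ft_le_tz hU hdiv hX
  have h3 := tz_mono1 (y := be U) (z := be U) (fun k => xe_split (U := U) (Q := Q) (R := R)
    (W := W) k)
  rw [tz_add1, tz_add1] at h3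
  have h4 := h3.trans (add_le_add (add_le_add (tz_Q hU hQ) (tz_R hU hg0 hR)) (tz_W2 hU hh0 hW))
  rw [← ENNReal.ofReal_add (by positivity) (by positivity),
    ← ENNReal.ofReal_add (by positivity) (by positivity)] at h4
  have h5 : ENNReal.ofReal ‖T3s (ft U)‖ ≤ ENNReal.ofReal (54 * (108 * (Real.sqrt A
      * Real.sqrt (hn 3 U * hn 2 U * hn 1 U))
      + 9 * (g * hn 2 U) + 594 * (h * hn 3 U))) := by
    rw [ENNReal.ofReal_mul (by norm_num)]
    refine h1.trans ?_
    have : (54 : ℝ≥0∞) = ENNReal.ofReal 54 := by norm_num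
    rw [this]
    gcongr
  exact (ENNReal.ofReal_le_ofReal_iff (by positivity)).1 h5

end Pool.Agent.X96.HT
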