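import Pool.Agent.X96.HT.Evo3
import Pool.Agent.X96.HT.Half
import Pool.Agent.H459R3.NS.Iso

/-!
Gronwall for the norm of `H^{1/2}`.
-/

open MeasureTheory Set Filter Topology
open scoped ContDiff
open H459R3.NS

namespace Pool.Agent.X96.HT

variable {ν T : ℝ} {u : ℝ → V → V} {P : ℝ → V → ℝ}

/-- The differential inequality at one time. -/
lemma diff_ineq {A g h X Y Z τ : ℝ} (hν : 0 < ν) (hA : 0 ≤ A) (hg : 0 ≤ g)
    (hh : h ≤ ν / 30000) (hX : 0 ≤ X) (hY : 0 ≤ Y) (hZ : 0 ≤ Z) (hYZ : Y ^ 2 ≤ X * Z)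
    (hτ : τ ≤ 54 * (108 * (Real.sqrt A * Real.sqrt (X * Y * Z))
      + 9 * (g * Y) + 594 * (h * X))) :
    4 * Real.pi * τ ≤ 6 * Real.pi ^ 2 * ν * X
      + (68024448 * A / ν * Y + 472392 / ν * g ^ 2) * Z := by
  have hpi := Real.pi_pos
  have hpi3 := Real.pi_gt_three
  -- first term
  have h1 : 23328 * Real.pi * (Real.sqrt A * Real.sqrt (X * Y * Z))
      ≤ 2 * Real.pi ^ 2 * ν * X + 68024448 * A / ν * Y * Z := by
    have e : Real.sqrt A * Real.sqrt (X * Y * Z) = Real.sqrt X * Real.sqrt (A * Y * Z) := by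
      rw [← Real.sqrt_mul hA, ← Real.sqrt_mul hX]
      congr 1
      ring
    rw [e]
    have a1 := Real.sq_sqrt hX
    have a2 := Real.sq_sqrt (show 0 ≤ A * Y * Z by positivity)
    set x := Real.sqrt X
    set y := Real.sqrt (A * Y * Z)
    have h2 : 0 ≤ (2 * Real.pi * ν * x - 11664 * y) ^ 2 := sq_nonneg _
    have h3 : 68024448 * A / ν * Y * Z = 68024448 * y ^ 2 / ν := by rw [a2]; ring
    rw [h3, ← a1]
    have h4 : 2 * Real.pi ^ 2 * ν * x ^ 2 + 68024448 * y ^ 2 / ν - 23328 * Real.pi * (x * y)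
        = (2 * Real.pi * ν * x - 11664 * y) ^ 2 / (2 * ν) := by
      field_simp
      ring
    have h5 : 0 ≤ (2 * Real.pi * ν * x - 11664 * y) ^ 2 / (2 * ν) := by positivity
    linarith
  have h2 : 1944 * Real.pi * (g * Y) ≤ 2 * Real.pi ^ 2 * ν * X + 472392 / ν * g ^ 2 * Z := by
    have hYs : Y ≤ Real.sqrt X * Real.sqrt Z := by
      rw [← Real.sqrt_mul hX]
      exact Real.le_sqrt_of_sq_le hYZ
    have a1 := Real.sq_sqrt hX
    have a2 := Real.sq_sqrt hZ
    set x := Real.sqrt X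
    set z := Real.sqrt Z
    have h3 : 1944 * Real.pi * (g * Y) ≤ 1944 * Real.pi * (g * (x * z)) := by gcongr
    rw [← a1, ← a2]
    have h4 : 2 * Real.pi ^ 2 * ν * x ^ 2 + 472392 / ν * g ^ 2 * z ^ 2
        - 1944 * Real.pi * (g * (x * z))
        = (2 * Real.pi * ν * x - 972 * (g * z)) ^ 2 / (2 * ν) := by
      field_simp
      ring
    have h5 : 0 ≤ (2 * Real.pi * ν * x - 972 * (g * z)) ^ 2 / (2 * ν) := by positivity
    linarith
  have h3 : 128304 * Real.pi * (h * X) ≤ 2 * Real.pi ^ 2 * ν * X := by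
    have : 128304 * Real.pi * (h * X) ≤ 128304 * Real.pi * (ν / 30000 * X) := by gcongr
    nlinarith [mul_nonneg hν.le hX, mul_nonneg (mul_nonneg hν.le hX) hpi.le,
      mul_nonneg (mul_nonneg (mul_nonneg hν.le hX) hpi.le) (sub_nonneg.2 hpi3.le)]
  have h4 : 4 * Real.pi * τ ≤ 4 * Real.pi * (54 * (108 * (Real.sqrt A * Real.sqrt (X * Y * Z))
      + 9 * (g * Y) + 594 * (h * X))) := by gcongr
  have e4 : 4 * Real.pi * (54 * (108 * (Real.sqrt A * Real.sqrt (X * Y * Z))
      + 9 * (g * Y) + 594 * (h * X))) = 23328 * Real.pi * (Real.sqrt A * Real.sqrt (X * Y * Z))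
      + 1944 * Real.pi * (g * Y) + 128304 * Real.pi * (h * X) := by ring
  rw [e4] at h4
  linarith

/-- The hypotheses at one time, with constants. -/
structure Cond (ν A g : ℝ) (U : K3 → C3) : Prop where
  ex : ∃ (Q : Set K3) (R W : Set (K3 × Bool)), Planar A Q ∧
    MeetsMixed ({m | m.1 ∈ Q} ∪ R ∪ W) ∧
    ∑' m : K3 × Bool, R.indicator (fun m => ‖par m.2 m.1 (U m.1)‖) m ≤ g ∧
    ∑' m : K3 × Bool, W.indicator (fun m => kn m.1 * ‖par m.2 m.1 (U m.1)‖ ^ 2) m
      ≤ (ν / 30000) ^ 2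

/-- Gronwall for `H^{1/2}`. -/
theorem half_bound (h : IsSol ν T u P) (hν : 0 < ν) {A : ℝ} (hA : 0 ≤ A) {g : ℝ → ℝ}
    (hg0 : ∀ t ∈ Ioo 0 T, 0 ≤ g t) (hgi : IntegrableOn (fun t => g t ^ 2) (Ioo 0 T))
    (hc : ∀ t ∈ Ioo 0 T, Cond ν A (g t) (co (u t))) :
    (∀ t ∈ Ico 0 T, hn 1 (co (u t)) ≤ hn 1 (co (u 0))
      * Real.exp (10 ^ 6 * (A * energy (u 0) / ν ^ 2 + (∫ s in Ioo 0 T, g s ^ 2) / ν))) ∧
    ∃ K, ∀ t ∈ Ico 0 T, ∫ s in (0 : ℝ)..t, enstrophy (u s) ^ 2 ≤ K := by
  set B : ℝ := 10 ^ 6 * (A * energy (u 0) / ν ^ 2 + (∫ s in Ioo 0 T, g s ^ 2) / ν) with hB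
  set G : ℝ := ∫ s in Ioo 0 T, g s ^ 2 with hG
  have hpi := Real.pi_pos
  have hpi3 := Real.pi_gt_three
  set y : ℝ → ℝ := fun s => hn 1 (co (u s)) with hy
  have hy0 : ∀ s, 0 ≤ y s := fun s => hn_nonneg _ _
  have hyc0 : ContinuousOn y (Ico 0 T) := cont_hn h le_rfl
  set κ : ℝ → ℝ := fun s => 68024448 * A / ν * hn 2 (co (u s)) + 472392 / ν * g s ^ 2 with hκ
  have hκ0 : ∀ s, 0 ≤ κ s := fun s => by
    have := hn_nonneg 2 (co (u s))
    simp only [hκ]
    positivity
  have hd : ∀ s ∈ Ioo 0 T, HasDerivAt y (∑' k, zt u s k) s := fun s hs => hasDerivAt_Z h hs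
  have hdle : ∀ s ∈ Ioo 0 T, ∑' k, zt u s k
      ≤ -(2 * Real.pi ^ 2 * ν * hn 3 (co (u s))) + κ s * y s := by
    intro s hs
    have hI : s ∈ Ico 0 T := ⟨hs.1.le, hs.2⟩
    have hsp := h.sp hI
    have hU := rapV_co hsp
    obtain ⟨Q, R, W, hQ, hM, hR, hW⟩ := (hc s hs).ex
    have h1 := prod_le2 hU (dp_co hsp (h.divfree s hI)) hQ hM (hg0 s hs)
      (by positivity : 0 ≤ ν / 30000) hR hW
    have h2 := diff_ineq hν hA (hg0 s hs) le_rfl (hn_nonneg 3 _) (hn_nonneg 2 _)
      (hn_nonneg 1 _) (hn_interp hU) h1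
    rw [tsum_zt h hs]
    have h3 := Complex.abs_re_le_norm (T3s (ft (co (u s))))
    have h4 := neg_abs_le (T3s (ft (co (u s)))).re
    have h5 : -(4 * Real.pi * (T3s (ft (co (u s)))).re)
        ≤ 4 * Real.pi * ‖T3s (ft (co (u s)))‖ := by
      rw [← mul_neg]
      gcongr
      linarith
    simp only [hκ, hy]
    linarith
  have hκi : ∀ t ∈ Ico 0 T, IntegrableOn κ (Icc 0 t) ∧ ∫ s in (0 : ℝ)..t, κ s ≤ B := by
    intro t ht
    have hc2 : ContinuousOn (fun s => hn 2 (co (u s))) (Icc 0 t) :=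
      (cont_hn h (by norm_num)).mono fun s hs => ⟨hs.1, hs.2.trans_lt ht.2⟩
    have hi1 : IntegrableOn (fun s => hn 2 (co (u s))) (Icc 0 t) := hc2.integrableOn_Icc
    have hi2 : IntegrableOn (fun s => g s ^ 2) (Icc 0 t) := by
      rw [integrableOn_Icc_iff_integrableOn_Ioo]
      exact hgi.mono_set fun s hs => ⟨hs.1, hs.2.trans ht.2⟩
    have i1 : IntervalIntegrable (fun s => hn 2 (co (u s))) volume 0 t :=
      (intervalIntegrable_iff_integrableOn_Icc_of_le ht.1).2 hi1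
    have i2 : IntervalIntegrable (fun s => g s ^ 2) volume 0 t :=
      (intervalIntegrable_iff_integrableOn_Icc_of_le ht.1).2 hi2
    refine ⟨(hi1.const_mul _).add (hi2.const_mul _), ?_⟩
    simp only [hκ]
    rw [intervalIntegral.integral_add (i1.const_mul _) (i2.const_mul _),
      intervalIntegral.integral_const_mul, intervalIntegral.integral_const_mul]
    have e1 : ∫ s in (0 : ℝ)..t, hn 2 (co (u s)) ≤ energy (u 0) / (8 * Real.pi ^ 2 * ν) := by
      have h1 := h.int_enstrophy hν ht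
      have e : ∫ s in (0 : ℝ)..t, enstrophy (u s)
          = (2 * Real.pi) ^ 2 * ∫ s in (0 : ℝ)..t, hn 2 (co (u s)) := by
        rw [← intervalIntegral.integral_const_mul]
        refine intervalIntegral.integral_congr fun s hs => ?_
        rw [uIcc_of_le ht.1] at hs
        exact enstrophy_eq (h.sp ⟨hs.1, hs.2.trans_lt ht.2⟩)
      rw [e] at h1
      rw [le_div_iff₀ (by positivity)]
      rw [le_div_iff₀ (by positivity)] at h1
      linarith
    have e2 : ∫ s in (0 : ℝ)..t, g s ^ 2 ≤ G := by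
      rw [intervalIntegral.integral_of_le ht.1, integral_Ioc_eq_integral_Ioo]
      refine setIntegral_mono_set hgi ?_ ?_
      · filter_upwards with s using sq_nonneg _
      · exact (show Ioo 0 t ⊆ Ioo 0 T from fun s hs => ⟨hs.1, hs.2.trans ht.2⟩).eventuallyLE
    have hE := energy_nonneg (u 0)
    have e3 : 68024448 * A / ν * ∫ s in (0 : ℝ)..t, hn 2 (co (u s))
        ≤ 10 ^ 6 * (A * energy (u 0) / ν ^ 2) := by
      calc 68024448 * A / ν * ∫ s in (0 : ℝ)..t, hn 2 (co (u s))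
          ≤ 68024448 * A / ν * (energy (u 0) / (8 * Real.pi ^ 2 * ν)) := by gcongr
        _ = (68024448 / (8 * Real.pi ^ 2)) * (A * energy (u 0) / ν ^ 2) := by
          field_simp
        _ ≤ 10 ^ 6 * (A * energy (u 0) / ν ^ 2) := by
          gcongr
          rw [div_le_iff₀ (by positivity)]
          nlinarith
    have hG0 : 0 ≤ G := setIntegral_nonneg measurableSet_Ioo fun s _ => sq_nonneg _
    have e4 : 472392 / ν * ∫ s in (0 : ℝ)..t, g s ^ 2 ≤ 10 ^ 6 * (G / ν) := by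
      calc 472392 / ν * ∫ s in (0 : ℝ)..t, g s ^ 2 ≤ 472392 / ν * G := by gcongr
        _ = 472392 * (G / ν) := by ring
        _ ≤ _ := by
          gcongr
          norm_num
    rw [hB]
    linarith
  -- the bound of y
  have hyb : ∀ t ∈ Ico 0 T, y t ≤ y 0 * Real.exp B := by
    intro t ht
    have hyc : ContinuousOn y (Icc 0 t) := hyc0.mono fun s hs => ⟨hs.1, hs.2.trans_lt ht.2⟩
    have hlog : ∀ ε : ℝ, 0 < ε → y t + ε ≤ (y 0 + ε) * Real.exp B := by
      intro ε hε
      have hpos : ∀ s, 0 < y s + ε := fun s => by linarith [hy0 s]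
      have hcl : ContinuousOn (fun s => Real.log (y s + ε)) (Icc 0 t) :=
        (hyc.add continuousOn_const).log fun s _ => (hpos s).ne'
      have hd' : ∀ s ∈ Ioo 0 t, HasDerivWithinAt (fun s => Real.log (y s + ε))
          ((∑' k, zt u s k) / (y s + ε)) (Ioi s) s := by
        intro s hs
        exact (((hd s ⟨hs.1, hs.2.trans ht.2⟩).add_const ε).log (hpos s).ne').hasDerivWithinAt
      have hle : ∀ s ∈ Ioo 0 t, (∑' k, zt u s k) / (y s + ε) ≤ κ s := by
        intro s hs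
        rw [div_le_iff₀ (hpos s)]
        refine (hdle s ⟨hs.1, hs.2.trans ht.2⟩).trans ?_
        have h1 : 0 ≤ 2 * Real.pi ^ 2 * ν * hn 3 (co (u s)) := by
          have := hn_nonneg 3 (co (u s)); positivity
        have h2 := mul_nonneg (hκ0 s) hε.le
        linarith
      have h1 := intervalIntegral.sub_le_integral_of_hasDeriv_right_of_le ht.1 hcl hd'
        (hκi t ht).1 hle
      have h2 : Real.log (y t + ε) ≤ Real.log (y 0 + ε) + B := by linarith [(hκi t ht).2]
      calc y t + ε = Real.exp (Real.log (y t + ε)) := (Real.exp_log (hpos t)).symm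
        _ ≤ Real.exp (Real.log (y 0 + ε) + B) := Real.exp_le_exp.2 h2
        _ = (y 0 + ε) * Real.exp B := by rw [Real.exp_add, Real.exp_log (hpos 0)]
    have hlim1 : Tendsto (fun ε : ℝ => y t + ε) (𝓝[>] 0) (𝓝 (y t + 0)) :=
      (tendsto_const_nhds.add tendsto_id).mono_left nhdsWithin_le_nhds
    have hlim2 : Tendsto (fun ε : ℝ => (y 0 + ε) * Real.exp B) (𝓝[>] 0)
        (𝓝 ((y 0 + 0) * Real.exp B)) :=
      ((tendsto_const_nhds.add tendsto_id).mul_const _).mono_left nhdsWithin_le_nhds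
    have := le_of_tendsto_of_tendsto hlim1 hlim2 (by
      filter_upwards [self_mem_nhdsWithin] with ε hε
      exact hlog ε hε)
    simpa using this
  refine ⟨hyb, ?_⟩
  set Y : ℝ := y 0 * Real.exp B with hY
  have hY0 : 0 ≤ Y := mul_nonneg (hy0 0) (Real.exp_pos _).le
  refine ⟨(2 * Real.pi) ^ 4 * (Y * ((y 0 + Y * B) / (2 * Real.pi ^ 2 * ν))), fun t ht => ?_⟩
  have hyc : ContinuousOn y (Icc 0 t) := hyc0.mono fun s hs => ⟨hs.1, hs.2.trans_lt ht.2⟩
  have hXc : ContinuousOn (fun s => hn 3 (co (u s))) (Icc 0 t) :=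
    (cont_hn h (by norm_num)).mono fun s hs => ⟨hs.1, hs.2.trans_lt ht.2⟩
  have hX1 : IntegrableOn (fun s => hn 3 (co (u s))) (Icc 0 t) := hXc.integrableOn_Icc
  have i2 : IntervalIntegrable (fun s => hn 3 (co (u s))) volume 0 t :=
    (intervalIntegrable_iff_integrableOn_Icc_of_le ht.1).2 hX1
  have i1 : IntervalIntegrable κ volume 0 t :=
    (intervalIntegrable_iff_integrableOn_Icc_of_le ht.1).2 (hκi t ht).1
  have hg1 : IntegrableOn (fun s => -(2 * Real.pi ^ 2 * ν * hn 3 (co (u s))) + Y * κ s)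
      (Icc 0 t) := ((hX1.const_mul (2 * Real.pi ^ 2 * ν)).neg).add ((hκi t ht).1.const_mul _)
  have h1 := intervalIntegral.sub_le_integral_of_hasDeriv_right_of_le ht.1 hyc
    (fun s hs => (hd s ⟨hs.1, hs.2.trans ht.2⟩).hasDerivWithinAt) hg1
    (fun s hs => by
      have hs' : s ∈ Ioo 0 T := ⟨hs.1, hs.2.trans ht.2⟩
      have a1 := hdle s hs'
      have a2 : κ s * y s ≤ Y * κ s := by
        rw [mul_comm]
        exact mul_le_mul_of_nonneg_right (hyb s ⟨hs'.1.le, hs'.2⟩) (hκ0 s)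
      linarith)
  have j1 : IntervalIntegrable (fun s => -(2 * Real.pi ^ 2 * ν * hn 3 (co (u s)))) volume 0 t :=
    (i2.const_mul _).neg
  have j2 : IntervalIntegrable (fun s => Y * κ s) volume 0 t := i1.const_mul _
  rw [intervalIntegral.integral_add j1 j2, intervalIntegral.integral_neg,
    intervalIntegral.integral_const_mul, intervalIntegral.integral_const_mul] at h1
  have a1 := mul_le_mul_of_nonneg_left (hκi t ht).2 hY0
  have a4 := hy0 t
  have h2 : ∫ s in (0 : ℝ)..t, hn 3 (co (u s)) ≤ (y 0 + Y * B) / (2 * Real.pi ^ 2 * ν) := by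
    rw [le_div_iff₀ (by positivity)]
    linarith
  have h3 : ∫ s in (0 : ℝ)..t, enstrophy (u s) ^ 2
      ≤ ∫ s in (0 : ℝ)..t, (2 * Real.pi) ^ 4 * (Y * hn 3 (co (u s))) := by
    have hEc : ContinuousOn (fun s => enstrophy (u s) ^ 2) (Icc 0 t) :=
      (h.enstrophy_continuousOn.mono fun s hs => ⟨hs.1, hs.2.trans_lt ht.2⟩).pow 2
    refine intervalIntegral.integral_mono_on ht.1
      ((intervalIntegrable_iff_integrableOn_Icc_of_le ht.1).2 hEc.integrableOn_Icc)
      ((i2.const_mul _).const_mul _) fun s hs => ?_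
    have hI : s ∈ Ico 0 T := ⟨hs.1, hs.2.trans_lt ht.2⟩
    rw [enstrophy_eq (h.sp hI)]
    have h4 := hn_interp (rapV_co (h.sp hI))
    have h5 := hyb s hI
    have h6 := hn_nonneg 3 (co (u s))
    calc ((2 * Real.pi) ^ 2 * hn 2 (co (u s))) ^ 2
        = (2 * Real.pi) ^ 4 * hn 2 (co (u s)) ^ 2 := by ring
      _ ≤ (2 * Real.pi) ^ 4 * (hn 3 (co (u s)) * hn 1 (co (u s))) := by gcongr
      _ ≤ (2 * Real.pi) ^ 4 * (hn 3 (co (u s)) * Y) := by gcongr
      _ = _ := by ring
  refine h3.trans ?_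
  rw [intervalIntegral.integral_const_mul, intervalIntegral.integral_const_mul]
  gcongr

/-- Integrability on the whole interval from bounds of the integrals. -/
lemma integrableOn_of_bounds {T K : ℝ} {f : ℝ → ℝ} (hf : ContinuousOn f (Ico 0 T))
    (hf0 : ∀ t ∈ Ico 0 T, 0 ≤ f t) (hK : ∀ t ∈ Ico 0 T, ∫ s in (0 : ℝ)..t, f s ≤ K) :
    IntegrableOn f (Ioo 0 T) := by
  rcases le_or_gt T 0 with hT | hT
  · rw [Ioo_eq_empty (by linarith)]; exact integrableOn_empty
  have hlt : ∀ n : ℕ, T * (1 - 1 / (n + 1 : ℝ)) ∈ Ico 0 T := by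
    intro n
    have h1 : (0 : ℝ) < 1 / (n + 1 : ℝ) := by positivity
    have h2 : 1 / (n + 1 : ℝ) ≤ 1 := by
      rw [div_le_one (by positivity)]
      have : (0 : ℝ) ≤ n := Nat.cast_nonneg n
      linarith
    constructor
    · exact mul_nonneg hT.le (by linarith)
    · nlinarith
  have hlim : Tendsto (fun n : ℕ => T * (1 - 1 / (n + 1 : ℝ))) atTop (𝓝 T) := by
    have := (tendsto_one_div_add_atTop_nhds_zero_nat (𝕜 := ℝ)).const_sub 1
    have h2 := this.const_mul T
    simpa using h2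
  have h1 : IntegrableOn f (Ioc 0 T) := by
    refine integrableOn_Ioc_of_intervalIntegral_norm_bounded_right (l := atTop) (I := K)
      (b := fun n : ℕ => T * (1 - 1 / (n + 1 : ℝ))) (fun n => ?_) hlim
      (Eventually.of_forall fun n => ?_)
    · exact ((hf.mono fun s hs => ⟨hs.1, hs.2.trans_lt (hlt n).2⟩).integrableOn_Icc).mono_set
        Ioc_subset_Icc_self
    · refine le_trans (le_of_eq ?_) (hK _ (hlt n))
      rw [intervalIntegral.integral_of_le (hlt n).1]
      refine setIntegral_congr_fun measurableSet_Ioc fun s hs => ?_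
      rw [Real.norm_eq_abs, abs_of_nonneg (hf0 s ⟨hs.1.le, hs.2.trans_lt (hlt n).2⟩)]
  exact h1.mono_set Ioo_subset_Ioc_self

/-- The velocity is bounded if the square of the enstrophy is integrable. -/
theorem bounded_of_enstrophy_sq (h : IsSol ν T u P) (hν : 0 < ν) {K : ℝ}
    (hK : ∀ t ∈ Ico 0 T, ∫ s in (0 : ℝ)..t, enstrophy (u s) ^ 2 ≤ K) :
    ∃ M, ∀ t ∈ Ico 0 T, ∀ x i, |u t x i| ≤ M := by
  obtain ⟨C0, hC0, hS⟩ := sobolev
  obtain ⟨C, -, hC⟩ := serrin (p := 6) (by norm_num) (q := 4) (by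
    norm_num) hν (K := 0) le_rfl (lam := 0) (κ := 0) le_rfl
    (by norm_num)
  have hE0 := energy_nonneg (u 0)
  set β : ℝ → ℝ := fun t => C0 * Real.sqrt (enstrophy (u t) + energy (u 0)) with hβ
  have hb4 : ∀ t, β t ^ (4 : ℝ) = C0 ^ 4 * (enstrophy (u t) + energy (u 0)) ^ 2 := by
    intro t
    have h1 : 0 ≤ enstrophy (u t) + energy (u 0) := add_nonneg (enstrophy_nonneg _) hE0
    simp only [hβ]
    rw [show (4 : ℝ) = ((4 : ℕ) : ℝ) by norm_num, Real.rpow_natCast, mul_pow]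
    congr 1
    rw [show Real.sqrt (enstrophy (u t) + energy (u 0)) ^ 4
      = (Real.sqrt (enstrophy (u t) + energy (u 0)) ^ 2) ^ 2 by ring, Real.sq_sqrt h1]
  have hint : IntegrableOn (fun t => β t ^ (4 : ℝ)) (Ioo 0 T) := by
    simp_rw [hb4]
    have hEc := h.enstrophy_continuousOn
    refine integrableOn_of_bounds (K := C0 ^ 4 * (2 * K + 2 * (T * energy (u 0) ^ 2)))
      (continuousOn_const.mul ((hEc.add continuousOn_const).pow 2))
      (fun t _ => by positivity) fun t ht => ?_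
    have hEt : ContinuousOn (fun s => enstrophy (u s)) (Icc 0 t) :=
      hEc.mono fun s hs => ⟨hs.1, hs.2.trans_lt ht.2⟩
    have i1 : IntervalIntegrable (fun s => enstrophy (u s) ^ 2) volume 0 t :=
      (hEt.pow 2).intervalIntegrable_of_Icc ht.1
    have i3 : IntervalIntegrable (fun s => (enstrophy (u s) + energy (u 0)) ^ 2) volume 0 t :=
      ((hEt.add continuousOn_const).pow 2).intervalIntegrable_of_Icc ht.1
    rw [intervalIntegral.integral_const_mul]
    have h1 : ∫ s in (0 : ℝ)..t, (enstrophy (u s) + energy (u 0)) ^ 2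
        ≤ ∫ s in (0 : ℝ)..t, (2 * enstrophy (u s) ^ 2 + 2 * energy (u 0) ^ 2) :=
      intervalIntegral.integral_mono_on ht.1 i3
        ((i1.const_mul 2).add intervalIntegrable_const) fun s _ => by
          nlinarith [sq_nonneg (enstrophy (u s) - energy (u 0))]
    rw [intervalIntegral.integral_add (i1.const_mul 2) intervalIntegrable_const,
      intervalIntegral.integral_const_mul, intervalIntegral.integral_const] at h1
    have h2 := hK t ht
    have h3 : (t - 0) • (2 * energy (u 0) ^ 2) ≤ 2 * (T * energy (u 0) ^ 2) := by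
      rw [smul_eq_mul, sub_zero]
      have := mul_le_mul_of_nonneg_right ht.2.le (sq_nonneg (energy (u 0)))
      linarith
    gcongr
    linarith
  refine (hC T 0 u P β (fun _ => 0) h le_rfl (fun t ht => ⟨by positivity, le_rfl⟩) hint
    (integrableOn_zero) fun t ht => ?_).2
  have hI : t ∈ Ico 0 T := ⟨ht.1.le, ht.2⟩
  refine ⟨fun _ => 0, fun _ => 0, ∅, SPV.zero, SPV.zero, dimTwo_empty,
    fun i k _ => fr_zero k, ?_, ?_, ?_, ?_, fun i => ?_⟩
  · rw [enstrophy_zero]; simp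
  · have : palin (fun _ => (0 : V)) = 0 := by
      unfold palin lap pd
      simp
    rw [this]; simp
  · rw [enstrophy_zero]; simp
  · have : stretch (fun _ => (0 : V)) = 0 := by
      unfold stretch pd
      simp
    rw [this]; simp
  · have e : (fun x => u t x i - (0 : V) i - (0 : V) i) = fun x => u t x i := by
      funext x; simp
    show eLpNorm (fun x => u t x i - (0 : V) i - (0 : V) i) 6 _ ≤ _
    rw [e]
    refine (hS _ (h.sp hI i)).trans (ENNReal.ofReal_le_ofReal ?_)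
    simp only [hβ]
    refine mul_le_mul_of_nonneg_left (Real.sqrt_le_sqrt (add_le_add ?_ ?_)) hC0
    · unfold enstrophy
      exact Finset.single_le_sum (f := fun i => ∑ j, ∫ x in cube, pd j (fun y => u t y i) x ^ 2)
        (fun i _ => Finset.sum_nonneg fun j _ => integral_nonneg fun x => sq_nonneg _)
        (Finset.mem_univ i)
    · refine le_trans ?_ (h.energy_le hν hI)
      unfold energy
      exact Finset.single_le_sum (f := fun i => ∫ x in cube, u t x i ^ 2)
        (fun i _ => integral_nonneg fun x => sq_nonneg _) (Finset.mem_univ i)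

end Pool.Agent.X96.HT
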