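import Pool.Agent.X96.HT.Prod2

/-!
Gronwall for the norm of `H^{1/2}`, with the exempt triads.
-/

open MeasureTheory Set Filter Topology
open scoped ContDiff
open H459R3.NS

namespace Pool.Agent.X96.HT

variable {ν T : ℝ} {u : ℝ → V → V} {P : ℝ → V → ℝ}

/-- Parseval -/
lemma energy_eq_hn {v : V → V} (hv : ∀ i, SP (fun x => v x i)) : energy v = hn 0 (co v) := by
  unfold energy hn
  have hs : ∀ i, Summable fun k => ‖fr (fun x => v x i) k‖ ^ 2 := fun i =>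
    summable_sq (rap_fr (hv i)).summable
  have e : ∀ i, ∫ x in cube, v x i ^ 2 = ∑' k, ‖fr (fun x => v x i) k‖ ^ 2 := by
    intro i
    rw [← n2_fr (hv i), n2_sq]
  rw [Finset.sum_congr rfl fun i _ => e i, ← Summable.tsum_finsetSum fun i _ => hs i]
  refine tsum_congr fun k => ?_
  rw [pow_zero, one_mul]
  rfl

/-- one exempt term -/
lemma ex_term {ν c E r e X : ℝ} (hν : 0 < ν) (hc : 0 ≤ c) (hE : 0 ≤ E)
    (he : e = ν / (10 ^ 4 * (c * Real.sqrt E + ν))) (hX : 0 ≤ X) (hr : 0 ≤ r) :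
    4 * Real.pi * (2916 * (c * Real.sqrt E * (e * X + e ^ (-r) * E)))
      ≤ Real.pi ^ 2 * ν / 2 * X
        + (40000 * (10 ^ 4 * (1 + c)) ^ (r + 1)) * (ν * E * (1 + E / ν ^ 2) ^ (r + 1)) := by
  have hpi := Real.pi_pos
  have hpi3 := Real.pi_gt_three
  have hpi4 := Real.pi_lt_d2
  set s := Real.sqrt E with hs
  have hs0 : 0 ≤ s := Real.sqrt_nonneg _
  have hs2 : s ^ 2 = E := Real.sq_sqrt hE
  have hd : 0 < c * s + ν := by positivity
  have he0 : 0 < e := by rw [he]; positivity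
  have h1 : c * s * e ≤ ν / 10 ^ 4 := by
    rw [he, mul_div_assoc', div_le_div_iff₀ (by positivity) (by norm_num)]
    nlinarith [mul_nonneg hc hs0, mul_nonneg (mul_nonneg hc hs0) hν.le]
  have h2 : 4 * Real.pi * (2916 * (c * s * (e * X))) ≤ Real.pi ^ 2 * ν / 2 * X := by
    have : 4 * Real.pi * (2916 * (c * s * (e * X))) = 4 * Real.pi * 2916 * (c * s * e) * X := by
      ring
    rw [this]
    have h3 : 4 * Real.pi * 2916 * (c * s * e) ≤ 4 * Real.pi * 2916 * (ν / 10 ^ 4) := by gcongr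
    have h4 : 4 * Real.pi * 2916 * (ν / 10 ^ 4) ≤ Real.pi ^ 2 * ν / 2 := by
      nlinarith [mul_pos hpi hν, mul_pos (mul_pos hpi hν) hpi]
    exact mul_le_mul_of_nonneg_right (h3.trans h4) hX
  -- the source term
  have hx : s / ν ≤ 1 + E / ν ^ 2 := by
    have e1 : E / ν ^ 2 = (s / ν) ^ 2 := by rw [div_pow, hs2]
    rw [e1]
    nlinarith [sq_nonneg (s / ν - 1 / 2)]
  have hF : 1 + c * (s / ν) ≤ (1 + c) * (1 + E / ν ^ 2) := by
    have : 0 ≤ E / ν ^ 2 := by positivity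
    nlinarith [mul_le_mul_of_nonneg_left hx hc]
  have hF0 : 0 < 1 + c * (s / ν) := by positivity
  have h5 : e ^ (-r) = (10 ^ 4 * (1 + c * (s / ν))) ^ r := by
    rw [he, Real.rpow_neg (by positivity), ← Real.inv_rpow (by positivity)]
    congr 1
    field_simp
    ring
  have h6 : c * s * E ≤ ν * E * (10 ^ 4 * (1 + c * (s / ν))) := by
    have : ν * E * (10 ^ 4 * (1 + c * (s / ν))) = 10 ^ 4 * (ν * E + c * s * E) := by
      field_simp
    rw [this]
    have h7 : 0 ≤ ν * E := by positivity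
    have h8 : 0 ≤ c * s * E := by positivity
    linarith
  have h7 : c * s * (e ^ (-r) * E) ≤ (10 ^ 4 * (1 + c)) ^ (r + 1)
      * (ν * E * (1 + E / ν ^ 2) ^ (r + 1)) := by
    rw [h5]
    have h8 : 0 < 10 ^ 4 * (1 + c * (s / ν)) := by positivity
    calc c * s * ((10 ^ 4 * (1 + c * (s / ν))) ^ r * E)
        = (10 ^ 4 * (1 + c * (s / ν))) ^ r * (c * s * E) := by ring
      _ ≤ (10 ^ 4 * (1 + c * (s / ν))) ^ r * (ν * E * (10 ^ 4 * (1 + c * (s / ν)))) := by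
        gcongr
      _ = ν * E * (10 ^ 4 * (1 + c * (s / ν))) ^ (r + 1) := by
        rw [Real.rpow_add h8, Real.rpow_one]; ring
      _ ≤ ν * E * (10 ^ 4 * ((1 + c) * (1 + E / ν ^ 2))) ^ (r + 1) := by
        gcongr
      _ = _ := by
        rw [← mul_assoc (10 ^ 4 : ℝ), Real.mul_rpow (by positivity) (by positivity)]
        ring
  have h8 : 0 ≤ (10 ^ 4 * (1 + c)) ^ (r + 1) * (ν * E * (1 + E / ν ^ 2) ^ (r + 1)) := by
    positivity
  have h9 : 4 * Real.pi * (2916 * (c * s * (e ^ (-r) * E))) ≤ 40000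
      * ((10 ^ 4 * (1 + c)) ^ (r + 1) * (ν * E * (1 + E / ν ^ 2) ^ (r + 1))) := by
    calc 4 * Real.pi * (2916 * (c * s * (e ^ (-r) * E)))
        ≤ 4 * Real.pi * (2916 * ((10 ^ 4 * (1 + c)) ^ (r + 1)
          * (ν * E * (1 + E / ν ^ 2) ^ (r + 1)))) := by gcongr
      _ = (11664 * Real.pi) * ((10 ^ 4 * (1 + c)) ^ (r + 1)
          * (ν * E * (1 + E / ν ^ 2) ^ (r + 1))) := by ring
      _ ≤ _ := by
        gcongr
        linarith
  calc 4 * Real.pi * (2916 * (c * s * (e * X + e ^ (-r) * E)))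
      = 4 * Real.pi * (2916 * (c * s * (e * X)))
        + 4 * Real.pi * (2916 * (c * s * (e ^ (-r) * E))) := by ring
    _ ≤ _ := by
      refine add_le_add h2 (h9.trans (le_of_eq ?_))
      ring

/-- The hypotheses at one time, with constants. -/
structure Cond2 (ν A g K θ₁ θ₂ : ℝ) (U : K3 → C3) : Prop where
  ex : ∃ (Q : Set K3) (R W : Set (K3 × Bool)), Planar A Q ∧
    MeetsStrong K θ₁ θ₂ ({m | m.1 ∈ Q} ∪ R ∪ W) ∧
    ∑' m : K3 × Bool, R.indicator (fun m => ‖par m.2 m.1 (U m.1)‖) m ≤ g ∧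
    ∑' m : K3 × Bool, W.indicator (fun m => kn m.1 * ‖par m.2 m.1 (U m.1)‖ ^ 2) m
      ≤ (ν / 30000) ^ 2

/-- exponents -/
noncomputable def r1 (θ : ℝ) : ℝ := (1 + 5 / 2 * θ) / (2 - 5 / 2 * θ)

/-- exponents -/
noncomputable def r2 (θ : ℝ) : ℝ := (7 / 2 * θ) / (3 - 7 / 2 * θ)

/-- the source -/
noncomputable def src (ν E K θ₁ θ₂ : ℝ) : ℝ :=
  (40000 * (10 ^ 4 * (1 + ck K θ₁ 1 1)) ^ (r1 θ₁ + 1)) * (ν * E * (1 + E / ν ^ 2) ^ (r1 θ₁ + 1))
  + (40000 * (10 ^ 4 * (1 + ck K θ₂ 2 0)) ^ (r2 θ₂ + 1)) * (ν * E * (1 + E / ν ^ 2) ^ (r2 θ₂ + 1))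

/-- Gronwall for `H^{1/2}`. -/
theorem half_bound2 (h : IsSol ν T u P) (hν : 0 < ν) {A K θ₁ θ₂ : ℝ} (hA : 0 ≤ A) (hK : 0 ≤ K)
    (hθ₁ : 0 ≤ θ₁) (hθ₁' : θ₁ < 4 / 5) (hθ₂ : 0 ≤ θ₂) (hθ₂' : θ₂ < 6 / 7) {g : ℝ → ℝ}
    (hg0 : ∀ t ∈ Ioo 0 T, 0 ≤ g t) (hgi : IntegrableOn (fun t => g t ^ 2) (Ioo 0 T))
    (hc : ∀ t ∈ Ioo 0 T, Cond2 ν A (g t) K θ₁ θ₂ (co (u t))) :
    (∀ t ∈ Ico 0 T, hn 1 (co (u t)) ≤ (hn 1 (co (u 0)) + src ν (energy (u 0)) K θ₁ θ₂ * t)
      * Real.exp (10 ^ 6 * (A * energy (u 0) / ν ^ 2 + (∫ s in Ioo 0 T, g s ^ 2) / ν))) ∧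
    ∃ C, ∀ t ∈ Ico 0 T, ∫ s in (0 : ℝ)..t, enstrophy (u s) ^ 2 ≤ C := by
  set B : ℝ := 10 ^ 6 * (A * energy (u 0) / ν ^ 2 + (∫ s in Ioo 0 T, g s ^ 2) / ν) with hB
  set G : ℝ := ∫ s in Ioo 0 T, g s ^ 2 with hG
  set E₀ : ℝ := energy (u 0) with hE₀
  set D : ℝ := src ν E₀ K θ₁ θ₂ with hD
  have hE := energy_nonneg (u 0)
  have hr1 : 0 ≤ r1 θ₁ := div_nonneg (by linarith) (by linarith)
  have hr2 : 0 ≤ r2 θ₂ := div_nonneg (by linarith) (by linarith)
  have c1 := ck_nonneg K θ₁ 1 1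
  have c2 := ck_nonneg K θ₂ 2 0
  have hD0 : 0 ≤ D := by rw [hD]; unfold src; positivity
  have hpi := Real.pi_pos
  have hpi3 := Real.pi_gt_three
  set y : ℝ → ℝ := fun s => hn 1 (co (u s)) with hy
  have hy0 : ∀ s, 0 ≤ y s := fun s => hn_nonneg _ _
  have hyc0 : ContinuousOn y (Ico 0 T) := cont_hn h le_rfl
  set κ : ℝ → ℝ := fun s => 68024448 * A / ν * hn 2 (co (u s)) + 472392 / ν * g s ^ 2 with hκ
  have hκ0 : ∀ s, 0 ≤ κ s := fun s => by
    have := hn_nonneg 2 (co (u s))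
    simp only [hκ]
    positivity
  have hd : ∀ s ∈ Ioo 0 T, HasDerivAt y (∑' k, zt u s k) s := fun s hs => hasDerivAt_Z h hs
  have hdle : ∀ s ∈ Ioo 0 T, ∑' k, zt u s k
      ≤ -(Real.pi ^ 2 * ν * hn 3 (co (u s))) + κ s * y s + D := by
    intro s hs
    have hI : s ∈ Ico 0 T := ⟨hs.1.le, hs.2⟩
    have hsp := h.sp hI
    have hU := rapV_co hsp
    obtain ⟨Q, R, W, hQ, hM, hR, hW⟩ := (hc s hs).ex
    set e₁ : ℝ := ν / (10 ^ 4 * (ck K θ₁ 1 1 * Real.sqrt E₀ + ν)) with he₁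
    set e₂ : ℝ := ν / (10 ^ 4 * (ck K θ₂ 2 0 * Real.sqrt E₀ + ν)) with he₂
    have he₁0 : 0 < e₁ := by positivity
    have he₂0 : 0 < e₂ := by positivity
    have h1 := prod_le3 hU (dp_co hsp (h.divfree s hI)) hK hθ₁ hθ₁' hθ₂ hθ₂' hQ hM (hg0 s hs)
      (by positivity : 0 ≤ ν / 30000) hR hW he₁0 he₂0
    have hEs : hn 0 (co (u s)) ≤ E₀ := by
      rw [← energy_eq_hn hsp]
      exact h.energy_le hν hI
    have hEs0 := hn_nonneg 0 (co (u s))
    have hX := hn_nonneg 3 (co (u s))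
    have hsq : Real.sqrt (hn 0 (co (u s))) ≤ Real.sqrt E₀ := Real.sqrt_le_sqrt hEs
    have q1 : 0 ≤ e₁ ^ (-(r1 θ₁)) := Real.rpow_nonneg he₁0.le _
    have q2 : 0 ≤ e₂ ^ (-(r2 θ₂)) := Real.rpow_nonneg he₂0.le _
    set τ₀ := 54 * (108 * (Real.sqrt A * Real.sqrt (hn 3 (co (u s)) * hn 2 (co (u s))
        * hn 1 (co (u s))))
      + 9 * (g s * hn 2 (co (u s))) + 594 * (ν / 30000 * hn 3 (co (u s)))) with hτ₀
    have h2 := diff_ineq hν hA (hg0 s hs) le_rfl (hn_nonneg 3 _) (hn_nonneg 2 _)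
      (hn_nonneg 1 _) (hn_interp hU) (le_of_eq hτ₀)
    have x1 := ex_term hν c1 hE he₁ hX hr1
    have x2 := ex_term hν c2 hE he₂ hX hr2
    have h5 : ‖T3s (ft (co (u s)))‖ ≤ τ₀
        + 2916 * (ck K θ₁ 1 1 * Real.sqrt E₀ * (e₁ * hn 3 (co (u s)) + e₁ ^ (-(r1 θ₁)) * E₀))
        + 2916 * (ck K θ₂ 2 0 * Real.sqrt E₀
          * (e₂ * hn 3 (co (u s)) + e₂ ^ (-(r2 θ₂)) * E₀)) := by
      refine h1.trans ?_
      have a1 : ck K θ₁ 1 1 * Real.sqrt (hn 0 (co (u s)))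
          * (e₁ * hn 3 (co (u s)) + e₁ ^ (-((1 + 5 / 2 * θ₁) / (2 - 5 / 2 * θ₁)))
            * hn 0 (co (u s)))
          ≤ ck K θ₁ 1 1 * Real.sqrt E₀ * (e₁ * hn 3 (co (u s)) + e₁ ^ (-(r1 θ₁)) * E₀) := by
        have : e₁ ^ (-((1 + 5 / 2 * θ₁) / (2 - 5 / 2 * θ₁))) = e₁ ^ (-(r1 θ₁)) := rfl
        rw [this]
        gcongr
      have a2 : ck K θ₂ 2 0 * Real.sqrt (hn 0 (co (u s)))
          * (e₂ * hn 3 (co (u s)) + e₂ ^ (-((7 / 2 * θ₂) / (3 - 7 / 2 * θ₂)))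
            * hn 0 (co (u s)))
          ≤ ck K θ₂ 2 0 * Real.sqrt E₀ * (e₂ * hn 3 (co (u s)) + e₂ ^ (-(r2 θ₂)) * E₀) := by
        have : e₂ ^ (-((7 / 2 * θ₂) / (3 - 7 / 2 * θ₂))) = e₂ ^ (-(r2 θ₂)) := rfl
        rw [this]
        gcongr
      linarith
    rw [tsum_zt h hs]
    have h3 := Complex.abs_re_le_norm (T3s (ft (co (u s))))
    have h4 := neg_abs_le (T3s (ft (co (u s)))).re
    have h6 : -(4 * Real.pi * (T3s (ft (co (u s)))).re)
        ≤ 4 * Real.pi * ‖T3s (ft (co (u s)))‖ := by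
      rw [← mul_neg]
      gcongr
      linarith
    have h7 := mul_le_mul_of_nonneg_left h5 (by positivity : 0 ≤ 4 * Real.pi)
    simp only [hκ, hy, hD, src]
    linarith
  have hκi : ∀ t ∈ Ico 0 T, IntegrableOn κ (Icc 0 t) ∧ ∫ s in (0 : ℝ)..t, κ s ≤ B := by
    intro t ht
    have hc2 : ContinuousOn (fun s => hn 2 (co (u s))) (Icc 0 t) :=
      (cont_hn h (by norm_num)).mono fun s hs => ⟨hs.1, hs.2.trans_lt ht.2⟩
    have hi1 : IntegrableOn (fun s => hn 2 (co (u s))) (Icc 0 t) := hc2.integrableOn_Icc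
    have hi2 : IntegrableOn (fun s => g s ^ 2) (Icc 0 t) := by
      rw [integrableOn_Icc_iff_integrableOn_Ioo]
      exact hgi.mono_set fun s hs => ⟨hs.1, hs.2.trans ht.2⟩
    have i1 : IntervalIntegrable (fun s => hn 2 (co (u s))) volume 0 t :=
      (intervalIntegrable_iff_integrableOn_Icc_of_le ht.1).2 hi1
    have i2 : IntervalIntegrable (fun s => g s ^ 2) volume 0 t :=
      (intervalIntegrable_iff_integrableOn_Icc_of_le ht.1).2 hi2
    refine ⟨(hi1.const_mul _).add (hi2.const_mul _), ?_⟩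
    simp only [hκ]
    rw [intervalIntegral.integral_add (i1.const_mul _) (i2.const_mul _),
      intervalIntegral.integral_const_mul, intervalIntegral.integral_const_mul]
    have e1 : ∫ s in (0 : ℝ)..t, hn 2 (co (u s)) ≤ energy (u 0) / (8 * Real.pi ^ 2 * ν) := by
      have h1 := h.int_enstrophy hν ht
      have e : ∫ s in (0 : ℝ)..t, enstrophy (u s)
          = (2 * Real.pi) ^ 2 * ∫ s in (0 : ℝ)..t, hn 2 (co (u s)) := by
        rw [← intervalIntegral.integral_const_mul]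
        refine intervalIntegral.integral_congr fun s hs => ?_
        rw [uIcc_of_le ht.1] at hs
        exact enstrophy_eq (h.sp ⟨hs.1, hs.2.trans_lt ht.2⟩)
      rw [e] at h1
      rw [le_div_iff₀ (by positivity)]
      rw [le_div_iff₀ (by positivity)] at h1
      linarith
    have e2 : ∫ s in (0 : ℝ)..t, g s ^ 2 ≤ G := by
      rw [intervalIntegral.integral_of_le ht.1, integral_Ioc_eq_integral_Ioo]
      refine setIntegral_mono_set hgi ?_ ?_
      · filter_upwards with s using sq_nonneg _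
      · exact (show Ioo 0 t ⊆ Ioo 0 T from fun s hs => ⟨hs.1, hs.2.trans ht.2⟩).eventuallyLE
    have e3 : 68024448 * A / ν * ∫ s in (0 : ℝ)..t, hn 2 (co (u s))
        ≤ 10 ^ 6 * (A * E₀ / ν ^ 2) := by
      calc 68024448 * A / ν * ∫ s in (0 : ℝ)..t, hn 2 (co (u s))
          ≤ 68024448 * A / ν * (E₀ / (8 * Real.pi ^ 2 * ν)) := by gcongr
        _ = (68024448 / (8 * Real.pi ^ 2)) * (A * E₀ / ν ^ 2) := by
          field_simp
        _ ≤ 10 ^ 6 * (A * E₀ / ν ^ 2) := by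
          gcongr
          rw [div_le_iff₀ (by positivity)]
          nlinarith
    have hG0 : 0 ≤ G := setIntegral_nonneg measurableSet_Ioo fun s _ => sq_nonneg _
    have e4 : 472392 / ν * ∫ s in (0 : ℝ)..t, g s ^ 2 ≤ 10 ^ 6 * (G / ν) := by
      calc 472392 / ν * ∫ s in (0 : ℝ)..t, g s ^ 2 ≤ 472392 / ν * G := by gcongr
        _ = 472392 * (G / ν) := by ring
        _ ≤ _ := by
          gcongr
          norm_num
    rw [hB]
    linarith
  -- the bound of y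
  have hyb : ∀ t ∈ Ico 0 T, y t ≤ (y 0 + D * t) * Real.exp B := by
    intro t ht
    have hyc : ContinuousOn y (Icc 0 t) := hyc0.mono fun s hs => ⟨hs.1, hs.2.trans_lt ht.2⟩
    have hlog : ∀ ε : ℝ, 0 < ε → y t + ε ≤ (y 0 + D * t + ε) * Real.exp B := by
      intro ε hε
      have hpos : ∀ s ∈ Icc 0 t, 0 < y s + (D * (t - s) + ε) := fun s hs => by
        have := hy0 s
        have h2 : 0 ≤ D * (t - s) := mul_nonneg hD0 (by linarith [hs.2])
        linarith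
      have hcl : ContinuousOn (fun s => Real.log (y s + (D * (t - s) + ε))) (Icc 0 t) :=
        (hyc.add (by fun_prop)).log fun s hs => (hpos s hs).ne'
      have hd' : ∀ s ∈ Ioo 0 t, HasDerivWithinAt (fun s => Real.log (y s + (D * (t - s) + ε)))
          ((∑' k, zt u s k + D * (-1)) / (y s + (D * (t - s) + ε))) (Ioi s) s := by
        intro s hs
        have a1 := hd s ⟨hs.1, hs.2.trans ht.2⟩
        have a2 : HasDerivAt (fun s => D * (t - s) + ε) (D * (-1)) s :=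
          (((hasDerivAt_id s).const_sub t).const_mul D).add_const ε
        exact ((a1.add a2).log (hpos s ⟨hs.1.le, hs.2.le⟩).ne').hasDerivWithinAt
      have hle : ∀ s ∈ Ioo 0 t, (∑' k, zt u s k + D * (-1)) / (y s + (D * (t - s) + ε)) ≤ κ s := by
        intro s hs
        have hsI : s ∈ Icc 0 t := ⟨hs.1.le, hs.2.le⟩
        rw [div_le_iff₀ (hpos s hsI)]
        have h0 := hdle s ⟨hs.1, hs.2.trans ht.2⟩
        have h1 : 0 ≤ Real.pi ^ 2 * ν * hn 3 (co (u s)) := by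
          have := hn_nonneg 3 (co (u s)); positivity
        have h2 : 0 ≤ κ s * (D * (t - s) + ε) := by
          have h3 : 0 ≤ D * (t - s) := mul_nonneg hD0 (by linarith [hs.2])
          have := hκ0 s
          positivity
        linarith
      have h1 := intervalIntegral.sub_le_integral_of_hasDeriv_right_of_le ht.1 hcl hd'
        (hκi t ht).1 hle
      have e0 : y t + (D * (t - t) + ε) = y t + ε := by ring
      have e1 : y 0 + (D * (t - 0) + ε) = y 0 + D * t + ε := by ring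
      rw [e0, e1] at h1
      have hpt : 0 < y t + ε := by linarith [hy0 t]
      have hp0 : 0 < y 0 + D * t + ε := by
        have := mul_nonneg hD0 ht.1
        linarith [hy0 0]
      have h2 : Real.log (y t + ε) ≤ Real.log (y 0 + D * t + ε) + B := by
        linarith [(hκi t ht).2]
      calc y t + ε = Real.exp (Real.log (y t + ε)) := (Real.exp_log hpt).symm
        _ ≤ Real.exp (Real.log (y 0 + D * t + ε) + B) := Real.exp_le_exp.2 h2
        _ = (y 0 + D * t + ε) * Real.exp B := by rw [Real.exp_add, Real.exp_log hp0]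
    have hlim1 : Tendsto (fun ε : ℝ => y t + ε) (𝓝[>] 0) (𝓝 (y t + 0)) :=
      (tendsto_const_nhds.add tendsto_id).mono_left nhdsWithin_le_nhds
    have hlim2 : Tendsto (fun ε : ℝ => (y 0 + D * t + ε) * Real.exp B) (𝓝[>] 0)
        (𝓝 ((y 0 + D * t + 0) * Real.exp B)) :=
      ((tendsto_const_nhds.add tendsto_id).mul_const _).mono_left nhdsWithin_le_nhds
    have := le_of_tendsto_of_tendsto hlim1 hlim2 (by
      filter_upwards [self_mem_nhdsWithin] with ε hε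
      exact hlog ε hε)
    simpa using this
  refine ⟨hyb, ?_⟩
  set Y : ℝ := (y 0 + D * T) * Real.exp B with hY
  rcases le_or_gt T 0 with hT | hT
  · exact ⟨0, fun t ht => absurd (ht.1.trans_lt ht.2) (not_lt.2 hT)⟩
  have hY0 : 0 ≤ Y := mul_nonneg (add_nonneg (hy0 0) (mul_nonneg hD0 hT.le)) (Real.exp_pos _).le
  have hyY : ∀ t ∈ Ico 0 T, y t ≤ Y := by
    intro t ht
    refine (hyb t ht).trans ?_
    rw [hY]
    have := ht.2.le
    gcongr
  refine ⟨(2 * Real.pi) ^ 4 * (Y * ((y 0 + Y * B + D * T) / (Real.pi ^ 2 * ν))), fun t ht => ?_⟩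
  have hyc : ContinuousOn y (Icc 0 t) := hyc0.mono fun s hs => ⟨hs.1, hs.2.trans_lt ht.2⟩
  have hXc : ContinuousOn (fun s => hn 3 (co (u s))) (Icc 0 t) :=
    (cont_hn h (by norm_num)).mono fun s hs => ⟨hs.1, hs.2.trans_lt ht.2⟩
  have hX1 : IntegrableOn (fun s => hn 3 (co (u s))) (Icc 0 t) := hXc.integrableOn_Icc
  have i2 : IntervalIntegrable (fun s => hn 3 (co (u s))) volume 0 t :=
    (intervalIntegrable_iff_integrableOn_Icc_of_le ht.1).2 hX1
  have i1 : IntervalIntegrable κ volume 0 t :=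
    (intervalIntegrable_iff_integrableOn_Icc_of_le ht.1).2 (hκi t ht).1
  have hcD : IntegrableOn (fun _ : ℝ => D) (Icc 0 t) :=
    (continuousOn_const).integrableOn_Icc
  have hg1 : IntegrableOn (fun s => -(Real.pi ^ 2 * ν * hn 3 (co (u s))) + Y * κ s + D)
      (Icc 0 t) :=
    (((hX1.const_mul (Real.pi ^ 2 * ν)).neg).add ((hκi t ht).1.const_mul _)).add hcD
  have h1 := intervalIntegral.sub_le_integral_of_hasDeriv_right_of_le ht.1 hyc
    (fun s hs => (hd s ⟨hs.1, hs.2.trans ht.2⟩).hasDerivWithinAt) hg1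
    (fun s hs => by
      have hs' : s ∈ Ioo 0 T := ⟨hs.1, hs.2.trans ht.2⟩
      have a1 := hdle s hs'
      have a2 : κ s * y s ≤ Y * κ s := by
        rw [mul_comm]
        exact mul_le_mul_of_nonneg_right (hyY s ⟨hs'.1.le, hs'.2⟩) (hκ0 s)
      linarith)
  have j1 : IntervalIntegrable (fun s => -(Real.pi ^ 2 * ν * hn 3 (co (u s)))) volume 0 t :=
    (i2.const_mul _).neg
  have j2 : IntervalIntegrable (fun s => Y * κ s) volume 0 t := i1.const_mul _
  rw [intervalIntegral.integral_add (j1.add j2) intervalIntegrable_const,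
    intervalIntegral.integral_add j1 j2, intervalIntegral.integral_neg,
    intervalIntegral.integral_const_mul, intervalIntegral.integral_const_mul,
    intervalIntegral.integral_const, smul_eq_mul, sub_zero] at h1
  have a1 := mul_le_mul_of_nonneg_left (hκi t ht).2 hY0
  have a4 := hy0 t
  have a5 : t * D ≤ D * T := by
    rw [mul_comm]
    exact mul_le_mul_of_nonneg_left ht.2.le hD0
  have h2 : ∫ s in (0 : ℝ)..t, hn 3 (co (u s)) ≤ (y 0 + Y * B + D * T) / (Real.pi ^ 2 * ν) := by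
    rw [le_div_iff₀ (by positivity)]
    linarith
  have h3 : ∫ s in (0 : ℝ)..t, enstrophy (u s) ^ 2
      ≤ ∫ s in (0 : ℝ)..t, (2 * Real.pi) ^ 4 * (Y * hn 3 (co (u s))) := by
    have hEc : ContinuousOn (fun s => enstrophy (u s) ^ 2) (Icc 0 t) :=
      (h.enstrophy_continuousOn.mono fun s hs => ⟨hs.1, hs.2.trans_lt ht.2⟩).pow 2
    refine intervalIntegral.integral_mono_on ht.1
      ((intervalIntegrable_iff_integrableOn_Icc_of_le ht.1).2 hEc.integrableOn_Icc)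
      ((i2.const_mul _).const_mul _) fun s hs => ?_
    have hI : s ∈ Ico 0 T := ⟨hs.1, hs.2.trans_lt ht.2⟩
    rw [enstrophy_eq (h.sp hI)]
    have h4 := hn_interp (rapV_co (h.sp hI))
    have h5 := hyY s hI
    have h6 := hn_nonneg 3 (co (u s))
    calc ((2 * Real.pi) ^ 2 * hn 2 (co (u s))) ^ 2
        = (2 * Real.pi) ^ 4 * hn 2 (co (u s)) ^ 2 := by ring
      _ ≤ (2 * Real.pi) ^ 4 * (hn 3 (co (u s)) * hn 1 (co (u s))) := by gcongr
      _ ≤ (2 * Real.pi) ^ 4 * (hn 3 (co (u s)) * Y) := by gcongr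
      _ = _ := by ring
  refine h3.trans ?_
  rw [intervalIntegral.integral_const_mul, intervalIntegral.integral_const_mul]
  gcongr

end Pool.Agent.X96.HT
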