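import Pool.Agent.X96.HT.Prod

/-!
The evolution of the Fourier coefficients of a smooth periodic solution and of its norm in
`H^{1/2}`.
-/

open MeasureTheory Set Filter Topology
open scoped ContDiff
open H459R3.NS

namespace Pool.Agent.X96.HT

/-- vector of Fourier coefficients -/
noncomputable def co (v : V → V) (k : K3) : C3 := fun i => fr (fun x => v x i) k

lemma fr_eq_re_im {f : V → ℝ} (hf : Continuous f) (k : K3) :
    fr f k = ((∫ x in cube, (ee (-k) x).re * f x : ℝ) : ℂ)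
      + ((∫ x in cube, (ee (-k) x).im * f x : ℝ) : ℂ) * Complex.I := by
  unfold fr fc
  have hc := ee_continuous (-k)
  have i1 : Integrable (fun x => (((ee (-k) x).re * f x : ℝ) : ℂ)) (volume.restrict cube) :=
    integrableOn_cube (Complex.continuous_ofReal.comp
      ((Complex.continuous_re.comp hc).mul hf))
  have i2 : Integrable (fun x => (((ee (-k) x).im * f x : ℝ) : ℂ) * Complex.I)
      (volume.restrict cube) :=
    integrableOn_cube ((Complex.continuous_ofReal.comp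
      ((Complex.continuous_im.comp hc).mul hf)).mul continuous_const)
  rw [← integral_complex_ofReal, ← integral_complex_ofReal, ← integral_mul_const,
    ← integral_add i1 i2]
  congr 1
  funext x
  conv_lhs => rw [← Complex.re_add_im (ee (-k) x)]
  push_cast
  ring

section general

variable {T : ℝ} {f : ℝ → V → ℝ}

lemma hasDerivAt_fr (hf : ContDiffOn ℝ ∞ (fun z : ℝ × V => f z.1 z.2) (Ico 0 T ×ˢ univ))
    {t : ℝ} (ht : t ∈ Ioo 0 T) (k : K3) :
    HasDerivAt (fun s => fr (f s) k) (fr (dt f t) k) t := by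
  have hI : t ∈ Ico 0 T := ⟨ht.1.le, ht.2⟩
  have hee : ContDiff ℝ ∞ (ee (-k)) := ee_contDiff (-k)
  have key : ∀ c : V → ℝ, ContDiff ℝ 1 c → HasDerivAt (fun s => ∫ x in cube, c x * f s x)
      (∫ x in cube, c x * dt f t x) t := by
    intro c hc
    have hF : ContDiffOn ℝ 1 (fun z : ℝ × V => c z.2 * f z.1 z.2) (Ioo 0 T ×ˢ univ) :=
      (hc.comp contDiff_snd).contDiffOn.mul (mono_Ioo (f := f) hf (by norm_cast))
    have := hasDerivAt_int (F := fun s x => c x * f s x) hF ht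
    refine this.congr_deriv ?_
    congr 1
    funext x
    have h2 : HasDerivAt (fun s => f s x) (dt f t x) t := by
      have := hasDerivAt_slice (F := f) (mono_Ioo (f := f) hf (by norm_cast)) ht x
      rwa [← dt_eq (f := f) hf ht x] at this
    exact (h2.const_mul (c x)).deriv
  have k1 := key (fun x => (ee (-k) x).re) (Complex.reCLM.contDiff.comp (hee.of_le (by norm_cast)))
  have k2 := key (fun x => (ee (-k) x).im) (Complex.imCLM.contDiff.comp (hee.of_le (by norm_cast)))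
  have h3 : HasDerivAt (fun s => ((∫ x in cube, (ee (-k) x).re * f s x : ℝ) : ℂ)
      + ((∫ x in cube, (ee (-k) x).im * f s x : ℝ) : ℂ) * Complex.I)
      (((∫ x in cube, (ee (-k) x).re * dt f t x : ℝ) : ℂ)
      + ((∫ x in cube, (ee (-k) x).im * dt f t x : ℝ) : ℂ) * Complex.I) t :=
    k1.ofReal_comp.add (k2.ofReal_comp.mul_const _)
  rw [← fr_eq_re_im (contDiff_dt hf ht).continuous] at h3
  refine h3.congr_of_eventuallyEq ?_
  filter_upwards [Ioo_mem_nhds ht.1 ht.2] with s hs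
  exact fr_eq_re_im (contDiff_slice hf ⟨hs.1.le, hs.2⟩).continuous k

lemma continuousOn_fr (hf : ContDiffOn ℝ ∞ (fun z : ℝ × V => f z.1 z.2) (Ico 0 T ×ˢ univ))
    (k : K3) : ContinuousOn (fun s => fr (f s) k) (Ico 0 T) := by
  have hc := ee_continuous (-k)
  have key : ∀ c : V → ℝ, Continuous c → ContinuousOn (fun s => ∫ x in cube, c x * f s x)
      (Ico 0 T) := by
    intro c hc
    exact continuousOn_int (F := fun s x => c x * f s x)
      ((hc.comp continuous_snd).continuousOn.mul hf.continuousOn)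
  have k1 := key (fun x => (ee (-k) x).re) (Complex.continuous_re.comp hc)
  have k2 := key (fun x => (ee (-k) x).im) (Complex.continuous_im.comp hc)
  have h3 : ContinuousOn (fun s => ((∫ x in cube, (ee (-k) x).re * f s x : ℝ) : ℂ)
      + ((∫ x in cube, (ee (-k) x).im * f s x : ℝ) : ℂ) * Complex.I) (Ico 0 T) :=
    (Complex.continuous_ofReal.comp_continuousOn k1).add
      ((Complex.continuous_ofReal.comp_continuousOn k2).mul continuousOn_const)
  refine h3.congr fun s hs => ?_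
  exact fr_eq_re_im (contDiff_slice hf hs).continuous k

lemma norm_fr_le_sup {g : V → ℝ} {C : ℝ} (hC0 : 0 ≤ C) (hC : ∀ x ∈ cube, |g x| ≤ C) (k : K3) :
    ‖fr g k‖ ≤ C := by
  unfold fr fc
  refine (norm_setIntegral_le_of_norm_le_const (C := C) ?_ fun x hx => ?_).trans ?_
  · rw [volume_cube]; exact ENNReal.one_lt_top
  · rw [norm_mul, norm_ee, one_mul, Complex.norm_real]
    exact hC x hx
  · rw [measureReal_def, volume_cube]; simp

lemma iter_smooth (hf : ContDiffOn ℝ ∞ (fun z : ℝ × V => f z.1 z.2) (Ico 0 T ×ˢ univ))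
    (j : Fin 3) (n : ℕ) :
    ContDiffOn ℝ ∞ (fun z : ℝ × V => (pd j)^[n] (f z.1) z.2) (Ico 0 T ×ˢ univ) := by
  induction n with
  | zero => exact hf
  | succ n ih =>
    simp only [Function.iterate_succ_apply']
    exact contDiffOn_pd (f := fun s => (pd j)^[n] (f s)) ih j

lemma unif_bound (hf : ContDiffOn ℝ ∞ (fun z : ℝ × V => f z.1 z.2) (Ico 0 T ×ˢ univ))
    {b : ℝ} (hb : b < T) : ∃ C, 0 ≤ C ∧ ∀ t ∈ Icc 0 b, ∀ k, ‖fr (f t) k‖ ≤ C := by
  have hK : IsCompact (Icc 0 b ×ˢ cube) := isCompact_Icc.prod isCompact_Icc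
  have hsub : Icc 0 b ×ˢ cube ⊆ Ico 0 T ×ˢ (univ : Set V) :=
    prod_mono (fun s hs => ⟨hs.1, hs.2.trans_lt hb⟩) (subset_univ _)
  obtain ⟨C, hC⟩ := hK.exists_bound_of_continuousOn (hf.continuousOn.mono hsub)
  refine ⟨max C 0, le_max_right _ _, fun t ht k => norm_fr_le_sup (le_max_right _ _)
    (fun x hx => ?_) k⟩
  exact (hC (t, x) ⟨ht, hx⟩).trans (le_max_left _ _)

/-- uniform decay of the coefficients on compact time intervals -/
lemma unif_decay (hf : ContDiffOn ℝ ∞ (fun z : ℝ × V => f z.1 z.2) (Ico 0 T ×ˢ univ))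
    (hper : ∀ t ∈ Ico 0 T, Per (f t)) {b : ℝ} (hb : b < T) (n : ℕ) :
    ∃ C, 0 ≤ C ∧ ∀ t ∈ Icc 0 b, ∀ k, (N k : ℝ) ^ n * ‖fr (f t) k‖ ≤ C := by
  choose C hC0 hC using fun j => unif_bound (f := fun s => (pd j)^[n] (f s)) (iter_smooth hf j n) hb
  refine ⟨∑ j, C j, Finset.sum_nonneg fun j _ => hC0 j, fun t ht k => ?_⟩
  have hI : t ∈ Ico 0 T := ⟨ht.1, ht.2.trans_lt hb⟩
  have hsp : SP (f t) := ⟨contDiff_slice hf hI, hper t hI⟩
  have h1 : ∀ j, |(k j : ℝ)| ^ n * ‖fr (f t) k‖ ≤ C j := by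
    intro j
    refine le_trans ?_ (hC j t ht k)
    rw [fr_iter hsp, norm_mul, norm_pow]
    gcongr
    rw [norm_mul, norm_mul, norm_mul, Complex.norm_I, mul_one, Complex.norm_real,
      Real.norm_eq_abs, abs_of_pos Real.pi_pos, Complex.norm_ofNat, Complex.norm_intCast]
    have := Real.pi_gt_three
    nlinarith [abs_nonneg (k j : ℝ)]
  calc (N k : ℝ) ^ n * ‖fr (f t) k‖ ≤ (∑ j, |(k j : ℝ)| ^ n) * ‖fr (f t) k‖ := by
        gcongr
        exact N_pow_le k n
    _ = ∑ j, |(k j : ℝ)| ^ n * ‖fr (f t) k‖ := Finset.sum_mul _ _ _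
    _ ≤ _ := Finset.sum_le_sum fun j _ => h1 j

lemma unif_dt (hf : ContDiffOn ℝ ∞ (fun z : ℝ × V => f z.1 z.2) (Ico 0 T ×ˢ univ))
    {a b : ℝ} (ha : 0 < a) (hb : b < T) :
    ∃ C, 0 ≤ C ∧ ∀ t ∈ Icc a b, ∀ k, ‖fr (dt f t) k‖ ≤ C := by
  have hO : IsOpen (Ioo 0 T ×ˢ (univ : Set V)) := isOpen_Ioo.prod isOpen_univ
  have h1 : ContDiffOn ℝ 1 (fun z : ℝ × V => f z.1 z.2) (Ioo 0 T ×ˢ univ) :=
    mono_Ioo (f := f) hf (by norm_cast)
  have hd : ContinuousOn (fun z : ℝ × V =>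
      fderiv ℝ (fun z : ℝ × V => f z.1 z.2) z (1, 0)) (Ioo 0 T ×ˢ univ) :=
    (h1.continuousOn_fderiv_of_isOpen hO le_rfl).clm_apply continuousOn_const
  have hK : IsCompact (Icc a b ×ˢ cube) := isCompact_Icc.prod isCompact_Icc
  have hsub : Icc a b ×ˢ cube ⊆ Ioo 0 T ×ˢ (univ : Set V) :=
    prod_mono (fun s hs => ⟨ha.trans_le hs.1, hs.2.trans_lt hb⟩) (subset_univ _)
  obtain ⟨C, hC⟩ := hK.exists_bound_of_continuousOn (hd.mono hsub)
  refine ⟨max C 0, le_max_right _ _, fun t ht k => norm_fr_le_sup (le_max_right _ _)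
    (fun x hx => ?_) k⟩
  rw [dt_eq hf ⟨ha.trans_le ht.1, ht.2.trans_lt hb⟩]
  exact (hC (t, x) ⟨ht, hx⟩).trans (le_max_left _ _)

end general

lemma norm_co_le {v : V → V} {k : K3} {C : ℝ} (hC : 0 ≤ C)
    (h : ∀ i, ‖fr (fun x => v x i) k‖ ≤ C) : ‖co v k‖ ≤ C := by
  rw [pi_norm_le_iff_of_nonneg hC]
  exact h

lemma rapV_co {v : V → V} (hv : ∀ i, SP (fun x => v x i)) : RapV (co v) := by
  intro n
  have h1 : ∀ i, Summable fun k => 2 ^ n * ((N k : ℝ) ^ n * ‖fr (fun x => v x i) k‖) := fun i =>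
    (rap_fr (hv i) n).mul_left _
  refine Summable.of_nonneg_of_le (fun k => ?_) (fun k => ?_)
    (summable_sum (s := Finset.univ) fun i _ => h1 i)
  · have := kn_nonneg k; positivity
  · have h2 : ‖co v k‖ ≤ ∑ i, ‖fr (fun x => v x i) k‖ := by
      refine norm_co_le (by positivity) fun i => ?_
      exact Finset.single_le_sum (f := fun i => ‖fr (fun x => v x i) k‖)
        (fun _ _ => norm_nonneg _) (Finset.mem_univ i)
    have h3 := kn_le_N k
    have h4 := kn_nonneg k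
    calc kn k ^ n * ‖co v k‖ ≤ (2 * N k) ^ n * ∑ i, ‖fr (fun x => v x i) k‖ := by gcongr
      _ = _ := by
        rw [Finset.mul_sum]
        exact Finset.sum_congr rfl fun i _ => by rw [mul_pow]; ring

lemma dp_co {v : V → V} (hv : ∀ i, SP (fun x => v x i))
    (hdiv : ∀ x, ∑ i, pd i (fun y => v y i) x = 0) (k : K3) : dp (kc k) (co v k) = 0 := by
  have := fr_div hv hdiv k
  rw [Fin.sum_univ_three] at this
  exact this

/-- the gradient in terms of the coefficients -/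
lemma enstrophy_eq {v : V → V} (hv : ∀ i, SP (fun x => v x i)) :
    enstrophy v = (2 * Real.pi) ^ 2 * hn 2 (co v) := by
  have hpi := Real.pi_pos
  unfold enstrophy
  rw [← sum_grad hv]
  have hs : ∀ i m, Summable fun k => ‖D m (fr (fun x => v x i)) k‖ ^ 2 := fun i m =>
    summable_sq ((rap_fr (hv i)).D m).summable
  simp_rw [n2_sq]
  have e1 : ∑ i, ∑ m, ∑' k, ‖D m (fr (fun x => v x i)) k‖ ^ 2
      = ∑' k, ∑ i, ∑ m, ‖D m (fr (fun x => v x i)) k‖ ^ 2 := by
    rw [Summable.tsum_finsetSum fun i _ => summable_sum fun m _ => hs i m]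
    refine Finset.sum_congr rfl fun i _ => ?_
    rw [Summable.tsum_finsetSum fun m _ => hs i m]
  rw [e1]
  unfold hn
  rw [← tsum_mul_left]
  refine tsum_congr fun k => ?_
  have hD : ∀ i m, ‖D m (fr (fun x => v x i)) k‖ ^ 2
      = (2 * Real.pi) ^ 2 * ((k m : ℝ) ^ 2 * ‖co v k i‖ ^ 2) := by
    intro i m
    rw [D, norm_mul, norm_mul, norm_mul, norm_mul, Complex.norm_I, mul_one, Complex.norm_real,
      Real.norm_eq_abs, abs_of_pos hpi, Complex.norm_ofNat, Complex.norm_intCast]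
    rw [mul_pow, mul_pow, sq_abs]
    unfold co
    ring
  simp_rw [hD, ← Finset.mul_sum]
  congr 1
  simp_rw [← Finset.sum_mul]
  rw [← kn_sq, ← Finset.mul_sum]

/-- `Y² ≤ X Z` -/
lemma hn_interp {U : K3 → C3} (hU : RapV U) : hn 2 U ^ 2 ≤ hn 3 U * hn 1 U := by
  have h1 := hU.hn_summable 1
  have h2 := hU.hn_summable 2
  have h3 := hU.hn_summable 3
  have key : ∀ l : ℝ, 0 ≤ hn 3 U * (l * l) + (2 * hn 2 U) * l + hn 1 U := by
    intro l
    have e : hn 3 U * (l * l) + (2 * hn 2 U) * l + hn 1 U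
        = ∑' k, (kn k * (kn k * l + 1) ^ 2 * ∑ i, ‖U k i‖ ^ 2) := by
      have hs : HasSum (fun k => (kn k ^ 3 * ∑ i, ‖U k i‖ ^ 2) * (l * l)
          + (kn k ^ 2 * ∑ i, ‖U k i‖ ^ 2) * (2 * l) + kn k ^ 1 * ∑ i, ‖U k i‖ ^ 2)
          (hn 3 U * (l * l) + hn 2 U * (2 * l) + hn 1 U) :=
        ((h3.hasSum.mul_right _).add (h2.hasSum.mul_right _)).add h1.hasSum
      have e2 : hn 3 U * (l * l) + (2 * hn 2 U) * l + hn 1 U
        = hn 3 U * (l * l) + hn 2 U * (2 * l) + hn 1 U := by ring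
      rw [e2, ← hs.tsum_eq]
      exact tsum_congr fun k => by ring
    rw [e]
    exact tsum_nonneg fun k => by have := kn_nonneg k; positivity
  have hd := discrim_le_zero key
  unfold discrim at hd
  nlinarith

end Pool.Agent.X96.HT
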