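import Pool.Agent.X96.HT.Evo

/-!
The derivative of the norm of `H^{1/2}`.
-/

open MeasureTheory Set Filter Topology
open scoped ContDiff
open H459R3.NS

namespace Pool.Agent.X96.HT

variable {ν T : ℝ} {u : ℝ → V → V} {P : ℝ → V → ℝ}

/-- a summable majorant -/
noncomputable def mj (k : K3) : ℝ := if k = 0 then (0 : ℝ) else 1 / (N k : ℝ) ^ 4

lemma mj_nonneg (k : K3) : 0 ≤ mj k := by unfold mj; split_ifs <;> positivity

lemma le_mj {k : K3} {n : ℕ} (hn1 : 1 ≤ n) {y C : ℝ} (hy : 0 ≤ y)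
    (hb : (N k : ℝ) ^ (n + 4) * y ≤ C) : kn k ^ n * y ≤ 2 ^ n * C * mj k := by
  unfold mj
  by_cases hk : k = 0
  · subst hk
    rw [kn_zero, if_pos rfl, zero_pow (by omega)]; simp
  · rw [if_neg hk]
    have hN : 0 < (N k : ℝ) := by
      exact_mod_cast Nat.pos_of_ne_zero fun h => hk (N_eq_zero.1 h)
    have h1 := kn_le_N k
    have h2 := kn_nonneg k
    rw [mul_one_div, le_div_iff₀ (by positivity)]
    calc kn k ^ n * y * (N k : ℝ) ^ 4 ≤ (2 * N k) ^ n * y * (N k : ℝ) ^ 4 := by gcongr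
      _ = 2 ^ n * ((N k : ℝ) ^ (n + 4) * y) := by ring
      _ ≤ _ := by gcongr

lemma unif_co (h : IsSol ν T u P) {b : ℝ} (hb : b < T) (n : ℕ) :
    ∃ C, 0 ≤ C ∧ ∀ t ∈ Icc 0 b, ∀ k, (N k : ℝ) ^ n * ‖co (u t) k‖ ≤ C := by
  choose C hC0 hC using fun i => unif_decay (f := fun s y => u s y i) (h.smooth_c i)
    (fun t ht => (h.sp ht i).per) hb n
  refine ⟨∑ i, C i, Finset.sum_nonneg fun i _ => hC0 i, fun t ht k => ?_⟩
  rcases Nat.eq_zero_or_pos (N k) with h0 | h0
  · rcases Nat.eq_zero_or_pos n with hn0 | hn0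
    · subst hn0
      rw [pow_zero, one_mul]
      refine norm_co_le (Finset.sum_nonneg fun i _ => hC0 i) fun i => ?_
      have := hC i t ht k
      rw [pow_zero, one_mul] at this
      exact this.trans (Finset.single_le_sum (fun i _ => hC0 i) (Finset.mem_univ i))
    · rw [h0]
      simp only [CharP.cast_eq_zero]
      rw [zero_pow (by omega), zero_mul]
      exact Finset.sum_nonneg fun i _ => hC0 i
  · have hN : 0 < (N k : ℝ) := by exact_mod_cast h0
    have h1 : ‖co (u t) k‖ ≤ (∑ i, C i) / (N k : ℝ) ^ n := by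
      refine norm_co_le (div_nonneg (Finset.sum_nonneg fun i _ => hC0 i) (by positivity))
        fun i => ?_
      rw [le_div_iff₀ (by positivity), mul_comm]
      exact (hC i t ht k).trans (Finset.single_le_sum (fun i _ => hC0 i) (Finset.mem_univ i))
    rw [le_div_iff₀ (by positivity)] at h1
    linarith

lemma unif_hn (h : IsSol ν T u P) {b : ℝ} (hb : b < T) {n : ℕ} (hn1 : 1 ≤ n) :
    ∃ C, 0 ≤ C ∧ ∀ t ∈ Icc 0 b, ∀ k, kn k ^ n * ∑ i, ‖co (u t) k i‖ ^ 2 ≤ C * mj k := by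
  obtain ⟨C0, hC00, hC0⟩ := unif_co h hb 0
  obtain ⟨C1, hC10, hC1⟩ := unif_co h hb (n + 4)
  refine ⟨3 * C0 * (2 ^ n * C1), by positivity, fun t ht k => ?_⟩
  have h1 := sum_sq_le (co (u t) k)
  have h2 := hC0 t ht k
  rw [pow_zero, one_mul] at h2
  have h3 := le_mj hn1 (norm_nonneg _) (hC1 t ht k)
  have h4 := kn_nonneg k
  have h5 := mj_nonneg k
  calc kn k ^ n * ∑ i, ‖co (u t) k i‖ ^ 2 ≤ kn k ^ n * (3 * ‖co (u t) k‖ ^ 2) := by gcongr
    _ = 3 * ‖co (u t) k‖ * (kn k ^ n * ‖co (u t) k‖) := by ring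
    _ ≤ 3 * C0 * (2 ^ n * C1 * mj k) := by gcongr
    _ = _ := by ring

lemma cont_hn (h : IsSol ν T u P) {n : ℕ} (hn1 : 1 ≤ n) :
    ContinuousOn (fun t => hn n (co (u t))) (Ico 0 T) := by
  intro t ht
  obtain ⟨b, hb1, hb2⟩ := exists_between ht.2
  obtain ⟨C, hC0, hC⟩ := unif_hn h hb2 hn1
  have h1 : ContinuousOn (fun t => hn n (co (u t))) (Icc 0 b) := by
    unfold hn
    refine continuousOn_tsum (u := fun k => C * mj k) (fun k => ?_)
      (summable_N4.mul_left C) (fun k s hs => ?_)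
    · refine continuousOn_const.mul (continuousOn_finsetSum _ fun i _ => ?_)
      exact ((continuousOn_fr (f := fun s y => u s y i) (h.smooth_c i) k).mono
        fun s hs => ⟨hs.1, hs.2.trans_lt hb2⟩).norm.pow 2
    · rw [Real.norm_eq_abs, abs_of_nonneg (mul_nonneg (pow_nonneg (kn_nonneg _) _)
        (by positivity))]
      exact hC s hs k
  have h2 : ContinuousWithinAt (fun t => hn n (co (u t))) (Icc 0 b) t := h1 t ⟨ht.1, hb1.le⟩
  refine h2.mono_of_mem_nhdsWithin ?_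
  have h3 : Iio b ∈ 𝓝 t := Iio_mem_nhds hb1
  filter_upwards [nhdsWithin_le_nhds h3, self_mem_nhdsWithin] with s hs1 hs2
  exact ⟨hs2.1, hs1.le⟩

/-- coefficients of the time derivative -/
noncomputable def cod (u : ℝ → V → V) (t : ℝ) (k : K3) : C3 := fun i =>
  fr (dt (fun s y => u s y i) t) k

lemma hasDerivAt_sq {c : ℝ → ℂ} {c' : ℂ} {t : ℝ} (h : HasDerivAt c c' t) :
    HasDerivAt (fun s => ‖c s‖ ^ 2) (2 * ((starRingEnd ℂ) (c t) * c').re) t := by
  have h1 : HasDerivAt (fun s => (c s).re) c'.re t :=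
    (Complex.reCLM.hasFDerivAt (x := c t)).comp_hasDerivAt t h
  have h2 : HasDerivAt (fun s => (c s).im) c'.im t :=
    (Complex.imCLM.hasFDerivAt (x := c t)).comp_hasDerivAt t h
  have h3 := (h1.pow 2).add (h2.pow 2)
  have e : (fun s => ‖c s‖ ^ 2) = fun s => (c s).re ^ 2 + (c s).im ^ 2 := by
    funext s
    rw [← Complex.normSq_eq_norm_sq, Complex.normSq_apply]; ring
  rw [e]
  refine h3.congr_deriv ?_
  simp only [Complex.mul_re, Complex.conj_re, Complex.conj_im]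
  push_cast
  ring

/-- derivative of `|k| |U(k)|²` -/
noncomputable def zt (u : ℝ → V → V) (t : ℝ) (k : K3) : ℝ :=
  kn k ^ 1 * ∑ i, 2 * ((starRingEnd ℂ) (co (u t) k i) * cod u t k i).re

lemma hasDerivAt_Z (h : IsSol ν T u P) {t : ℝ} (ht : t ∈ Ioo 0 T) :
    HasDerivAt (fun s => hn 1 (co (u s))) (∑' k, zt u t k) t := by
  obtain ⟨a, ha1, ha2⟩ := exists_between ht.1
  obtain ⟨b, hb1, hb2⟩ := exists_between ht.2
  obtain ⟨C1, hC10, hC1⟩ := unif_co h hb2 (1 + 4)
  choose C2 hC20 hC2 using fun i => unif_dt (f := fun s y => u s y i) (h.smooth_c i) ha1 hb2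
  unfold hn
  have hsum : Summable fun k => (2 * ∑ i, C2 i) * (2 ^ 1 * C1 * mj k) :=
    (summable_N4.mul_left (2 ^ 1 * C1)).mul_left _
  refine hasDerivAt_tsum_of_isPreconnected (𝕜 := ℝ)
    (g := fun (k : K3) (s : ℝ) => kn k ^ 1 * ∑ i, ‖co (u s) k i‖ ^ 2)
    (g' := fun k s => zt u s k)
    (u := fun k => (2 * ∑ i, C2 i) * (2 ^ 1 * C1 * mj k))
    (t := Ioo a b) (y₀ := t) (y := t) hsum isOpen_Ioo isPreconnected_Ioo
    (fun k s hs => ?_) (fun k s hs => ?_) ⟨ha2, hb1⟩ ?_ ⟨ha2, hb1⟩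
  · have hs' : s ∈ Ioo 0 T := ⟨ha1.trans hs.1, hs.2.trans hb2⟩
    refine HasDerivAt.const_mul _ (HasDerivAt.fun_sum fun i _ => ?_)
    exact hasDerivAt_sq (hasDerivAt_fr (f := fun s y => u s y i) (h.smooth_c i) hs' k)
  · have hsb : s ∈ Icc 0 b := ⟨(ha1.trans hs.1).le, hs.2.le⟩
    have hsab : s ∈ Icc a b := ⟨hs.1.le, hs.2.le⟩
    have h4 := kn_nonneg k
    have h5 := mj_nonneg k
    have h3 := le_mj le_rfl (norm_nonneg _) (hC1 s hsb k)
    have e0 : zt u s k = kn k ^ 1 * ∑ i, 2 * ((starRingEnd ℂ) (co (u s) k i) * cod u s k i).re :=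
      rfl
    rw [Real.norm_eq_abs, e0, abs_mul, abs_of_nonneg (pow_nonneg h4 1)]
    have h6 : |∑ i, 2 * ((starRingEnd ℂ) (co (u s) k i) * cod u s k i).re|
        ≤ ∑ i, 2 * (‖co (u s) k‖ * C2 i) := by
      refine (Finset.abs_sum_le_sum_abs _ _).trans (Finset.sum_le_sum fun i _ => ?_)
      rw [abs_mul, abs_of_nonneg (by norm_num : (0 : ℝ) ≤ 2)]
      refine mul_le_mul_of_nonneg_left ?_ (by norm_num)
      refine (Complex.abs_re_le_norm _).trans ?_
      rw [norm_mul, RCLike.norm_conj]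
      exact mul_le_mul (norm_le_pi_norm _ i) (hC2 i s hsab k) (norm_nonneg _) (norm_nonneg _)
    calc kn k ^ 1 * |∑ i, 2 * ((starRingEnd ℂ) (co (u s) k i) * cod u s k i).re|
        ≤ kn k ^ 1 * ∑ i, 2 * (‖co (u s) k‖ * C2 i) := by gcongr
      _ = (2 * ∑ i, C2 i) * (kn k ^ 1 * ‖co (u s) k‖) := by
        rw [← Finset.mul_sum, ← Finset.mul_sum]; ring
      _ ≤ _ := by
        have : 0 ≤ ∑ i, C2 i := Finset.sum_nonneg fun i _ => hC20 i
        gcongr
  · exact (rapV_co (fun i => h.sp ⟨ht.1.le, ht.2⟩ i)).hn_summable 1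

/-! ### The value of the derivative -/

lemma fr_neg_conj (f : V → ℝ) (k : K3) : fr f (-k) = (starRingEnd ℂ) (fr f k) := by
  unfold fr fc
  rw [← integral_conj]
  congr 1
  funext x
  rw [map_mul, Complex.conj_ofReal, ← ee_neg, neg_neg]

lemma fr_add {f g : V → ℝ} (hf : Continuous f) (hg : Continuous g) (k : K3) :
    fr (fun x => f x + g x) k = fr f k + fr g k := by
  unfold fr fc
  have hc := ee_continuous (-k)
  have i1 : IntegrableOn (fun x => ee (-k) x * (f x : ℂ)) cube :=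
    integrableOn_cube (hc.mul (Complex.continuous_ofReal.comp hf))
  have i2 : IntegrableOn (fun x => ee (-k) x * (g x : ℂ)) cube :=
    integrableOn_cube (hc.mul (Complex.continuous_ofReal.comp hg))
  have e := integral_add (μ := volume.restrict cube) i1 i2
  refine Eq.trans ?_ e
  congr 1
  funext x
  push_cast; ring

lemma fr_smul {f : V → ℝ} (c : ℝ) (k : K3) :
    fr (fun x => c * f x) k = c * fr f k := by
  unfold fr fc
  rw [← integral_const_mul]
  congr 1
  funext x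
  push_cast; ring

lemma fr_lap {f : V → ℝ} (hf : SP f) (k : K3) :
    fr (lap f) k = -((2 * Real.pi) ^ 2 * kn k ^ 2 : ℝ) * fr f k := by
  have e : (lap f) = fun x => ∑ j, pd j (pd j f) x := rfl
  rw [e, fr_sum (fun j _ => (hf.pd j).pd j)]
  simp_rw [fr_pd (hf.pd _), fr_pd hf, D]
  rw [Fin.sum_univ_three]
  have h1 : ((kn k : ℂ)) ^ 2 = (k 0 : ℂ) ^ 2 + (k 1 : ℂ) ^ 2 + (k 2 : ℂ) ^ 2 := by
    rw [← kc_sq]; unfold dp kc; ring
  push_cast
  rw [h1]
  have hI := Complex.I_sq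
  linear_combination ((2 * Real.pi) ^ 2 * ((k 0 : ℂ) ^ 2 + (k 1 : ℂ) ^ 2 + (k 2 : ℂ) ^ 2)
    * fr f k) * hI

/-- the convection term -/
lemma hasSum_conv {v : V → V} (hv : ∀ i, SP (fun x => v x i)) (i : Fin 3) (k : K3) :
    HasSum (fun l => 2 * Real.pi * Complex.I * (dp (kc (-k - l)) (co v l) * co v (-k - l) i))
      (fr (conv (fun i y => v y i) i) (-k)) := by
  have e : fr (conv (fun i y => v y i) i) (-k)
      = ∑ j, ∫ x in cube, ee k x * (S (fr (fun y => v y j)) x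
        * S (fr (pd j (fun y => v y i))) x) := by
    have h1 : conv (fun i y => v y i) i = fun x => ∑ j, v x j * pd j (fun y => v y i) x := rfl
    rw [h1, fr_sum (fun j _ => (hv j).mul ((hv i).pd j))]
    refine Finset.sum_congr rfl fun j _ => ?_
    have e3 : ∀ x, ee k x * (S (fr (fun y => v y j)) x * S (fr (pd j (fun y => v y i))) x)
        = ee (-(-k)) x * ((v x j * pd j (fun y => v y i) x : ℝ) : ℂ) := by
      intro x
      rw [S_fr (hv j) x, S_fr ((hv i).pd j) x, neg_neg]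
      push_cast
      ring
    simp_rw [e3]
    rfl
  rw [e]
  have h2 : HasSum (fun l => ∑ j, fr (fun y => v y j) l * fr (pd j (fun y => v y i)) (-k - l))
      (∑ j, ∫ x in cube, ee k x * (S (fr (fun y => v y j)) x
        * S (fr (pd j (fun y => v y i))) x)) :=
    hasSum_sum fun j _ => integral_ee_S_S k (rap_fr (hv j)).summable
      (rap_fr ((hv i).pd j)).summable
  have e5 : (fun l => 2 * Real.pi * Complex.I * (dp (kc (-k - l)) (co v l) * co v (-k - l) i))
      = fun l => ∑ j, fr (fun y => v y j) l * fr (pd j (fun y => v y i)) (-k - l) := ?_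
  · rw [e5]; exact h2
  funext l
  rw [Fin.sum_univ_three]
  simp_rw [fr_pd (hv i), D]
  unfold dp kc co
  simp only [Pi.sub_apply, Pi.neg_apply]
  push_cast
  ring

end Pool.Agent.X96.HT
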