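import Pool.Agent.X96.HT.Crit2
import Pool.Agent.X96.HT.Fin

/-!
The criterion with the exempt triads.
-/

open MeasureTheory Set Filter Topology
open scoped ContDiff
open H459R3.NS

namespace Pool.Agent.X96.HT

lemma MeetsStrong.mono {K θ₁ θ₂ : ℝ} {X Y : Set (K3 × Bool)} (h : MeetsStrong K θ₁ θ₂ X)
    (hXY : X ⊆ Y) : MeetsStrong K θ₁ θ₂ Y := by
  intro a b c s h1 h2 h3 h4
  rcases h a b c s h1 h2 h3 h4 with h5 | h5 | h5
  · exact Or.inl (hXY h5)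
  · exact Or.inr (Or.inl (hXY h5))
  · exact Or.inr (Or.inr (hXY h5))

/-- the source is at most of this form -/
lemma src_le {ν E K θ₁ θ₂ C : ℝ} (hν : 0 < ν) (hE : 0 ≤ E)
    (hθ₁ : 0 ≤ θ₁) (hθ₁' : θ₁ < 4 / 5) (hθ₂ : 0 ≤ θ₂) (hθ₂' : θ₂ < 6 / 7)
    (hC1 : 40000 * (10 ^ 4 * (1 + ck K θ₁ 1 1)) ^ (r1 θ₁ + 1)
      + 40000 * (10 ^ 4 * (1 + ck K θ₂ 2 0)) ^ (r2 θ₂ + 1) ≤ C)
    (hC2 : r1 θ₁ + 1 ≤ C) (hC3 : r2 θ₂ + 1 ≤ C) :
    src ν E K θ₁ θ₂ ≤ C * (ν * E * (1 + E / ν ^ 2) ^ C) := by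
  have hx : 1 ≤ 1 + E / ν ^ 2 := by
    have : 0 ≤ E / ν ^ 2 := by positivity
    linarith
  have c1 := ck_nonneg K θ₁ 1 1
  have c2 := ck_nonneg K θ₂ 2 0
  have a1 : (1 + E / ν ^ 2) ^ (r1 θ₁ + 1) ≤ (1 + E / ν ^ 2) ^ C :=
    Real.rpow_le_rpow_of_exponent_le hx hC2
  have a2 : (1 + E / ν ^ 2) ^ (r2 θ₂ + 1) ≤ (1 + E / ν ^ 2) ^ C :=
    Real.rpow_le_rpow_of_exponent_le hx hC3
  have hb : 0 ≤ ν * E * (1 + E / ν ^ 2) ^ C := by positivity
  unfold src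
  calc (40000 * (10 ^ 4 * (1 + ck K θ₁ 1 1)) ^ (r1 θ₁ + 1))
        * (ν * E * (1 + E / ν ^ 2) ^ (r1 θ₁ + 1))
      + (40000 * (10 ^ 4 * (1 + ck K θ₂ 2 0)) ^ (r2 θ₂ + 1))
        * (ν * E * (1 + E / ν ^ 2) ^ (r2 θ₂ + 1))
      ≤ (40000 * (10 ^ 4 * (1 + ck K θ₁ 1 1)) ^ (r1 θ₁ + 1))
        * (ν * E * (1 + E / ν ^ 2) ^ C)
      + (40000 * (10 ^ 4 * (1 + ck K θ₂ 2 0)) ^ (r2 θ₂ + 1))
        * (ν * E * (1 + E / ν ^ 2) ^ C) := by gcongr
    _ = (40000 * (10 ^ 4 * (1 + ck K θ₁ 1 1)) ^ (r1 θ₁ + 1)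
      + 40000 * (10 ^ 4 * (1 + ck K θ₂ 2 0)) ^ (r2 θ₂ + 1))
        * (ν * E * (1 + E / ν ^ 2) ^ C) := by ring
    _ ≤ _ := by gcongr

theorem crit2 {s K θ₁ θ₂ : ℝ} (hs : s ∈ Ioo (1 / 2 : ℝ) (3 / 2)) (hK : 0 ≤ K)
    (hθ₁ : θ₁ ∈ Ico (0 : ℝ) (4 / 5)) (hθ₂ : θ₂ ∈ Ico (0 : ℝ) (6 / 7)) : ∃ C : ℝ, 0 ≤ C ∧
    ∀ (ν T A : ℝ) (u : ℝ → V → V) (P : ℝ → V → ℝ) (g h : ℝ → ℝ), 0 < ν → IsSol ν T u P → 0 ≤ A →
      (∀ t ∈ Ioo 0 T, 0 ≤ g t ∧ 0 ≤ h t) →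
      IntegrableOn (fun t => g t ^ 2) (Ioo 0 T) →
      IntegrableOn (fun t => h t ^ (2 / (s - 1 / 2))) (Ioo 0 T) →
      (∀ t ∈ Ioo 0 T, ∃ (Q : Set K3) (R E W : Set (K3 × Bool)), Planar A Q ∧
        MeetsStrong K θ₁ θ₂ ({m | m.1 ∈ Q} ∪ R ∪ E ∪ W) ∧
        modeSum R 0 1 (u t) ≤ g t ∧
        modeSum E (2 * s) 2 (u t) ≤ h t ^ 2 ∧
        modeSum W 1 2 (u t) ≤ (ν / 60000) ^ 2) →
      (∀ t ∈ Ico 0 T, half (u t)
        ≤ (half (u 0) + C * (ν * energy (u 0) * (1 + energy (u 0) / ν ^ 2) ^ C) * t)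
        * Real.exp (C * (A * energy (u 0) / ν ^ 2
        + (∫ r in Ioo 0 T, g r ^ 2) / ν
        + (∫ r in Ioo 0 T, h r ^ (2 / (s - 1 / 2))) / ν ^ (2 / (s - 1 / 2) - 1)))) ∧
      ∃ M, ∀ t ∈ Ico 0 T, ∀ x i, |u t x i| ≤ M := by
  set b : ℝ := 2 * s with hb
  have hb1 : 1 < b := by rw [hb]; linarith [hs.1]
  have hb3 : b < 3 := by rw [hb]; linarith [hs.2]
  set q : ℝ := 2 / (s - 1 / 2) with hq
  have hs2 : 0 < s - 1 / 2 := by linarith [hs.1]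
  have hqb : q = 4 / (b - 1) := by
    rw [hq, hb]
    rw [div_eq_div_iff hs2.ne' (by linarith)]
    ring
  have hbp : 0 < b - 1 := by linarith
  have hq2 : q = 2 + 2 * ((3 - b) / (b - 1)) := by rw [hqb]; field_simp; ring
  have hr0 : 0 < (3 - b) / (b - 1) := div_pos (by linarith) hbp
  have hmin : 0 < min 1 (3 - b) := lt_min one_pos (by linarith)
  set C1 : ℝ := 52 / min 1 (3 - b) with hC1
  have hC10 : 0 ≤ C1 := by positivity
  set C2 : ℝ := C1 * 60000 ^ (q - 2) with hC2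
  have hC20 : 0 ≤ C2 := by positivity
  have c1 := ck_nonneg K θ₁ 1 1
  have c2 := ck_nonneg K θ₂ 2 0
  set C3 : ℝ := 40000 * (10 ^ 4 * (1 + ck K θ₁ 1 1)) ^ (r1 θ₁ + 1)
      + 40000 * (10 ^ 4 * (1 + ck K θ₂ 2 0)) ^ (r2 θ₂ + 1) with hC3
  have hC30 : 0 ≤ C3 := by positivity
  have hr1 : 0 ≤ r1 θ₁ := div_nonneg (by linarith [hθ₁.1]) (by linarith [hθ₁.2])
  have hr2 : 0 ≤ r2 θ₂ := div_nonneg (by linarith [hθ₂.1]) (by linarith [hθ₂.2])
  set C : ℝ := 10 ^ 6 * (2 + 2 * C2) + C3 + (r1 θ₁ + 1) + (r2 θ₂ + 1) with hC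
  have hCge : 10 ^ 6 * (2 + 2 * C2) ≤ C := by linarith
  refine ⟨C, by positivity, ?_⟩
  intro ν T A u P g h hν hsol hA hgh hgi hhi hcond
  set δ : ℝ := ν / 60000 with hδ
  have hδ0 : 0 < δ := by positivity
  set f2 : ℝ → ℝ := fun t => C2 / ν ^ (q - 2) * h t ^ q with hf2
  have hfeq : ∀ t ∈ Ioo 0 T, C1 * (h t ^ 2 * ((h t / δ) ^ 2) ^ ((3 - b) / (b - 1))) = f2 t := by
    intro t ht
    have hh := (hgh t ht).2
    have e1 : ((h t / δ) ^ 2) ^ ((3 - b) / (b - 1)) = (h t / δ) ^ (q - 2) := by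
      rw [← Real.rpow_natCast (h t / δ) 2, ← Real.rpow_mul (by positivity)]
      congr 1
      rw [hq2]; push_cast; ring
    have e2 : (h t / δ) ^ (q - 2) = h t ^ (q - 2) * (60000 ^ (q - 2) / ν ^ (q - 2)) := by
      rw [hδ, Real.div_rpow hh (by positivity), Real.div_rpow hν.le (by norm_num)]
      have h1 : (0 : ℝ) < 60000 ^ (q - 2) := by positivity
      have h2 : 0 < ν ^ (q - 2) := Real.rpow_pos_of_pos hν _
      field_simp
    have hq20 : 0 < q - 2 := by rw [hq2]; linarith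
    have e3 : h t ^ q = h t ^ 2 * h t ^ (q - 2) := by
      rcases hh.eq_or_lt with h0 | h0
      · rw [← h0, Real.zero_rpow (by linarith), Real.zero_rpow hq20.ne']; simp
      · rw [← Real.rpow_natCast (h t) 2, ← Real.rpow_add h0]
        congr 1
        push_cast; ring
    simp only [hf2]
    rw [e1, e2, e3, hC2]
    ring
  have hf20 : ∀ t ∈ Ioo 0 T, 0 ≤ f2 t := by
    intro t ht
    have hh := (hgh t ht).2
    simp only [hf2]
    positivity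
  set G : ℝ → ℝ := fun t => Real.sqrt (2 * g t ^ 2 + 2 * f2 t) with hG
  have hG0 : ∀ t, 0 ≤ G t := fun t => Real.sqrt_nonneg _
  have hG2 : ∀ t ∈ Ioo 0 T, G t ^ 2 = 2 * g t ^ 2 + 2 * f2 t := by
    intro t ht
    have := hf20 t ht
    exact Real.sq_sqrt (by positivity)
  have hfi : IntegrableOn f2 (Ioo 0 T) := hhi.const_mul _
  have hGi0 : IntegrableOn (fun t => 2 * g t ^ 2 + 2 * f2 t) (Ioo 0 T) :=
    (hgi.const_mul 2).add (hfi.const_mul 2)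
  have hGi : IntegrableOn (fun t => G t ^ 2) (Ioo 0 T) :=
    hGi0.congr_fun (fun t ht => (hG2 t ht).symm) measurableSet_Ioo
  have hCond : ∀ t ∈ Ioo 0 T, Cond2 ν A (G t) K θ₁ θ₂ (co (u t)) := by
    intro t ht
    have hI : t ∈ Ico 0 T := ⟨ht.1.le, ht.2⟩
    have hU := rapV_co (hsol.sp hI)
    obtain ⟨Q, R, E, W, hQ, hM, hR, hE, hW⟩ := hcond t ht
    unfold modeSum at hR hE hW
    simp only [Real.rpow_zero, one_mul, pow_one] at hR
    simp only [Real.rpow_one] at hW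
    obtain ⟨E1, E2, hE12, h1, h2⟩ := split_modes hU hb1 hb3 (hgh t ht).2 hδ0 E hE
    rw [← hC1, hfeq t ht] at h1
    have hadd1 : ∀ (X Y : Set (K3 × Bool)) (F : K3 × Bool → ℝ), (∀ m, 0 ≤ F m) →
        Summable (X.indicator F) → Summable (Y.indicator F) →
        ∑' m, (X ∪ Y).indicator F m ≤ ∑' m, X.indicator F m + ∑' m, Y.indicator F m := by
      classical
      intro X Y F hF hX hY
      rw [← hX.tsum_add hY]
      have hle : ∀ m, (X ∪ Y).indicator F m ≤ X.indicator F m + Y.indicator F m := by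
        intro m
        simp only [Set.indicator_apply, mem_union]
        have := hF m
        split_ifs <;> first | linarith | (exfalso; tauto)
      refine Summable.tsum_le_tsum hle (Summable.of_nonneg_of_le (fun m => ?_) hle (hX.add hY))
        (hX.add hY)
      exact Set.indicator_nonneg (fun m _ => hF m) _
    refine ⟨Q, R ∪ E1, W ∪ E2, hQ, ?_, ?_, ?_⟩
    · refine hM.mono ?_
      rintro m (((hm | hm) | hm) | hm)
      · exact Or.inl (Or.inl hm)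
      · exact Or.inl (Or.inr (Or.inl hm))
      · rcases hE12 hm with h5 | h5
        · exact Or.inl (Or.inr (Or.inr h5))
        · exact Or.inr (Or.inr h5)
      · exact Or.inr (Or.inl hm)
    · refine (hadd1 R E1 _ (fun m => norm_nonneg _) (par_le_all hU R) (par_le_all hU E1)).trans ?_
      refine (add_le_add hR h1).trans ?_
      have h3 := (hgh t ht).1
      have h4 := hf20 t ht
      refine Real.le_sqrt_of_sq_le ?_
      have h5 := Real.sq_sqrt h4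
      nlinarith [sq_nonneg (g t - Real.sqrt (f2 t))]
    · have s1 := summable_ind hU W 1
      have s2 := summable_ind hU E2 1
      simp only [pow_one] at s1 s2
      refine (hadd1 W E2 _ (fun m => mul_nonneg (kn_nonneg _) (sq_nonneg _)) s1 s2).trans ?_
      refine (add_le_add hW h2).trans ?_
      rw [hδ]
      have : (ν / 30000) ^ 2 = 4 * (ν / 60000) ^ 2 := by ring
      rw [this]
      have : 0 ≤ (ν / 60000) ^ 2 := sq_nonneg _
      linarith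
  obtain ⟨h1, K', hK'⟩ := half_bound2 hsol hν hA hK hθ₁.1 hθ₁.2 hθ₂.1 hθ₂.2
    (fun t _ => hG0 t) hGi hCond
  have hE0 := energy_nonneg (u 0)
  refine ⟨fun t ht => ?_, bounded_of_enstrophy_sq hsol hν hK'⟩
  rw [half_eq, half_eq]
  refine (h1 t ht).trans ?_
  have h0 := hn_nonneg 1 (co (u 0))
  have hsrc : src ν (energy (u 0)) K θ₁ θ₂
      ≤ C * (ν * energy (u 0) * (1 + energy (u 0) / ν ^ 2) ^ C) :=
    src_le hν hE0 hθ₁.1 hθ₁.2 hθ₂.1 hθ₂.2 (by rw [← hC3]; linarith [hC20])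
      (by linarith [hC20]) (by linarith [hC20])
  have ht0 := ht.1
  have hsrc0 : 0 ≤ C * (ν * energy (u 0) * (1 + energy (u 0) / ν ^ 2) ^ C) := by
    have : 0 ≤ C := by positivity
    positivity
  refine mul_le_mul (by gcongr) (Real.exp_le_exp.2 ?_) (Real.exp_pos _).le (by positivity)
  have e1 : ∫ r in Ioo 0 T, G r ^ 2 = 2 * (∫ r in Ioo 0 T, g r ^ 2)
      + 2 * (C2 / ν ^ (q - 2) * ∫ r in Ioo 0 T, h r ^ q) := by
    rw [setIntegral_congr_fun measurableSet_Ioo hG2,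
      integral_add (hgi.const_mul 2) (hfi.const_mul 2), integral_const_mul, integral_const_mul]
    simp only [hf2]
    rw [integral_const_mul]
  rw [e1]
  have hgI : 0 ≤ ∫ r in Ioo 0 T, g r ^ 2 := setIntegral_nonneg measurableSet_Ioo
    fun r _ => sq_nonneg _
  have hhI : 0 ≤ ∫ r in Ioo 0 T, h r ^ q := setIntegral_nonneg measurableSet_Ioo
    fun r hr => Real.rpow_nonneg (hgh r hr).2 _
  have e2 : (2 * (∫ r in Ioo 0 T, g r ^ 2) + 2 * (C2 / ν ^ (q - 2) * ∫ r in Ioo 0 T, h r ^ q)) / ν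
      = 2 * ((∫ r in Ioo 0 T, g r ^ 2) / ν)
        + 2 * C2 * ((∫ r in Ioo 0 T, h r ^ q) / ν ^ (q - 1)) := by
    have e3 : ν ^ (q - 1) = ν ^ (q - 2) * ν := by
      rw [show q - 1 = (q - 2) + 1 by ring, Real.rpow_add hν, Real.rpow_one]
    have h2 : 0 < ν ^ (q - 2) := Real.rpow_pos_of_pos hν _
    rw [e3]
    field_simp
  rw [e2]
  have t1 : 0 ≤ A * energy (u 0) / ν ^ 2 := by positivity
  have t2 : 0 ≤ (∫ r in Ioo 0 T, g r ^ 2) / ν := by positivity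
  have t3 : 0 ≤ (∫ r in Ioo 0 T, h r ^ q) / ν ^ (q - 1) := by positivity
  have t4 : 0 ≤ A * energy (u 0) / ν ^ 2 + (∫ r in Ioo 0 T, g r ^ 2) / ν
    + (∫ r in Ioo 0 T, h r ^ q) / ν ^ (q - 1) := by positivity
  refine le_trans ?_ (mul_le_mul_of_nonneg_right hCge t4)
  nlinarith [mul_nonneg hC20 t1, mul_nonneg hC20 t2, mul_nonneg hC20 t3]

end Pool.Agent.X96.HT
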