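import Pool.Agent.X96.HT.Scale

/-!
Sums over triads with one low frequency.
-/

open MeasureTheory Set Filter Topology
open scoped ENNReal
open H459R3.NS

namespace Pool.Agent.X96.HT

lemma one_le_kn {k : K3} (hk : k ≠ 0) : 1 ≤ kn k := by
  refine le_trans ?_ (N_le_kn k)
  have : N k ≠ 0 := fun h => hk (N_eq_zero.1 h)
  exact_mod_cast Nat.pos_of_ne_zero this

/-- the constant of comparability -/
noncomputable def cc (K θ : ℝ) : ℝ := max (K + 1) (max 2 ((2 * K) ^ (1 / (1 - θ))))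

lemma cc_ge (K θ : ℝ) : 2 ≤ cc K θ := (le_max_left _ _).trans (le_max_right _ _)

lemma compar {K θ : ℝ} (hK : 0 ≤ K) (hθ0 : 0 ≤ θ) (hθ : θ < 1) {q k p : K3} (h : q + k + p = 0)
    (hk : k ≠ 0) (hp : p ≠ 0) (hq : kn q ≤ K * kn k ^ θ) :
    kn k ≤ cc K θ * kn p ∧ kn p ≤ cc K θ * kn k := by
  have hk1 := one_le_kn hk
  have hp1 := one_le_kn hp
  have h1 : kn p ≤ kn q + kn k := kn_tri h
  have h2 : kn k ≤ kn q + kn p := by
    have h' : q + p + k = 0 := by rw [← h]; abel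
    exact kn_tri h'
  have h3 : kn k ^ θ ≤ kn k := by
    calc kn k ^ θ ≤ kn k ^ (1 : ℝ) := Real.rpow_le_rpow_of_exponent_le hk1 hθ.le
      _ = kn k := Real.rpow_one _
  constructor
  · rcases le_or_gt (K * kn k ^ θ) (kn k / 2) with h4 | h4
    · calc kn k ≤ 2 * kn p := by linarith
        _ ≤ cc K θ * kn p := by gcongr; exact cc_ge K θ
    · have hk0 : 0 < kn k := by linarith
      have h5 : kn k ^ (1 - θ) ≤ 2 * K := by
        rw [Real.rpow_sub hk0, Real.rpow_one, div_le_iff₀ (Real.rpow_pos_of_pos hk0 _)]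
        linarith
      have h6 : kn k ≤ (2 * K) ^ (1 / (1 - θ)) := by
        calc kn k = (kn k ^ (1 - θ)) ^ (1 / (1 - θ)) := by
              rw [← Real.rpow_mul hk0.le, mul_one_div_cancel (by linarith), Real.rpow_one]
          _ ≤ _ := Real.rpow_le_rpow (Real.rpow_nonneg hk0.le _) h5
              (by rw [one_div]; exact inv_nonneg.2 (by linarith))
      calc kn k ≤ (2 * K) ^ (1 / (1 - θ)) * 1 := by rw [mul_one]; exact h6
        _ ≤ cc K θ * kn p := by
          gcongr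
          · have := cc_ge K θ; linarith
          · exact (le_max_right _ _).trans (le_max_right _ _)
  · calc kn p ≤ K * kn k ^ θ + kn k := by linarith
      _ ≤ K * kn k + kn k := by gcongr
      _ = (K + 1) * kn k := by ring
      _ ≤ _ := by gcongr; exact le_max_left _ _

open Classical in
lemma count_low (α : ℕ) {L : ℝ} (hL : 0 ≤ L) :
    (∑' q : K3, if q ≠ 0 ∧ kn q ≤ L then ENNReal.ofReal (kn q ^ (2 * α)) else 0)
      ≤ ENNReal.ofReal (27 * L ^ (2 * α + 3)) := by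
  rcases lt_or_ge L 1 with h1 | h1
  · have : ∀ q : K3, (if q ≠ 0 ∧ kn q ≤ L then ENNReal.ofReal (kn q ^ (2 * α)) else 0) = 0 := by
      intro q
      rw [if_neg]
      rintro ⟨hq, hl⟩
      have := one_le_kn hq
      linarith
    simp_rw [this]
    simp
  rw [ENNReal.tsum_eq_iSup_sum]
  refine iSup_le fun F => ?_
  set G := F.filter fun q => q ≠ 0 ∧ kn q ≤ L with hG
  have e1 : (∑ q ∈ F, if q ≠ 0 ∧ kn q ≤ L then ENNReal.ofReal (kn q ^ (2 * α)) else 0)
      = ∑ q ∈ G, ENNReal.ofReal (kn q ^ (2 * α)) := by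
    rw [hG, Finset.sum_filter]
  rw [e1, ← ENNReal.ofReal_sum_of_nonneg fun q _ => pow_nonneg (kn_nonneg q) _]
  refine ENNReal.ofReal_le_ofReal ?_
  have h2 : ∀ q ∈ G, kn q ^ (2 * α) ≤ L ^ (2 * α) := by
    intro q hq
    have := (Finset.mem_filter.1 hq).2.2
    have h0 := kn_nonneg q
    gcongr
  have h3 : (G.card : ℝ) ≤ 27 * L ^ 3 := by
    have h4 : G ⊆ (finite_cube ⌊L⌋₊).toFinset := by
      intro q hq
      rw [Set.Finite.mem_toFinset, mem_setOf_eq]
      exact Nat.le_floor ((N_le_kn q).trans (Finset.mem_filter.1 hq).2.2)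
    have h5 := Finset.card_le_card h4
    have h6 : (G.card : ℝ) ≤ (2 * (⌊L⌋₊ : ℝ) + 1) ^ 3 := by
      rw [← card_cube]; exact_mod_cast h5
    have h7 := Nat.floor_le hL
    calc (G.card : ℝ) ≤ (2 * (⌊L⌋₊ : ℝ) + 1) ^ 3 := h6
      _ ≤ (3 * L) ^ 3 := by gcongr; linarith
      _ = _ := by ring
  calc ∑ q ∈ G, kn q ^ (2 * α) ≤ ∑ q ∈ G, L ^ (2 * α) := Finset.sum_le_sum h2
    _ = G.card * L ^ (2 * α) := by rw [Finset.sum_const, nsmul_eq_mul]
    _ ≤ (27 * L ^ 3) * L ^ (2 * α) := by gcongr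
    _ = _ := by ring

/-- weighted norms in extended reals -/
noncomputable def er (ρ : ℝ) (x : K3 → ℝ≥0∞) : ℝ≥0∞ :=
  (∑' k, ENNReal.ofReal (kn k ^ ρ) * x k ^ 2) ^ (1 / 2 : ℝ)

/-- the constant -/
noncomputable def cl (K θ : ℝ) (α β : ℕ) (ρ : ℝ) : ℝ :=
  27 * (K * cc K θ ^ θ) ^ (2 * α + 3) * cc K θ ^ |2 * β - ρ|

lemma cl_nonneg {K θ : ℝ} (hK : 0 ≤ K) (α β : ℕ) (ρ : ℝ) : 0 ≤ cl K θ α β ρ := by
  have := cc_ge K θ
  unfold cl
  positivity

open Classical in
/-- The bound of a sum over triads with one low frequency. -/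
lemma low_bound {K θ : ℝ} (hK : 0 ≤ K) (hθ0 : 0 ≤ θ) (hθ : θ < 1) (α β : ℕ) {ρ : ℝ}
    (hρ : ρ = β + θ * (α + 3 / 2)) {c a b : K3 → ℝ≥0∞} (hc : c 0 = 0) (ha : a 0 = 0)
    (hb : b 0 = 0) :
    TE (fun q k p => if kn q ≤ K * kn k ^ θ then
      ENNReal.ofReal (kn q ^ α * kn k ^ β) * (c q * a k * b p) else 0)
      ≤ ENNReal.ofReal (Real.sqrt (cl K θ α β ρ)) * (e2 c * (er ρ a * er ρ b)) := by
  have hcc := cc_ge K θ
  have hcc0 : 0 < cc K θ := by linarith
  set φ : K3 → K3 → ℝ≥0∞ := fun q p => if q ≠ 0 ∧ p ≠ 0 ∧ -q - p ≠ 0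
    ∧ kn q ≤ K * kn (-q - p) ^ θ then
      ENNReal.ofReal (kn (-q - p) ^ (β - ρ / 2)) * b p else 0 with hφ
  have h1 : ∀ q, ∑' k, (if kn q ≤ K * kn k ^ θ then
      ENNReal.ofReal (kn q ^ α * kn k ^ β) * (c q * a k * b (-q - k)) else 0)
      ≤ c q * (ENNReal.ofReal (kn q ^ α) * (er ρ a * (∑' p, φ q p ^ 2) ^ (1 / 2 : ℝ))) := by
    intro q
    by_cases hq : q = 0
    · subst hq; simp [hc]
    have h2 : ∀ k, (if kn q ≤ K * kn k ^ θ then
        ENNReal.ofReal (kn q ^ α * kn k ^ β) * (c q * a k * b (-q - k)) else 0)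
        ≤ c q * (ENNReal.ofReal (kn q ^ α)
          * ((ENNReal.ofReal (kn k ^ (ρ / 2)) * a k) * φ q (-q - k))) := by
      intro k
      split_ifs with h
      · by_cases hk : k = 0
        · subst hk; simp [ha]
        by_cases hp : -q - k = 0
        · rw [hp]; simp [hb]
        have e : -q - (-q - k) = k := by abel
        simp only [hφ]
        rw [e, if_pos ⟨hq, hp, hk, h⟩]
        have hk0 : 0 < kn k := by linarith [one_le_kn hk]
        have e2 : ENNReal.ofReal (kn q ^ α * kn k ^ β) = ENNReal.ofReal (kn q ^ α)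
            * (ENNReal.ofReal (kn k ^ (ρ / 2)) * ENNReal.ofReal (kn k ^ (β - ρ / 2))) := by
          rw [← ENNReal.ofReal_mul (Real.rpow_nonneg hk0.le _), ← Real.rpow_add hk0,
            ENNReal.ofReal_mul (pow_nonneg (kn_nonneg q) _)]
          congr 2
          rw [show ρ / 2 + (β - ρ / 2) = ((β : ℕ) : ℝ) by ring, Real.rpow_natCast]
        rw [e2]
        exact le_of_eq (by ring)
      · exact bot_le
    refine (ENNReal.tsum_le_tsum h2).trans ?_
    rw [ENNReal.tsum_mul_left, ENNReal.tsum_mul_left]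
    gcongr
    refine (enn_cs _ _).trans (le_of_eq ?_)
    unfold er
    congr 2
    · refine tsum_congr fun k => ?_
      rw [mul_pow, ← ENNReal.ofReal_pow (Real.rpow_nonneg (kn_nonneg k) _)]
      congr 2
      rw [← Real.rpow_natCast, ← Real.rpow_mul (kn_nonneg k)]
      congr 1
      push_cast; ring
    · exact (Equiv.subLeft (-q)).tsum_eq (fun p => φ q p ^ 2)
  have h6 : ∑' q, (ENNReal.ofReal (kn q ^ α) * (er ρ a * (∑' p, φ q p ^ 2) ^ (1 / 2 : ℝ))) ^ 2
      ≤ er ρ a ^ 2 * (ENNReal.ofReal (cl K θ α β ρ)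
        * ∑' p, ENNReal.ofReal (kn p ^ ρ) * b p ^ 2) := by
    have e : ∀ q, (ENNReal.ofReal (kn q ^ α) * (er ρ a * (∑' p, φ q p ^ 2) ^ (1 / 2 : ℝ))) ^ 2
        = er ρ a ^ 2 * ∑' p, ENNReal.ofReal (kn q ^ (2 * α)) * φ q p ^ 2 := by
      intro q
      rw [mul_pow, mul_pow, enn_half_sq, ENNReal.tsum_mul_left,
        ← ENNReal.ofReal_pow (pow_nonneg (kn_nonneg q) _), ← pow_mul, mul_comm α 2]
      ring
    simp_rw [e]
    rw [ENNReal.tsum_mul_left]
    gcongr
    rw [ENNReal.tsum_comm, ← ENNReal.tsum_mul_left]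
    refine ENNReal.tsum_le_tsum fun p => ?_
    by_cases hp : p = 0
    · have : ∀ q, ENNReal.ofReal (kn q ^ (2 * α)) * φ q p ^ 2 = 0 := by
        intro q
        simp only [hφ]
        rw [if_neg (fun h => h.2.1 hp)]; simp
      simp_rw [this]; simp
    have hp1 := one_le_kn hp
    have hp0 : 0 < kn p := by linarith
    set L : ℝ := K * cc K θ ^ θ * kn p ^ θ with hL
    have hL0 : 0 ≤ L := by positivity
    have e3 : ∀ q, ENNReal.ofReal (kn q ^ (2 * α)) * φ q p ^ 2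
        ≤ (ENNReal.ofReal (cc K θ ^ |2 * β - ρ| * kn p ^ (2 * β - ρ)) * b p ^ 2)
          * (if q ≠ 0 ∧ kn q ≤ L then ENNReal.ofReal (kn q ^ (2 * α)) else 0) := by
      intro q
      simp only [hφ]
      split_ifs with h h' h'
      · obtain ⟨hq, -, hk, hqk⟩ := h
        have hk1 := one_le_kn hk
        have hk0 : 0 < kn (-q - p) := by linarith
        obtain ⟨c1, c2⟩ := compar hK hθ0 hθ (q := q) (k := -q - p) (p := p) (by abel) hk hp hqk
        rw [mul_pow, ← ENNReal.ofReal_pow (Real.rpow_nonneg hk0.le _)]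
        have h5 : (kn (-q - p) ^ (β - ρ / 2)) ^ 2 ≤ cc K θ ^ |2 * β - ρ| * kn p ^ (2 * β - ρ) := by
          have e5 : (kn (-q - p) ^ (β - ρ / 2)) ^ 2 = kn (-q - p) ^ (2 * β - ρ) := by
            rw [← Real.rpow_natCast, ← Real.rpow_mul hk0.le]
            congr 1
            push_cast; ring
          rw [e5]
          rcases le_total 0 (2 * β - ρ) with h7 | h7
          · rw [abs_of_nonneg h7, ← Real.mul_rpow hcc0.le hp0.le]
            exact Real.rpow_le_rpow hk0.le c1 h7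
          · rw [abs_of_nonpos h7, Real.rpow_neg hcc0.le, ← Real.inv_rpow hcc0.le,
              ← Real.mul_rpow (inv_nonneg.2 hcc0.le) hp0.le]
            refine Real.rpow_le_rpow_of_nonpos (by positivity) ?_ h7
            rw [inv_mul_le_iff₀ hcc0]
            exact c2
        calc ENNReal.ofReal (kn q ^ (2 * α))
              * (ENNReal.ofReal ((kn (-q - p) ^ (β - ρ / 2)) ^ 2) * b p ^ 2)
            ≤ ENNReal.ofReal (kn q ^ (2 * α))
              * (ENNReal.ofReal (cc K θ ^ |2 * β - ρ| * kn p ^ (2 * β - ρ)) * b p ^ 2) := by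
              gcongr
          _ = _ := by ring
      · exfalso
        obtain ⟨hq, -, hk, hqk⟩ := h
        have hk1 := one_le_kn hk
        obtain ⟨c1, c2⟩ := compar hK hθ0 hθ (q := q) (k := -q - p) (p := p) (by abel) hk hp hqk
        refine h' ⟨hq, hqk.trans ?_⟩
        rw [hL, mul_assoc, ← Real.mul_rpow hcc0.le hp0.le]
        gcongr
      · simp
      · simp
    refine (ENNReal.tsum_le_tsum e3).trans ?_
    rw [ENNReal.tsum_mul_left]
    calc (ENNReal.ofReal (cc K θ ^ |2 * β - ρ| * kn p ^ (2 * β - ρ)) * b p ^ 2)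
          * ∑' q : K3, (if q ≠ 0 ∧ kn q ≤ L then ENNReal.ofReal (kn q ^ (2 * α)) else 0)
        ≤ (ENNReal.ofReal (cc K θ ^ |2 * β - ρ| * kn p ^ (2 * β - ρ)) * b p ^ 2)
          * ENNReal.ofReal (27 * L ^ (2 * α + 3)) := by
          gcongr
          exact count_low α hL0
      _ = (ENNReal.ofReal (cc K θ ^ |2 * β - ρ| * kn p ^ (2 * β - ρ))
          * ENNReal.ofReal (27 * L ^ (2 * α + 3))) * b p ^ 2 := by ring
      _ = _ := by
        rw [← ENNReal.ofReal_mul (by positivity), ← mul_assoc (ENNReal.ofReal (cl K θ α β ρ)),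
          ← ENNReal.ofReal_mul (cl_nonneg hK _ _ _)]
        congr 2
        have e7 : L ^ (2 * α + 3) = (K * cc K θ ^ θ) ^ (2 * α + 3) * kn p ^ (θ * (2 * α + 3)) := by
          rw [hL, mul_pow, ← Real.rpow_natCast (kn p ^ θ), ← Real.rpow_mul hp0.le]
          push_cast
          rfl
        have e8 : kn p ^ ρ = kn p ^ (2 * β - ρ) * kn p ^ (θ * (2 * α + 3)) := by
          rw [← Real.rpow_add hp0]
          congr 1
          rw [hρ]; ring
        rw [e7, e8]
        unfold cl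
        ring
  have h7 : (er ρ a ^ 2 * (ENNReal.ofReal (cl K θ α β ρ)
        * ∑' p, ENNReal.ofReal (kn p ^ ρ) * b p ^ 2)) ^ (1 / 2 : ℝ)
      = ENNReal.ofReal (Real.sqrt (cl K θ α β ρ)) * (er ρ a * er ρ b) := by
    have e : er ρ a ^ 2 * (ENNReal.ofReal (cl K θ α β ρ)
        * ∑' p, ENNReal.ofReal (kn p ^ ρ) * b p ^ 2)
        = (ENNReal.ofReal (Real.sqrt (cl K θ α β ρ)) * (er ρ a * er ρ b)) ^ 2 := by
      rw [mul_pow, mul_pow]
      have : er ρ b ^ 2 = ∑' p, ENNReal.ofReal (kn p ^ ρ) * b p ^ 2 := enn_half_sq _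
      rw [this, ← ENNReal.ofReal_pow (Real.sqrt_nonneg _), Real.sq_sqrt (cl_nonneg hK _ _ _)]
      ring
    rw [e, ← ENNReal.rpow_natCast, ← ENNReal.rpow_mul]
    norm_num
  unfold TE
  rw [ENNReal.tsum_prod']
  calc ∑' q, ∑' k, (if kn q ≤ K * kn k ^ θ then
      ENNReal.ofReal (kn q ^ α * kn k ^ β) * (c q * a k * b (-q - k)) else 0)
      ≤ ∑' q, c q * (ENNReal.ofReal (kn q ^ α) * (er ρ a * (∑' p, φ q p ^ 2) ^ (1 / 2 : ℝ))) :=
        ENNReal.tsum_le_tsum h1
    _ ≤ (∑' q, c q ^ 2) ^ (1 / 2 : ℝ)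
        * (∑' q, (ENNReal.ofReal (kn q ^ α)
          * (er ρ a * (∑' p, φ q p ^ 2) ^ (1 / 2 : ℝ))) ^ 2) ^ (1 / 2 : ℝ) := enn_cs _ _
    _ ≤ e2 c * (er ρ a ^ 2 * (ENNReal.ofReal (cl K θ α β ρ)
        * ∑' p, ENNReal.ofReal (kn p ^ ρ) * b p ^ 2)) ^ (1 / 2 : ℝ) := by
        unfold e2
        gcongr
    _ = _ := by rw [h7]; ring

end Pool.Agent.X96.HT
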