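import Pool.Agent.X96.HT.Alg
import Pool.Agent.H459R3.NS.Iso

/-!
Helical decomposition: the pointwise bound of the production by one triad.
-/

open Complex H459R3.NS

namespace Pool.Agent.X96.HT

/-- sign of a helicity -/
def sg (s : Bool) : ℝ := if s then 1 else -1

lemma sg_not (s : Bool) : sg (!s) = -sg s := by cases s <;> simp [sg]

lemma abs_sg (s : Bool) : |sg s| = 1 := by cases s <;> simp [sg]

lemma sg_sq (s : Bool) : sg s ^ 2 = 1 := by cases s <;> simp [sg]

/-- Euclidean norm of a frequency -/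
noncomputable def kn (k : K3) : ℝ := Real.sqrt (∑ j, (k j : ℝ) ^ 2)

/-- the frequency as a complex vector -/
def kc (k : K3) : C3 := fun j => (k j : ℂ)

lemma kn_nonneg (k : K3) : 0 ≤ kn k := Real.sqrt_nonneg _

lemma kn_sq (k : K3) : kn k ^ 2 = ∑ j, (k j : ℝ) ^ 2 := Real.sq_sqrt (by positivity)

lemma N_le_kn (k : K3) : (N k : ℝ) ≤ kn k := Real.le_sqrt_of_sq_le (N_sq_le k)

lemma kn_le_N (k : K3) : kn k ≤ 2 * N k := by
  unfold kn
  rw [Real.sqrt_le_left (by positivity)]
  have h : ∀ j, (k j : ℝ) ^ 2 ≤ (N k : ℝ) ^ 2 := fun j => by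
    have := (N_le_iff k (N k)).1 le_rfl j
    have h1 : |(k j : ℝ)| ≤ N k := by exact_mod_cast this
    rw [← sq_abs (k j : ℝ)]
    gcongr
  rw [Fin.sum_univ_three]
  nlinarith [h 0, h 1, h 2]

lemma kn_zero : kn 0 = 0 := by simp [kn]

lemma kn_neg (k : K3) : kn (-k) = kn k := by simp [kn]

lemma kn_pos {k : K3} (hk : k ≠ 0) : 0 < kn k := by
  refine lt_of_lt_of_le ?_ (N_le_kn k)
  have : N k ≠ 0 := fun h => hk (N_eq_zero.1 h)
  exact_mod_cast Nat.pos_of_ne_zero this

lemma norm_kc_le (k : K3) : ‖kc k‖ ≤ kn k := by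
  rw [pi_norm_le_iff_of_nonneg (kn_nonneg k)]
  intro j
  exact (abs_le_N k j).trans (N_le_kn k)

lemma kc_sq (k : K3) : dp (kc k) (kc k) = (kn k : ℂ) ^ 2 := by
  have : ((kn k ^ 2 : ℝ) : ℂ) = ((∑ j, (k j : ℝ) ^ 2 : ℝ) : ℂ) := by rw [kn_sq]
  rw [Complex.ofReal_pow] at this
  rw [this, Fin.sum_univ_three]
  unfold dp kc
  push_cast; ring

lemma kn_add_le (k p : K3) : kn (k + p) ≤ kn k + kn p := by
  have h := Real.sqrt_nonneg
  have hcs := Finset.sum_mul_sq_le_sq_mul_sq (Finset.univ : Finset (Fin 3))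
    (fun j => (k j : ℝ)) (fun j => (p j : ℝ))
  rw [← kn_sq, ← kn_sq, ← mul_pow] at hcs
  have h1 : (∑ j, (k j : ℝ) * p j) ≤ kn k * kn p :=
    (abs_le_of_sq_le_sq' hcs (mul_nonneg (kn_nonneg _) (kn_nonneg _))).2
  have h2 : kn (k + p) ^ 2 ≤ (kn k + kn p) ^ 2 := by
    rw [kn_sq]
    have e : ∑ j, (((k + p) j : ℤ) : ℝ) ^ 2
        = ∑ j, (k j : ℝ) ^ 2 + ∑ j, (p j : ℝ) ^ 2 + 2 * ∑ j, (k j : ℝ) * p j := by
      rw [Finset.mul_sum, ← Finset.sum_add_distrib, ← Finset.sum_add_distrib]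
      refine Finset.sum_congr rfl fun j _ => ?_
      simp only [Pi.add_apply]
      push_cast; ring
    rw [e, ← kn_sq, ← kn_sq]
    nlinarith
  exact (pow_le_pow_iff_left₀ (kn_nonneg _) (add_nonneg (kn_nonneg _) (kn_nonneg _))
    (by norm_num)).1 h2

/-- the part with helicity `s` of the vector `a` at the frequency `k` -/
noncomputable def par (s : Bool) (k : K3) (a : C3) : C3 :=
  if k = 0 then 0 else fun j => (a j + sg s * I * cp (kc k) a j / kn k) / 2

lemma par_zero (s : Bool) (a : C3) : par s 0 a = 0 := if_pos rfl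

lemma par_add {k : K3} (hk : k ≠ 0) (a : C3) : par true k a + par false k a = a := by
  funext j
  simp only [par, if_neg hk, Pi.add_apply, sg, if_true]
  simp
  ring

lemma dp_par {k : K3} {a : C3} (s : Bool) (ha : dp (kc k) a = 0) : dp (kc k) (par s k a) = 0 := by
  by_cases hk : k = 0
  · subst hk; simp [dp, kc]
  · simp only [par, if_neg hk]
    unfold dp at *
    simp only [cp0, cp1, cp2]
    linear_combination (1 / 2) * ha

lemma hl_par {k : K3} {a : C3} (s : Bool) (ha : dp (kc k) a = 0) :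
    Hl ((sg s * kn k : ℝ) : ℂ) (kc k) (par s k a) := by
  by_cases hk : k = 0
  · subst hk
    intro j
    rw [par_zero, kn_zero]
    fin_cases j <;> simp [kc]
  · have hn : (kn k : ℂ) ≠ 0 := by exact_mod_cast (kn_pos hk).ne'
    have hs : (sg s : ℂ) ^ 2 = 1 := by exact_mod_cast sg_sq s
    have hI := Complex.I_sq
    have hkk := kc_sq k
    unfold dp at ha hkk
    intro j
    have hc : ∀ x : ℂ, x * kn k / kn k = x := fun x => mul_div_cancel_right₀ x hn
    simp only [par, if_neg hk]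
    push_cast
    fin_cases j
    · show I * ((kc k) 1 * _ - (kc k) 2 * _) = _ * _
      simp only [cp0, cp1, cp2]
      field_simp
      simp only [Fin.isValue, Fin.zero_eta, cp0]
      linear_combination
        (sg s * (kc k 0 * a 0 + kc k 1 * a 1 + kc k 2 * a 2) * kc k 0
          - sg s * a 0 * (kc k 0 * kc k 0 + kc k 1 * kc k 1 + kc k 2 * kc k 2)) * hI
        - sg s * kc k 0 * ha + sg s * a 0 * hkk
        - I * kn k * (kc k 1 * a 2 - kc k 2 * a 1) * hs
    · show I * ((kc k) 2 * _ - (kc k) 0 * _) = _ * _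
      simp only [cp0, cp1, cp2]
      field_simp
      simp only [Fin.isValue, Fin.mk_one, cp1]
      linear_combination
        (sg s * (kc k 0 * a 0 + kc k 1 * a 1 + kc k 2 * a 2) * kc k 1
          - sg s * a 1 * (kc k 0 * kc k 0 + kc k 1 * kc k 1 + kc k 2 * kc k 2)) * hI
        - sg s * kc k 1 * ha + sg s * a 1 * hkk
        - I * kn k * (kc k 2 * a 0 - kc k 0 * a 2) * hs
    · show I * ((kc k) 0 * _ - (kc k) 1 * _) = _ * _
      simp only [cp0, cp1, cp2]
      field_simp
      simp only [Fin.isValue, Fin.reduceFinMk, cp2]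
      linear_combination
        (sg s * (kc k 0 * a 0 + kc k 1 * a 1 + kc k 2 * a 2) * kc k 2
          - sg s * a 2 * (kc k 0 * kc k 0 + kc k 1 * kc k 1 + kc k 2 * kc k 2)) * hI
        - sg s * kc k 2 * ha + sg s * a 2 * hkk
        - I * kn k * (kc k 0 * a 1 - kc k 1 * a 0) * hs

lemma norm_par_le (s : Bool) (k : K3) (a : C3) : ‖par s k a‖ ≤ 3 / 2 * ‖a‖ := by
  by_cases hk : k = 0
  · subst hk; rw [par_zero, norm_zero]; positivity
  · have hn := kn_pos hk
    rw [pi_norm_le_iff_of_nonneg (by positivity)]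
    intro j
    simp only [par, if_neg hk]
    have h1 : ‖cp (kc k) a j‖ ≤ 2 * (kn k * ‖a‖) := by
      refine (norm_le_pi_norm _ j).trans ((norm_cp_le _ _).trans ?_)
      gcongr
      exact norm_kc_le k
    have h2 : ‖(sg s : ℂ) * I * cp (kc k) a j / kn k‖ ≤ 2 * ‖a‖ := by
      rw [norm_div, norm_mul, norm_mul, Complex.norm_real, Complex.norm_I, Real.norm_eq_abs,
        abs_sg, one_mul, one_mul, Complex.norm_real, Real.norm_eq_abs, abs_of_pos hn,
        div_le_iff₀ hn]
      linarith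
    rw [norm_div, Complex.norm_ofNat]
    have h3 := (norm_add_le (a j) ((sg s : ℂ) * I * cp (kc k) a j / kn k)).trans
      (add_le_add (norm_le_pi_norm a j) h2)
    rw [div_le_iff₀ (by norm_num)]
    linarith

end Pool.Agent.X96.HT
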