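import Pool.Agent.X96.HT.Sum

/-!
The bound of the production of the norm of `H^{1/2}`.
-/

open MeasureTheory Set Filter Topology
open scoped ENNReal
open H459R3.NS

namespace Pool.Agent.X96.HT

/-- rapidly decreasing vector valued sequences -/
def RapV (U : K3 → C3) : Prop := ∀ n : ℕ, Summable fun k => kn k ^ n * ‖U k‖

/-- `∑ |k|ⁿ |U(k)|²` with Euclidean norms -/
noncomputable def hn (n : ℕ) (U : K3 → C3) : ℝ := ∑' k, kn k ^ n * ∑ i, ‖U k i‖ ^ 2

lemma sum_sq_le (a : C3) : ∑ i, ‖a i‖ ^ 2 ≤ 3 * ‖a‖ ^ 2 := by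
  rw [Fin.sum_univ_three]
  have h : ∀ i, ‖a i‖ ^ 2 ≤ ‖a‖ ^ 2 := fun i => by gcongr; exact norm_le_pi_norm a i
  linarith [h 0, h 1, h 2]

lemma sq_le_sum (a : C3) : ‖a‖ ^ 2 ≤ ∑ i, ‖a i‖ ^ 2 := by
  have h0 : 0 ≤ ∑ i, ‖a i‖ ^ 2 := by positivity
  have h : ‖a‖ ≤ Real.sqrt (∑ i, ‖a i‖ ^ 2) := by
    rw [pi_norm_le_iff_of_nonneg (Real.sqrt_nonneg _)]
    intro i
    refine Real.le_sqrt_of_sq_le ?_
    exact Finset.single_le_sum (f := fun i => ‖a i‖ ^ 2) (fun _ _ => by positivity)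
      (Finset.mem_univ i)
  calc ‖a‖ ^ 2 ≤ Real.sqrt (∑ i, ‖a i‖ ^ 2) ^ 2 := by gcongr
    _ = _ := Real.sq_sqrt h0

lemma RapV.hn_summable {U : K3 → C3} (hU : RapV U) (n : ℕ) :
    Summable fun k => kn k ^ n * ∑ i, ‖U k i‖ ^ 2 := by
  have h0 : Summable fun k => ‖U k‖ := by simpa using hU 0
  have hM : ∀ k, ‖U k‖ ≤ ∑' m, ‖U m‖ := fun k => h0.le_tsum k fun _ _ => norm_nonneg _
  refine Summable.of_nonneg_of_le (fun k => ?_) (fun k => ?_)
    ((hU n).mul_left (3 * ∑' m, ‖U m‖))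
  · have := kn_nonneg k; positivity
  · have h1 := sum_sq_le (U k)
    have h2 := kn_nonneg k
    calc kn k ^ n * ∑ i, ‖U k i‖ ^ 2 ≤ kn k ^ n * (3 * ‖U k‖ ^ 2) := by gcongr
      _ = 3 * ‖U k‖ * (kn k ^ n * ‖U k‖) := by ring
      _ ≤ 3 * (∑' m, ‖U m‖) * (kn k ^ n * ‖U k‖) := by
        have := hM k
        gcongr
      _ = _ := by ring

lemma hn_nonneg (n : ℕ) (U : K3 → C3) : 0 ≤ hn n U :=
  tsum_nonneg fun k => by have := kn_nonneg k; positivity

/-- the basic term -/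
noncomputable def ft (U : K3 → C3) (k p q : K3) : ℂ :=
  kn k * (Complex.I * dp (kc p) (U q) * dp (U p) (U k))

lemma ft_sym (U : K3 → C3) (k p q : K3) : (ft U k p q + ft U k q p) + (ft U p q k + ft U p k q)
      + (ft U q k p + ft U q p k) = G3 k p q (U k) (U p) (U q) := by
  unfold ft G3 Gs tau
  have e1 : dp (U k) (U p) = dp (U p) (U k) := by unfold dp; ring
  have e2 : dp (U k) (U q) = dp (U q) (U k) := by unfold dp; ring
  have e3 : dp (U p) (U q) = dp (U q) (U p) := by unfold dp; ring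
  rw [e1, e2, e3]
  ring

lemma S3s_ft {U : K3 → C3} (hU : RapV U) : S3s (ft U) := by
  have h0 : Summable fun k => ‖U k‖ := by simpa using hU 0
  have h1 : Summable fun k => kn k * ‖U k‖ := by simpa using hU 1
  have hM : ∀ k, ‖U k‖ ≤ ∑' m, ‖U m‖ := fun k => h0.le_tsum k fun _ _ => norm_nonneg _
  refine Summable.of_norm ?_
  refine Summable.of_nonneg_of_le (fun p => norm_nonneg _) (fun p => ?_)
    ((Summable.mul_of_nonneg h1 h1 (fun k => mul_nonneg (kn_nonneg _) (norm_nonneg _))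
      (fun k => mul_nonneg (kn_nonneg _) (norm_nonneg _))).mul_left (9 * ∑' m, ‖U m‖))
  have hk := kn_nonneg p.1
  have hp := kn_nonneg p.2
  unfold ft
  rw [norm_mul, norm_mul, norm_mul, Complex.norm_I, one_mul, Complex.norm_real, Real.norm_eq_abs,
    abs_of_nonneg hk]
  have e1 := norm_dp_le (kc p.2) (U (-p.1 - p.2))
  have e2 := norm_dp_le (U p.2) (U p.1)
  have e3 := norm_kc_le p.2
  have e4 := hM (-p.1 - p.2)
  calc kn p.1 * (‖dp (kc p.2) (U (-p.1 - p.2))‖ * ‖dp (U p.2) (U p.1)‖)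
      ≤ kn p.1 * ((3 * (‖kc p.2‖ * ‖U (-p.1 - p.2)‖)) * (3 * (‖U p.2‖ * ‖U p.1‖))) := by gcongr
    _ ≤ kn p.1 * ((3 * (kn p.2 * ∑' m, ‖U m‖)) * (3 * (‖U p.2‖ * ‖U p.1‖))) := by gcongr
    _ = _ := by ring

/-! ### The pieces -/

variable {U : K3 → C3} {A g h : ℝ} {Q : Set K3} {R W : Set (K3 × Bool)}

/-- the differentiated factor -/
noncomputable def be (U : K3 → C3) (k : K3) : ℝ≥0∞ := ENNReal.ofReal (kn k * bt k (U k))

/-- the factor in `X` -/
noncomputable def xe (X : Set (K3 × Bool)) (U : K3 → C3) (k : K3) : ℝ≥0∞ :=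
  ENNReal.ofReal (xi X k (U k))

lemma tz_add1 (x x' y z : K3 → ℝ≥0∞) : tz (fun k => x k + x' k) y z = tz x y z + tz x' y z := by
  unfold tz
  rw [← ENNReal.tsum_add]
  exact tsum_congr fun p => by ring

lemma tz_mono1 {x x' y z : K3 → ℝ≥0∞} (hx : ∀ k, x k ≤ x' k) : tz x y z ≤ tz x' y z := by
  unfold tz
  exact ENNReal.tsum_le_tsum fun p => by gcongr; exact hx _

lemma ofReal3 {x y z : ℝ} (hx : 0 ≤ x) (hy : 0 ≤ y) :
    ENNReal.ofReal (x * y * z) = ENNReal.ofReal x * ENNReal.ofReal y * ENNReal.ofReal z := by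
  rw [ENNReal.ofReal_mul (mul_nonneg hx hy), ENNReal.ofReal_mul hx]

/-- bound by the sums in extended reals -/
lemma ft_le_tz (hU : RapV U) (hdiv : ∀ k, dp (kc k) (U k) = 0) {X : Set (K3 × Bool)}
    (hX : MeetsMixed X) : ENNReal.ofReal ‖T3s (ft U)‖ ≤ 54 * tz (xe X U) (be U) (be U) := by
  have h1 := T3s_sym (S3s_ft hU)
  have e1 : (fun k p q => (ft U k p q + ft U k q p) + (ft U p q k + ft U p k q)
      + (ft U q k p + ft U q p k)) = fun k p q => G3 k p q (U k) (U p) (U q) := by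
    funext k p q; exact ft_sym U k p q
  rw [e1] at h1
  have h2 : ∀ p : K3 × K3, ‖G3 p.1 p.2 (-p.1 - p.2) (U p.1) (U p.2) (U (-p.1 - p.2))‖ₑ
      ≤ 108 * (xe X U p.1 * be U p.2 * be U (-p.1 - p.2)
        + be U p.1 * xe X U p.2 * be U (-p.1 - p.2)
        + be U p.1 * be U p.2 * xe X U (-p.1 - p.2)) := by
    intro p
    have h3 := G3_le hX (k := p.1) (p := p.2) (q := -p.1 - p.2) (by abel) (hdiv p.1) (hdiv p.2)
      (hdiv (-p.1 - p.2))
    have n1 := kn_nonneg p.1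
    have n2 := kn_nonneg p.2
    have n3 := kn_nonneg (-p.1 - p.2)
    have b1 := bt_nonneg p.1 (U p.1)
    have b2 := bt_nonneg p.2 (U p.2)
    have b3 := bt_nonneg (-p.1 - p.2) (U (-p.1 - p.2))
    have x1 := xi_nonneg X p.1 (U p.1)
    have x2 := xi_nonneg X p.2 (U p.2)
    have x3 := xi_nonneg X (-p.1 - p.2) (U (-p.1 - p.2))
    rw [← ofReal_norm]
    refine (ENNReal.ofReal_le_ofReal h3).trans (le_of_eq ?_)
    rw [ENNReal.ofReal_mul (by norm_num), ENNReal.ofReal_add (by positivity) (by positivity),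
      ENNReal.ofReal_add (by positivity) (by positivity), ofReal3 x1 (mul_nonneg n2 b2),
      ofReal3 (mul_nonneg n1 b1) x2, ofReal3 (mul_nonneg n1 b1) (mul_nonneg n2 b2)]
    unfold xe be
    norm_num
  have h4 : ‖(6 : ℂ) * T3s (ft U)‖ₑ ≤ 324 * tz (xe X U) (be U) (be U) := by
    rw [h1]
    refine enorm_T3s_le.trans ((ENNReal.tsum_le_tsum h2).trans ?_)
    rw [ENNReal.tsum_mul_left, ENNReal.tsum_add, ENNReal.tsum_add]
    have c1 : ∑' p : K3 × K3, xe X U p.1 * be U p.2 * be U (-p.1 - p.2)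
        = tz (xe X U) (be U) (be U) := rfl
    have c2 : ∑' p : K3 × K3, be U p.1 * xe X U p.2 * be U (-p.1 - p.2)
        = tz (xe X U) (be U) (be U) := tz_comm12 _ _ _
    have c3 : ∑' p : K3 × K3, be U p.1 * be U p.2 * xe X U (-p.1 - p.2)
        = tz (xe X U) (be U) (be U) := (tz_rot _ _ _).symm
    rw [c1, c2, c3]
    refine le_of_eq ?_
    ring
  rw [enorm_mul, ← ofReal_norm, ← ofReal_norm] at h4
  have e6 : ENNReal.ofReal ‖(6 : ℂ)‖ = 6 := by norm_num
  rw [e6] at h4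
  have h5 : (6 : ℝ≥0∞) * ENNReal.ofReal ‖T3s (ft U)‖
      ≤ 6 * (54 * tz (xe X U) (be U) (be U)) := by
    refine h4.trans (le_of_eq ?_)
    rw [← mul_assoc]; norm_num
  exact (ENNReal.mul_le_mul_iff_right (by norm_num) (by norm_num)).1 h5

lemma ofReal_tsum_sq {f : K3 → ℝ} (hf0 : ∀ k, 0 ≤ f k) {c : ℝ} (hc : 0 ≤ c)
    {F : K3 → ℝ} (hF : Summable F) (hle : ∀ k, f k ^ 2 ≤ F k) (hcF : ∑' k, F k ≤ c ^ 2) :
    e2 (fun k => ENNReal.ofReal (f k)) ≤ ENNReal.ofReal c := by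
  have hs : Summable fun k => f k ^ 2 := Summable.of_nonneg_of_le (fun k => sq_nonneg _) hle hF
  unfold e2
  have e : (∑' k, ENNReal.ofReal (f k) ^ 2) = ENNReal.ofReal (∑' k, f k ^ 2) := by
    rw [ENNReal.ofReal_tsum_of_nonneg (fun k => sq_nonneg _) hs]
    exact tsum_congr fun k => (ENNReal.ofReal_pow (hf0 k) 2).symm
  rw [e]
  calc (ENNReal.ofReal (∑' k, f k ^ 2)) ^ (1 / 2 : ℝ)
      ≤ (ENNReal.ofReal (c ^ 2)) ^ (1 / 2 : ℝ) := by
        gcongr
        exact (hs.tsum_le_tsum hle hF).trans hcF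
    _ = ENNReal.ofReal c := by
      rw [ENNReal.ofReal_rpow_of_nonneg (by positivity) (by norm_num), ← Real.sqrt_eq_rpow,
        Real.sqrt_sq hc]

lemma bt_sq_le (k : K3) (a : C3) : bt k a ^ 2 ≤ 9 * ∑ i, ‖a i‖ ^ 2 := by
  have h1 := bt_le k a
  have h2 := sq_le_sum a
  have h0 := bt_nonneg k a
  calc bt k a ^ 2 ≤ (3 * ‖a‖) ^ 2 := by gcongr
    _ = 9 * ‖a‖ ^ 2 := by ring
    _ ≤ _ := by gcongr

lemma e2_be (hU : RapV U) : e2 (be U) ≤ ENNReal.ofReal (3 * Real.sqrt (hn 2 U)) := by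
  refine ofReal_tsum_sq (fun k => mul_nonneg (kn_nonneg _) (bt_nonneg _ _)) (by positivity)
    ((hU.hn_summable 2).mul_left 9) (fun k => ?_) ?_
  · have := bt_sq_le k (U k)
    have h0 := kn_nonneg k
    calc (kn k * bt k (U k)) ^ 2 = kn k ^ 2 * bt k (U k) ^ 2 := by ring
      _ ≤ kn k ^ 2 * (9 * ∑ i, ‖U k i‖ ^ 2) := by gcongr
      _ = _ := by ring
  · rw [tsum_mul_left, mul_pow, Real.sq_sqrt (hn_nonneg _ _)]
    unfold hn
    norm_num

lemma sum_N_be (hU : RapV U) : ∑' q, N q * be U q ^ 2 ≤ ENNReal.ofReal (9 * hn 3 U) := by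
  have e : ∀ q, (N q : ℝ≥0∞) * be U q ^ 2 = ENNReal.ofReal (N q * (kn q * bt q (U q)) ^ 2) := by
    intro q
    unfold be
    rw [ENNReal.ofReal_mul (by positivity : (0 : ℝ) ≤ N q), ENNReal.ofReal_pow
      (mul_nonneg (kn_nonneg _) (bt_nonneg _ _)), ENNReal.ofReal_natCast]
  simp_rw [e]
  have hle : ∀ q, (N q : ℝ) * (kn q * bt q (U q)) ^ 2 ≤ 9 * (kn q ^ 3 * ∑ i, ‖U q i‖ ^ 2) := by
    intro q
    have h1 := bt_sq_le q (U q)
    have h0 := kn_nonneg q
    have h2 := N_le_kn q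
    calc (N q : ℝ) * (kn q * bt q (U q)) ^ 2 ≤ kn q * (kn q ^ 2 * bt q (U q) ^ 2) := by
          rw [mul_pow]; gcongr
      _ ≤ kn q * (kn q ^ 2 * (9 * ∑ i, ‖U q i‖ ^ 2)) := by gcongr
      _ = _ := by ring
  have hs : Summable fun q => (N q : ℝ) * (kn q * bt q (U q)) ^ 2 :=
    Summable.of_nonneg_of_le (fun q => by positivity) hle ((hU.hn_summable 3).mul_left 9)
  rw [← ENNReal.ofReal_tsum_of_nonneg (fun q => by positivity) hs]
  refine ENNReal.ofReal_le_ofReal ?_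
  refine (hs.tsum_le_tsum hle ((hU.hn_summable 3).mul_left 9)).trans (le_of_eq ?_)
  rw [tsum_mul_left]
  rfl

lemma sqrt_piece (hU : RapV U) {B : ℝ} (hB : 0 ≤ B) :
    (ENNReal.ofReal B * ∑' q, N q * be U q ^ 2) ^ (1 / 2 : ℝ)
      ≤ ENNReal.ofReal (3 * Real.sqrt (B * hn 3 U)) := by
  have h0 := hn_nonneg 3 U
  calc (ENNReal.ofReal B * ∑' q, N q * be U q ^ 2) ^ (1 / 2 : ℝ)
      ≤ (ENNReal.ofReal B * ENNReal.ofReal (9 * hn 3 U)) ^ (1 / 2 : ℝ) := by
        gcongr
        exact sum_N_be hU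
    _ = _ := by
      rw [← ENNReal.ofReal_mul hB, ENNReal.ofReal_rpow_of_nonneg (by positivity) (by norm_num),
        ← Real.sqrt_eq_rpow]
      congr 1
      rw [show B * (9 * hn 3 U) = 3 ^ 2 * (B * hn 3 U) by ring, Real.sqrt_mul (by norm_num),
        Real.sqrt_sq (by norm_num)]

open Classical in
lemma planar_enn (hQ : Planar A Q) (n : ℕ) (hn1 : 1 ≤ n) :
    (∑' k : K3, if 0 < N k ∧ N k ≤ 2 * n then
      (if k ∈ Q then ENNReal.ofReal (1 / Real.sqrt (N k)) else 0) ^ 2 else 0)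
      ≤ ENNReal.ofReal (4 * A) * n := by
  rw [ENNReal.tsum_eq_iSup_sum]
  refine iSup_le fun F => ?_
  set G := F.filter fun k => k ∈ Q ∧ 0 < N k ∧ N k ≤ 2 * n with hG
  have hF : ∀ q ∈ G, q ∈ Q ∧ 0 < N q ∧ N q ≤ 2 * n := by
    intro q hq
    rw [hG, Finset.mem_filter] at hq
    exact hq.2
  have h1 := planar_sum hQ (2 * n) (by omega) G hF
  have e1 : (∑ k ∈ F, if 0 < N k ∧ N k ≤ 2 * n then
      (if k ∈ Q then ENNReal.ofReal (1 / Real.sqrt (N k)) else 0) ^ 2 else 0)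
      = ∑ k ∈ G, ENNReal.ofReal (1 / (N k : ℝ)) := by
    rw [hG, Finset.sum_filter]
    refine Finset.sum_congr rfl fun k _ => ?_
    by_cases hk : k ∈ Q
    · by_cases hk2 : 0 < N k ∧ N k ≤ 2 * n
      · rw [if_pos hk2, if_pos hk, if_pos ⟨hk, hk2⟩, ← ENNReal.ofReal_pow (by positivity)]
        congr 1
        rw [div_pow, Real.sq_sqrt (by positivity), one_pow]
      · rw [if_neg hk2, if_neg (fun h => hk2 h.2)]
    · rw [if_neg (fun h : k ∈ Q ∧ 0 < N k ∧ N k ≤ 2 * n => hk h.1), if_neg hk]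
      simp
  rw [e1, ← ENNReal.ofReal_sum_of_nonneg fun q _ => by positivity]
  refine (ENNReal.ofReal_le_ofReal h1).trans (le_of_eq ?_)
  have hA := hQ.nonneg
  rw [← ENNReal.ofReal_natCast n, ← ENNReal.ofReal_mul (by positivity)]
  congr 1
  push_cast; ring

lemma cube_enn (n : ℕ) (hn1 : 1 ≤ n) :
    (∑' k : K3, if 0 < N k ∧ N k ≤ 2 * n then ENNReal.ofReal (1 / (N k : ℝ)) ^ 2 else 0)
      ≤ ENNReal.ofReal 162 * n := by
  rw [ENNReal.tsum_eq_iSup_sum]
  refine iSup_le fun F => ?_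
  set G := F.filter fun k => 0 < N k ∧ N k ≤ 2 * n with hG
  have hF : ∀ q ∈ G, 0 < N q ∧ N q ≤ 2 * n := by
    intro q hq
    rw [hG, Finset.mem_filter] at hq
    exact hq.2
  have h1 := cube_sum (2 * n) (by omega) G hF
  have e1 : (∑ k ∈ F, if 0 < N k ∧ N k ≤ 2 * n then
      ENNReal.ofReal (1 / (N k : ℝ)) ^ 2 else 0)
      = ∑ k ∈ G, ENNReal.ofReal (1 / (N k : ℝ) ^ 2) := by
    rw [hG, Finset.sum_filter]
    refine Finset.sum_congr rfl fun k _ => ?_
    by_cases hk2 : 0 < N k ∧ N k ≤ 2 * n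
    · rw [if_pos hk2, if_pos hk2, ← ENNReal.ofReal_pow (by positivity)]
      congr 1
      rw [div_pow, one_pow]
    · rw [if_neg hk2, if_neg hk2]
  rw [e1, ← ENNReal.ofReal_sum_of_nonneg fun q _ => by positivity]
  refine (ENNReal.ofReal_le_ofReal h1).trans (le_of_eq ?_)
  rw [← ENNReal.ofReal_natCast n, ← ENNReal.ofReal_mul (by norm_num)]
  congr 1
  push_cast; ring

open Classical in
/-- the part with frequencies in `Q` -/
noncomputable def xq (Q : Set K3) (U : K3 → C3) (k : K3) : ℝ≥0∞ :=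
  if k ∈ Q then ENNReal.ofReal (bt k (U k)) else 0

lemma bt_zero (a : C3) : bt 0 a = 0 := by unfold bt; rw [par_zero, par_zero]; simp

lemma tz_Q (hU : RapV U) (hQ : Planar A Q) : tz (xq Q U) (be U) (be U)
    ≤ ENNReal.ofReal (108 * (Real.sqrt A * Real.sqrt (hn 3 U * hn 2 U * hn 1 U))) := by
  classical
  have hA := hQ.nonneg
  set η : K3 → ℝ≥0∞ := fun k => ENNReal.ofReal (Real.sqrt (kn k) * bt k (U k)) with hη
  set v : K3 → ℝ≥0∞ := fun k => if k ∈ Q then ENNReal.ofReal (1 / Real.sqrt (N k)) else 0 with hv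
  have h1 : ∀ k, xq Q U k ≤ η k * v k := by
    intro k
    simp only [hη, hv, xq]
    by_cases hk : k ∈ Q
    · rw [if_pos hk, if_pos hk, ← ENNReal.ofReal_mul
        (mul_nonneg (Real.sqrt_nonneg _) (bt_nonneg _ _))]
      refine ENNReal.ofReal_le_ofReal ?_
      by_cases hk0 : k = 0
      · subst hk0; rw [bt_zero]; simp
      have hN : 0 < (N k : ℝ) := by
        exact_mod_cast Nat.pos_of_ne_zero fun h => hk0 (N_eq_zero.1 h)
      have h2 : 1 ≤ Real.sqrt (kn k) * (1 / Real.sqrt (N k)) := by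
        rw [mul_one_div, le_div_iff₀ (Real.sqrt_pos.2 hN), one_mul]
        exact Real.sqrt_le_sqrt (N_le_kn k)
      have h3 := bt_nonneg k (U k)
      calc bt k (U k) = bt k (U k) * 1 := (mul_one _).symm
        _ ≤ bt k (U k) * (Real.sqrt (kn k) * (1 / Real.sqrt (N k))) := by gcongr
        _ = _ := by ring
    · rw [if_neg hk]; exact bot_le
  have h0 : xq Q U 0 = 0 := by
    unfold xq
    rw [bt_zero]; simp
  have hη2 : e2 η ≤ ENNReal.ofReal (3 * Real.sqrt (hn 1 U)) := by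
    refine ofReal_tsum_sq (fun k => mul_nonneg (Real.sqrt_nonneg _) (bt_nonneg _ _))
      (by positivity) ((hU.hn_summable 1).mul_left 9) (fun k => ?_) ?_
    · have := bt_sq_le k (U k)
      have h0 := kn_nonneg k
      calc (Real.sqrt (kn k) * bt k (U k)) ^ 2 = kn k * bt k (U k) ^ 2 := by
            rw [mul_pow, Real.sq_sqrt h0]
        _ ≤ kn k * (9 * ∑ i, ‖U k i‖ ^ 2) := by gcongr
        _ = _ := by ring
    · rw [tsum_mul_left, mul_pow, Real.sq_sqrt (hn_nonneg _ _)]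
      unfold hn
      norm_num
  have h5 := tz_weight (β := be U) h0 h1 (planar_enn hQ)
  refine h5.trans ?_
  have e3 := hn_nonneg 3 U
  have e2' := hn_nonneg 2 U
  have e1 := hn_nonneg 1 U
  calc 2 * (e2 η * e2 (be U) * (ENNReal.ofReal (4 * A) * ∑' q, N q * be U q ^ 2) ^ (1 / 2 : ℝ))
      ≤ ENNReal.ofReal 2 * (ENNReal.ofReal (3 * Real.sqrt (hn 1 U))
        * ENNReal.ofReal (3 * Real.sqrt (hn 2 U))
        * ENNReal.ofReal (3 * Real.sqrt (4 * A * hn 3 U))) := by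
        gcongr
        · norm_num
        · exact e2_be hU
        · exact sqrt_piece hU (by positivity)
    _ = _ := by
      rw [← ENNReal.ofReal_mul (by positivity), ← ENNReal.ofReal_mul (by positivity),
        ← ENNReal.ofReal_mul (by positivity)]
      congr 1
      rw [Real.sqrt_mul (by positivity) (hn 3 U), Real.sqrt_mul (by positivity) A,
        Real.sqrt_mul (by positivity) (hn 1 U), Real.sqrt_mul (by positivity) (hn 2 U),
        show (4 : ℝ) = 2 ^ 2 by norm_num, Real.sqrt_sq (by norm_num)]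
      ring

lemma xi_sq_le (X : Set (K3 × Bool)) (k : K3) (a : C3) : xi X k a ^ 2
    ≤ 2 * ((X.indicator (fun m : K3 × Bool => ‖par m.2 m.1 a‖ ^ 2) (k, true))
      + X.indicator (fun m : K3 × Bool => ‖par m.2 m.1 a‖ ^ 2) (k, false)) := by
  classical
  unfold xi
  simp only [Set.indicator_apply]
  split_ifs
  · nlinarith [sq_nonneg (‖par true k a‖ - ‖par false k a‖)]
  · nlinarith [sq_nonneg ‖par true k a‖]
  · nlinarith [sq_nonneg ‖par false k a‖]
  · simp

lemma summable_bool {f : K3 → ℝ} (hf : Summable f) (h0 : ∀ k, 0 ≤ f k) :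
    Summable fun m : K3 × Bool => f m.1 := by
  have h1 : Summable fun _ : Bool => (1 : ℝ) := (hasSum_fintype _).summable
  have := Summable.mul_of_nonneg hf h1 h0 (fun _ => zero_le_one)
  simpa using this

lemma tsum_bool' {f : K3 × Bool → ℝ} (hf : Summable f) :
    ∑' m, f m = ∑' k, (f (k, true) + f (k, false)) := by
  rw [hf.tsum_prod]
  refine tsum_congr fun k => ?_
  rw [tsum_fintype, Fintype.sum_bool]

lemma par_le_all (hU : RapV U) (X : Set (K3 × Bool)) :
    Summable (X.indicator fun m : K3 × Bool => ‖par m.2 m.1 (U m.1)‖) := by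
  have h0 : Summable fun k => ‖U k‖ := by simpa using hU 0
  have h1 : Summable fun m : K3 × Bool => 3 / 2 * ‖U m.1‖ :=
    (summable_bool h0 fun _ => norm_nonneg _).mul_left _
  refine Summable.of_nonneg_of_le (fun m => ?_) (fun m => ?_) h1
  · exact Set.indicator_nonneg (fun _ _ => norm_nonneg _) _
  · exact (Set.indicator_le_self' (fun _ _ => norm_nonneg _) _).trans (norm_par_le _ _ _)

lemma xi_eq (X : Set (K3 × Bool)) (U : K3 → C3) (k : K3) : xi X k (U k)
    = (X.indicator fun m : K3 × Bool => ‖par m.2 m.1 (U m.1)‖) (k, true)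
      + (X.indicator fun m : K3 × Bool => ‖par m.2 m.1 (U m.1)‖) (k, false) := by
  classical
  unfold xi
  simp only [Set.indicator_apply]

lemma tz_R (hU : RapV U) (hg0 : 0 ≤ g)
    (hR : ∑' m : K3 × Bool, R.indicator (fun m => ‖par m.2 m.1 (U m.1)‖) m ≤ g) :
    tz (xe R U) (be U) (be U) ≤ ENNReal.ofReal (9 * (g * hn 2 U)) := by
  have hs := par_le_all hU R
  have hx : Summable fun k => xi R k (U k) := by
    simp_rw [xi_eq]
    exact (hs.comp_injective (i := fun k : K3 => (k, true)) fun a b h => (Prod.ext_iff.1 h).1).add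
      (hs.comp_injective (i := fun k : K3 => (k, false)) fun a b h => (Prod.ext_iff.1 h).1)
  have h1 : ∑' k, xe R U k ≤ ENNReal.ofReal g := by
    unfold xe
    rw [← ENNReal.ofReal_tsum_of_nonneg (fun k => xi_nonneg _ _ _) hx]
    refine ENNReal.ofReal_le_ofReal (le_trans (le_of_eq ?_) hR)
    rw [tsum_bool' hs]
    exact tsum_congr fun k => xi_eq R U k
  have h2 := e2_be hU
  have h0 := hn_nonneg 2 U
  calc tz (xe R U) (be U) (be U) ≤ (∑' k, xe R U k) * (e2 (be U) * e2 (be U)) := tz_l1 _ _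
    _ ≤ ENNReal.ofReal g * (ENNReal.ofReal (3 * Real.sqrt (hn 2 U))
        * ENNReal.ofReal (3 * Real.sqrt (hn 2 U))) := by gcongr
    _ = _ := by
      rw [← ENNReal.ofReal_mul (by positivity), ← ENNReal.ofReal_mul hg0]
      congr 1
      have := Real.mul_self_sqrt h0
      linear_combination 9 * g * this

lemma tz_W (hU : RapV U) (hh0 : 0 ≤ h)
    (hW : ∑' m : K3 × Bool, W.indicator (fun m => kn m.1 ^ 2 * ‖par m.2 m.1 (U m.1)‖ ^ 2) m
      ≤ h ^ 2) :
    tz (xe W U) (be U) (be U) ≤ ENNReal.ofReal (324 * (h * Real.sqrt (hn 3 U * hn 2 U))) := by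
  classical
  set η : K3 → ℝ≥0∞ := fun k => ENNReal.ofReal (kn k * xi W k (U k)) with hη
  set v : K3 → ℝ≥0∞ := fun k => ENNReal.ofReal (1 / (N k : ℝ)) with hv
  have hx0 : ∀ a, xi W 0 a = 0 := by
    intro a
    unfold xi
    rw [par_zero, par_zero]; simp
  have h1 : ∀ k, xe W U k ≤ η k * v k := by
    intro k
    simp only [hη, hv, xe]
    rw [← ENNReal.ofReal_mul (mul_nonneg (kn_nonneg _) (xi_nonneg _ _ _))]
    refine ENNReal.ofReal_le_ofReal ?_
    by_cases hk0 : k = 0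
    · subst hk0; rw [hx0]; simp
    have hN : 0 < (N k : ℝ) := by
      exact_mod_cast Nat.pos_of_ne_zero fun h => hk0 (N_eq_zero.1 h)
    have h2 : 1 ≤ kn k * (1 / (N k : ℝ)) := by
      rw [mul_one_div, le_div_iff₀ hN, one_mul]
      exact N_le_kn k
    have h3 := xi_nonneg W k (U k)
    calc xi W k (U k) = xi W k (U k) * 1 := (mul_one _).symm
      _ ≤ xi W k (U k) * (kn k * (1 / (N k : ℝ))) := by gcongr
      _ = _ := by ring
  have h0 : xe W U 0 = 0 := by unfold xe; rw [hx0]; simp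
  have hsW : Summable (W.indicator fun m : K3 × Bool => kn m.1 ^ 2 * ‖par m.2 m.1 (U m.1)‖ ^ 2) := by
    have h2 : Summable fun m : K3 × Bool => 9 / 4 * (kn m.1 ^ 2 * ∑ i, ‖U m.1 i‖ ^ 2) :=
      (summable_bool (hU.hn_summable 2) fun k => by have := kn_nonneg k; positivity).mul_left _
    refine Summable.of_nonneg_of_le (fun m => ?_) (fun m => ?_) h2
    · exact Set.indicator_nonneg (fun _ _ => by positivity) _
    · refine (Set.indicator_le_self' (fun _ _ => by positivity) _).trans ?_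
      have h3 := norm_par_le m.2 m.1 (U m.1)
      have h4 := sq_le_sum (U m.1)
      calc kn m.1 ^ 2 * ‖par m.2 m.1 (U m.1)‖ ^ 2 ≤ kn m.1 ^ 2 * (3 / 2 * ‖U m.1‖) ^ 2 := by
            gcongr
        _ = 9 / 4 * (kn m.1 ^ 2 * ‖U m.1‖ ^ 2) := by ring
        _ ≤ _ := by gcongr
  have hη2 : e2 η ≤ ENNReal.ofReal (Real.sqrt 2 * h) := by
    set ind : K3 × Bool → ℝ := W.indicator fun m : K3 × Bool =>
      kn m.1 ^ 2 * ‖par m.2 m.1 (U m.1)‖ ^ 2 with hind
    have hsF : Summable fun k => 2 * (ind (k, true) + ind (k, false)) :=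
      ((hsW.comp_injective (i := fun k : K3 => (k, true)) fun a b h =>
        (Prod.ext_iff.1 h).1).add (hsW.comp_injective (i := fun k : K3 => (k, false))
        fun a b h => (Prod.ext_iff.1 h).1)).mul_left 2
    refine ofReal_tsum_sq (fun k => mul_nonneg (kn_nonneg _) (xi_nonneg _ _ _))
      (by positivity) hsF (fun k => ?_) ?_
    · have h2 := xi_sq_le W k (U k)
      have h3 := kn_nonneg k
      calc (kn k * xi W k (U k)) ^ 2 = kn k ^ 2 * xi W k (U k) ^ 2 := by ring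
        _ ≤ kn k ^ 2 * (2 * ((W.indicator (fun m : K3 × Bool => ‖par m.2 m.1 (U k)‖ ^ 2) (k, true))
          + W.indicator (fun m : K3 × Bool => ‖par m.2 m.1 (U k)‖ ^ 2) (k, false))) := by gcongr
        _ = _ := by
          simp only [hind, Set.indicator_apply]
          split_ifs <;> ring
    · rw [tsum_mul_left, ← tsum_bool' hsW, mul_pow, Real.sq_sqrt (by norm_num)]
      linarith
  have h5 := tz_weight (β := be U) h0 h1 cube_enn
  refine h5.trans ?_
  have e3 := hn_nonneg 3 U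
  have e2' := hn_nonneg 2 U
  calc 2 * (e2 η * e2 (be U) * (ENNReal.ofReal 162 * ∑' q, N q * be U q ^ 2) ^ (1 / 2 : ℝ))
      ≤ ENNReal.ofReal 2 * (ENNReal.ofReal (Real.sqrt 2 * h)
        * ENNReal.ofReal (3 * Real.sqrt (hn 2 U))
        * ENNReal.ofReal (3 * Real.sqrt (162 * hn 3 U))) := by
        gcongr
        · norm_num
        · exact e2_be hU
        · exact sqrt_piece hU (by positivity)
    _ = _ := by
      rw [← ENNReal.ofReal_mul (by positivity), ← ENNReal.ofReal_mul (by positivity),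
        ← ENNReal.ofReal_mul (by positivity)]
      congr 1
      have e : (162 : ℝ) = 9 ^ 2 * 2 := by norm_num
      rw [e, mul_assoc (9 ^ 2 : ℝ), Real.sqrt_mul (by positivity) (2 * hn 3 U),
        Real.sqrt_mul (by positivity) (hn 3 U), Real.sqrt_mul (by positivity) (hn 2 U),
        Real.sqrt_sq (by norm_num)]
      have h2 := Real.mul_self_sqrt (show (0 : ℝ) ≤ 2 by norm_num)
      linear_combination 162 * h * Real.sqrt (hn 3 U) * Real.sqrt (hn 2 U) * h2

/-- The bound of the production. -/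
theorem prod_le (hU : RapV U) (hdiv : ∀ k, dp (kc k) (U k) = 0) (hQ : Planar A Q)
    (hX : MeetsMixed ({m | m.1 ∈ Q} ∪ R ∪ W)) (hg0 : 0 ≤ g) (hh0 : 0 ≤ h)
    (hR : ∑' m : K3 × Bool, R.indicator (fun m => ‖par m.2 m.1 (U m.1)‖) m ≤ g)
    (hW : ∑' m : K3 × Bool, W.indicator (fun m => kn m.1 ^ 2 * ‖par m.2 m.1 (U m.1)‖ ^ 2) m
      ≤ h ^ 2) :
    ‖T3s (ft U)‖ ≤ 54 * (108 * (Real.sqrt A * Real.sqrt (hn 3 U * hn 2 U * hn 1 U))
      + 9 * (g * hn 2 U) + 324 * (h * Real.sqrt (hn 3 U * hn 2 U))) := by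
  classical
  have h0 := hn_nonneg 2 U
  have h1 := ft_le_tz hU hdiv hX
  have h2 : ∀ k, xe ({m | m.1 ∈ Q} ∪ R ∪ W) U k ≤ (xq Q U k + xe R U k) + xe W U k := by
    intro k
    unfold xe xq
    have hb := bt_nonneg k (U k)
    have hx1 := xi_nonneg R k (U k)
    have hx2 := xi_nonneg W k (U k)
    by_cases hk : k ∈ Q
    · rw [if_pos hk, ← ENNReal.ofReal_add hb hx1, ← ENNReal.ofReal_add (by positivity) hx2]
      refine ENNReal.ofReal_le_ofReal ?_
      have : xi ({m | m.1 ∈ Q} ∪ R ∪ W) k (U k) ≤ bt k (U k) := by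
        unfold xi bt
        gcongr <;> split_ifs <;> simp
      linarith
    · rw [if_neg hk, zero_add, ← ENNReal.ofReal_add hx1 hx2]
      refine ENNReal.ofReal_le_ofReal ?_
      unfold xi
      have e : ∀ s : Bool, (k, s) ∈ ({m | m.1 ∈ Q} ∪ R ∪ W : Set (K3 × Bool))
          ↔ (k, s) ∈ R ∨ (k, s) ∈ W := by
        intro s
        simp only [mem_union]
        constructor
        · rintro ((h | h) | h)
          · exact absurd h hk
          · exact Or.inl h
          · exact Or.inr h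
        · rintro (h | h)
          · exact Or.inl (Or.inr h)
          · exact Or.inr h
      have key : ∀ s : Bool, (if (k, s) ∈ ({m | m.1 ∈ Q} ∪ R ∪ W : Set (K3 × Bool))
          then ‖par s k (U k)‖ else 0) ≤ (if (k, s) ∈ R then ‖par s k (U k)‖ else 0)
          + (if (k, s) ∈ W then ‖par s k (U k)‖ else 0) := by
        intro s
        have hn0 := norm_nonneg (par s k (U k))
        by_cases hr : (k, s) ∈ R
        · rw [if_pos ((e s).2 (Or.inl hr)), if_pos hr]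
          split_ifs <;> linarith
        · by_cases hw : (k, s) ∈ W
          · rw [if_pos ((e s).2 (Or.inr hw)), if_neg hr, if_pos hw, zero_add]
          · rw [if_neg (fun h => ((e s).1 h).elim hr hw), if_neg hr, if_neg hw, zero_add]
      refine le_trans (le_of_eq ?_) ((add_le_add (key true) (key false)).trans (le_of_eq ?_))
      · congr
      · ring
  have h3 := tz_mono1 (y := be U) (z := be U) h2
  rw [tz_add1, tz_add1] at h3
  have h4 := h3.trans (add_le_add (add_le_add (tz_Q hU hQ) (tz_R hU hg0 hR)) (tz_W hU hh0 hW))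
  rw [← ENNReal.ofReal_add (by positivity) (by positivity),
    ← ENNReal.ofReal_add (by positivity) (by positivity)] at h4
  have h5 : ENNReal.ofReal ‖T3s (ft U)‖ ≤ ENNReal.ofReal (54 * (108 * (Real.sqrt A
      * Real.sqrt (hn 3 U * hn 2 U * hn 1 U))
      + 9 * (g * hn 2 U) + 324 * (h * Real.sqrt (hn 3 U * hn 2 U)))) := by
    rw [ENNReal.ofReal_mul (by norm_num)]
    refine h1.trans ?_
    have : (54 : ℝ≥0∞) = ENNReal.ofReal 54 := by norm_num
    rw [this]
    gcongr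
  exact (ENNReal.ofReal_le_ofReal_iff (by positivity)).1 h5

end Pool.Agent.X96.HT
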