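import Pool.Agent.X96.HT.Pw2

/-!
The bound of the production when only the strong mixed triads have to meet the set of modes.
-/

open MeasureTheory Set Filter Topology
open scoped ENNReal
open H459R3.NS

namespace Pool.Agent.X96.HT

variable {U : K3 → C3} {A g h : ℝ} {Q : Set K3} {R W : Set (K3 × Bool)}

/-- the sizes -/
noncomputable def b0 (U : K3 → C3) (k : K3) : ℝ≥0∞ := ENNReal.ofReal (bt k (U k))

/-- the sum over all orders of a triad -/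
lemma TE_six (F : K3 → K3 → K3 → ℝ≥0∞) :
    TE (fun k p q => F k p q + F p k q + F k q p + F q k p + F p q k + F q p k) = 6 * TE F := by
  have e3 : TE (fun k p q => F p k q) = TE F := TE_12 F
  have e2 : TE (fun k p q => F k q p) = TE F := TE_23 F
  have e4 : TE (fun k p q => F q k p) = TE F := by
    rw [← e3]; exact TE_23 (fun k p q => F p k q)
  have e5 : TE (fun k p q => F p q k) = TE F := by
    rw [← e2]; exact TE_12 (fun k p q => F k q p)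
  have e6 : TE (fun k p q => F q p k) = TE F := by
    rw [← e5]; exact TE_23 (fun k p q => F p q k)
  have add : ∀ f g : K3 → K3 → K3 → ℝ≥0∞, TE (fun k p q => f k p q + g k p q) = TE f + TE g := by
    intro f g
    unfold TE
    exact ENNReal.tsum_add
  rw [add, add, add, add, add, e3, e2, e4, e5, e6]
  ring

lemma add6_nonneg {a b c d e f : ℝ} (ha : 0 ≤ a) (hb : 0 ≤ b) (hc : 0 ≤ c) (hd : 0 ≤ d)
    (he : 0 ≤ e) (hf : 0 ≤ f) : 0 ≤ a + b + c + d + e + f := by positivity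

lemma ofReal6 {a b c d e f : ℝ} (ha : 0 ≤ a) (hb : 0 ≤ b) (hc : 0 ≤ c) (hd : 0 ≤ d)
    (he : 0 ≤ e) (hf : 0 ≤ f) : ENNReal.ofReal (a + b + c + d + e + f)
    = ENNReal.ofReal a + ENNReal.ofReal b + ENNReal.ofReal c + ENNReal.ofReal d
      + ENNReal.ofReal e + ENNReal.ofReal f := by
  rw [ENNReal.ofReal_add (by positivity) hf, ENNReal.ofReal_add (by positivity) he,
    ENNReal.ofReal_add (by positivity) hd, ENNReal.ofReal_add (by positivity) hc,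
    ENNReal.ofReal_add ha hb]

/-- the sum over the exempt triads -/
lemma sum_ex (K θ₁ θ₂ : ℝ) (U : K3 → C3) :
    ∑' p : K3 × K3, ENNReal.ofReal (ex K θ₁ θ₂ p.1 p.2 (-p.1 - p.2)
      * (bt p.1 (U p.1) * bt p.2 (U p.2) * bt (-p.1 - p.2) (U (-p.1 - p.2))))
    = 6 * (TE (fun q k p => ENNReal.ofReal (l1 K θ₁ q k) * (b0 U q * b0 U k * b0 U p))
      + TE (fun q k p => ENNReal.ofReal (l2 K θ₂ q k) * (b0 U q * b0 U k * b0 U p))) := by
  have n1 := fun x y => l1_nonneg K θ₁ x y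
  have n2 := fun x y => l2_nonneg K θ₂ x y
  have add : ∀ f g : K3 → K3 → K3 → ℝ≥0∞, TE (fun k p q => f k p q + g k p q) = TE f + TE g := by
    intro f g
    unfold TE
    exact ENNReal.tsum_add
  rw [mul_add, ← TE_six, ← TE_six, ← add]
  unfold TE
  refine tsum_congr fun p => ?_
  have hb := fun k => bt_nonneg k (U k)
  rw [ENNReal.ofReal_mul (ex_nonneg _ _ _ _ _ _),
    ENNReal.ofReal_mul (mul_nonneg (hb _) (hb _)), ENNReal.ofReal_mul (hb _)]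
  unfold ex
  rw [ENNReal.ofReal_add (add6_nonneg (n1 _ _) (n1 _ _) (n1 _ _) (n1 _ _) (n1 _ _) (n1 _ _))
    (add6_nonneg (n2 _ _) (n2 _ _) (n2 _ _) (n2 _ _) (n2 _ _) (n2 _ _)),
    ofReal6 (n1 _ _) (n1 _ _) (n1 _ _) (n1 _ _) (n1 _ _) (n1 _ _),
    ofReal6 (n2 _ _) (n2 _ _) (n2 _ _) (n2 _ _) (n2 _ _) (n2 _ _)]
  unfold b0
  ring

/-- bound by the sums in extended reals -/
lemma ft_le_tz2 (hU : RapV U) (hdiv : ∀ k, dp (kc k) (U k) = 0) {K θ₁ θ₂ : ℝ}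
    {X : Set (K3 × Bool)} (hX : MeetsStrong K θ₁ θ₂ X) :
    ENNReal.ofReal ‖T3s (ft U)‖ ≤ 54 * tz (xe X U) (be U) (be U)
      + 108 * (TE (fun q k p => ENNReal.ofReal (l1 K θ₁ q k) * (b0 U q * b0 U k * b0 U p))
      + TE (fun q k p => ENNReal.ofReal (l2 K θ₂ q k) * (b0 U q * b0 U k * b0 U p))) := by
  have h1 := T3s_sym (S3s_ft hU)
  have e1 : (fun k p q => (ft U k p q + ft U k q p) + (ft U p q k + ft U p k q)
      + (ft U q k p + ft U q p k)) = fun k p q => G3 k p q (U k) (U p) (U q) := by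
    funext k p q; exact ft_sym U k p q
  rw [e1] at h1
  have h2 : ∀ p : K3 × K3, ‖G3 p.1 p.2 (-p.1 - p.2) (U p.1) (U p.2) (U (-p.1 - p.2))‖ₑ
      ≤ 108 * ((xe X U p.1 * be U p.2 * be U (-p.1 - p.2)
        + be U p.1 * xe X U p.2 * be U (-p.1 - p.2)
        + be U p.1 * be U p.2 * xe X U (-p.1 - p.2))
        + ENNReal.ofReal (ex K θ₁ θ₂ p.1 p.2 (-p.1 - p.2)
      * (bt p.1 (U p.1) * bt p.2 (U p.2) * bt (-p.1 - p.2) (U (-p.1 - p.2))))) := by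
    intro p
    have h3 := G3_le2 hX (k := p.1) (p := p.2) (q := -p.1 - p.2) (by abel) (hdiv p.1) (hdiv p.2)
      (hdiv (-p.1 - p.2))
    have n1 := kn_nonneg p.1
    have n2 := kn_nonneg p.2
    have n3 := kn_nonneg (-p.1 - p.2)
    have b1 := bt_nonneg p.1 (U p.1)
    have b2 := bt_nonneg p.2 (U p.2)
    have b3 := bt_nonneg (-p.1 - p.2) (U (-p.1 - p.2))
    have x1 := xi_nonneg X p.1 (U p.1)
    have x2 := xi_nonneg X p.2 (U p.2)
    have x3 := xi_nonneg X (-p.1 - p.2) (U (-p.1 - p.2))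
    have hex := ex_nonneg K θ₁ θ₂ p.1 p.2 (-p.1 - p.2)
    rw [← ofReal_norm]
    refine (ENNReal.ofReal_le_ofReal h3).trans (le_of_eq ?_)
    rw [ENNReal.ofReal_mul (by norm_num), ENNReal.ofReal_add (by positivity) (by positivity),
      ENNReal.ofReal_add (by positivity) (by positivity),
      ENNReal.ofReal_add (by positivity) (by positivity), ofReal3 x1 (mul_nonneg n2 b2),
      ofReal3 (mul_nonneg n1 b1) x2, ofReal3 (mul_nonneg n1 b1) (mul_nonneg n2 b2)]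
    unfold xe be
    norm_num
  set L := TE (fun q k p => ENNReal.ofReal (l1 K θ₁ q k) * (b0 U q * b0 U k * b0 U p))
      + TE (fun q k p => ENNReal.ofReal (l2 K θ₂ q k) * (b0 U q * b0 U k * b0 U p)) with hL
  have h4 : ‖(6 : ℂ) * T3s (ft U)‖ₑ ≤ 6 * (54 * tz (xe X U) (be U) (be U) + 108 * L) := by
    rw [h1]
    refine enorm_T3s_le.trans ((ENNReal.tsum_le_tsum h2).trans ?_)
    rw [ENNReal.tsum_mul_left, ENNReal.tsum_add, ENNReal.tsum_add, ENNReal.tsum_add, sum_ex]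
    have c1 : ∑' p : K3 × K3, xe X U p.1 * be U p.2 * be U (-p.1 - p.2)
        = tz (xe X U) (be U) (be U) := rfl
    have c2 : ∑' p : K3 × K3, be U p.1 * xe X U p.2 * be U (-p.1 - p.2)
        = tz (xe X U) (be U) (be U) := tz_comm12 _ _ _
    have c3 : ∑' p : K3 × K3, be U p.1 * be U p.2 * xe X U (-p.1 - p.2)
        = tz (xe X U) (be U) (be U) := (tz_rot _ _ _).symm
    rw [c1, c2, c3, ← hL]
    refine le_of_eq ?_
    ring
  rw [enorm_mul, ← ofReal_norm, ← ofReal_norm] at h4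
  have e6 : ENNReal.ofReal ‖(6 : ℂ)‖ = 6 := by norm_num
  rw [e6] at h4
  exact (ENNReal.mul_le_mul_iff_right (by norm_num) (by norm_num)).1 h4

lemma b0_zero (U : K3 → C3) : b0 U 0 = 0 := by unfold b0; rw [bt_zero]; simp

lemma e2_b0 (hU : RapV U) : e2 (b0 U) ≤ ENNReal.ofReal (3 * Real.sqrt (hn 0 U)) := by
  refine ofReal_tsum_sq (fun k => bt_nonneg _ _) (by positivity)
    ((hU.hn_summable 0).mul_left 9) (fun k => ?_) ?_
  · have := bt_sq_le k (U k)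
    rw [pow_zero, one_mul]
    exact this
  · rw [tsum_mul_left, mul_pow, Real.sq_sqrt (hn_nonneg _ _)]
    unfold hn
    norm_num

/-- interpolation of the weights -/
lemma kn_interp {ρ ε : ℝ} (hρ0 : 0 ≤ ρ) (hρ : ρ < 3) (hε : 0 < ε) {k : K3} (hk : k ≠ 0) :
    kn k ^ ρ ≤ ε * kn k ^ 3 + ε ^ (-(ρ / (3 - ρ))) := by
  have hk1 := one_le_kn hk
  have hk0 : 0 < kn k := by linarith
  have h3 : 0 < 3 - ρ := by linarith
  have e1 : 0 < ε ^ (-(ρ / (3 - ρ))) := Real.rpow_pos_of_pos hε _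
  rcases le_or_gt 1 (ε * kn k ^ (3 - ρ)) with h | h
  · have e : kn k ^ 3 = kn k ^ ρ * kn k ^ (3 - ρ) := by
      rw [← Real.rpow_add hk0]
      norm_num
    have : kn k ^ ρ ≤ ε * kn k ^ 3 := by
      rw [e]
      have h0 : 0 < kn k ^ ρ := Real.rpow_pos_of_pos hk0 _
      calc kn k ^ ρ = kn k ^ ρ * 1 := (mul_one _).symm
        _ ≤ kn k ^ ρ * (ε * kn k ^ (3 - ρ)) := by gcongr
        _ = _ := by ring
    linarith
  · have h4 : kn k ≤ ε ^ (-(1 / (3 - ρ))) := by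
      have h5 : kn k ^ (3 - ρ) ≤ ε⁻¹ := by
        rw [← one_div, le_div_iff₀ hε]
        linarith
      calc kn k = (kn k ^ (3 - ρ)) ^ (1 / (3 - ρ)) := by
            rw [← Real.rpow_mul hk0.le, mul_one_div_cancel h3.ne', Real.rpow_one]
        _ ≤ (ε⁻¹) ^ (1 / (3 - ρ)) := Real.rpow_le_rpow (Real.rpow_nonneg hk0.le _) h5
            (by positivity)
        _ = _ := by rw [Real.inv_rpow hε.le, Real.rpow_neg hε.le]
    have : kn k ^ ρ ≤ ε ^ (-(ρ / (3 - ρ))) := by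
      calc kn k ^ ρ ≤ (ε ^ (-(1 / (3 - ρ)))) ^ ρ := Real.rpow_le_rpow hk0.le h4 hρ0
        _ = _ := by
          rw [← Real.rpow_mul hε.le]
          congr 1
          ring
    have h0 : 0 ≤ ε * kn k ^ 3 := by positivity
    linarith

lemma er_b0 (hU : RapV U) {ρ ε : ℝ} (hρ0 : 0 ≤ ρ) (hρ : ρ < 3) (hε : 0 < ε) :
    er ρ (b0 U) * er ρ (b0 U)
      ≤ ENNReal.ofReal (9 * (ε * hn 3 U + ε ^ (-(ρ / (3 - ρ))) * hn 0 U)) := by
  rw [← sq]
  unfold er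
  rw [enn_half_sq]
  have e1 : 0 < ε ^ (-(ρ / (3 - ρ))) := Real.rpow_pos_of_pos hε _
  have hterm : ∀ k, kn k ^ ρ * bt k (U k) ^ 2
      ≤ 9 * (ε * (kn k ^ 3 * ∑ i, ‖U k i‖ ^ 2)
        + ε ^ (-(ρ / (3 - ρ))) * (kn k ^ 0 * ∑ i, ‖U k i‖ ^ 2)) := by
    intro k
    by_cases hk : k = 0
    · subst hk
      rw [bt_zero, kn_zero]
      have : (0 : ℝ) ^ 2 = 0 := by norm_num
      rw [this, mul_zero]
      positivity
    · have h1 := kn_interp hρ0 hρ hε hk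
      have h2 := bt_sq_le k (U k)
      have h3 := kn_nonneg k
      calc kn k ^ ρ * bt k (U k) ^ 2 ≤ (ε * kn k ^ 3 + ε ^ (-(ρ / (3 - ρ))))
            * (9 * ∑ i, ‖U k i‖ ^ 2) := by gcongr
        _ = _ := by ring
  have hs0 : Summable fun k => 9 * (ε * (kn k ^ 3 * ∑ i, ‖U k i‖ ^ 2)
        + ε ^ (-(ρ / (3 - ρ))) * (kn k ^ 0 * ∑ i, ‖U k i‖ ^ 2)) :=
    (((hU.hn_summable 3).mul_left ε).add ((hU.hn_summable 0).mul_left _)).mul_left 9
  have hnn : ∀ k, 0 ≤ kn k ^ ρ * bt k (U k) ^ 2 := fun k =>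
    mul_nonneg (Real.rpow_nonneg (kn_nonneg k) _) (sq_nonneg _)
  have hs : Summable fun k => kn k ^ ρ * bt k (U k) ^ 2 :=
    Summable.of_nonneg_of_le hnn hterm hs0
  have e2 : (∑' k, ENNReal.ofReal (kn k ^ ρ) * b0 U k ^ 2)
      = ENNReal.ofReal (∑' k, kn k ^ ρ * bt k (U k) ^ 2) := by
    rw [ENNReal.ofReal_tsum_of_nonneg hnn hs]
    refine tsum_congr fun k => ?_
    unfold b0
    rw [ENNReal.ofReal_mul (Real.rpow_nonneg (kn_nonneg k) _),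
      ENNReal.ofReal_pow (bt_nonneg _ _)]
  rw [e2]
  refine ENNReal.ofReal_le_ofReal ((hs.tsum_le_tsum hterm hs0).trans (le_of_eq ?_))
  rw [tsum_mul_left, ((hU.hn_summable 3).mul_left ε).tsum_add ((hU.hn_summable 0).mul_left _),
    tsum_mul_left, tsum_mul_left]
  rfl

/-- the constants of the exempt triads -/
noncomputable def ck (K θ : ℝ) (α β : ℕ) : ℝ := Real.sqrt (cl K θ α β (β + θ * (α + 3 / 2)))

lemma ck_nonneg (K θ : ℝ) (α β : ℕ) : 0 ≤ ck K θ α β := Real.sqrt_nonneg _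

lemma low_term (hU : RapV U) {K θ : ℝ} (hK : 0 ≤ K) (hθ0 : 0 ≤ θ) (hθ : θ < 1) (α β : ℕ)
    {ρ ε : ℝ} (hρ : ρ = β + θ * (α + 3 / 2)) (hρ3 : ρ < 3) (hε : 0 < ε)
    {l : K3 → K3 → ℝ} (hl : ∀ q k, ¬ kn q ≤ K * kn k ^ θ → l q k = 0)
    (hl' : ∀ q k, kn q ≤ K * kn k ^ θ → l q k = kn q ^ α * kn k ^ β) :
    TE (fun q k p => ENNReal.ofReal (l q k) * (b0 U q * b0 U k * b0 U p))
      ≤ ENNReal.ofReal (27 * ck K θ α β * Real.sqrt (hn 0 U)
        * (ε * hn 3 U + ε ^ (-(ρ / (3 - ρ))) * hn 0 U)) := by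
  classical
  have hρ0 : 0 ≤ ρ := by rw [hρ]; positivity
  have e : (fun q k p => ENNReal.ofReal (l q k) * (b0 U q * b0 U k * b0 U p))
      = fun q k p => if kn q ≤ K * kn k ^ θ then
      ENNReal.ofReal (kn q ^ α * kn k ^ β) * (b0 U q * b0 U k * b0 U p) else 0 := by
    funext q k p
    split_ifs with h
    · rw [hl' q k h]
    · rw [hl q k h]; simp
  rw [e]
  refine (low_bound hK hθ0 hθ α β hρ (b0_zero U) (b0_zero U) (b0_zero U)).trans ?_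
  have h3 := hn_nonneg 3 U
  have h0 := hn_nonneg 0 U
  have e1 : 0 < ε ^ (-(ρ / (3 - ρ))) := Real.rpow_pos_of_pos hε _
  have hck := ck_nonneg K θ α β
  calc ENNReal.ofReal (Real.sqrt (cl K θ α β ρ)) * (e2 (b0 U) * (er ρ (b0 U) * er ρ (b0 U)))
      ≤ ENNReal.ofReal (ck K θ α β) * (ENNReal.ofReal (3 * Real.sqrt (hn 0 U))
        * ENNReal.ofReal (9 * (ε * hn 3 U + ε ^ (-(ρ / (3 - ρ))) * hn 0 U))) := by
        gcongr
        · unfold ck; rw [hρ]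
        · exact e2_b0 hU
        · exact er_b0 hU hρ0 hρ3 hε
    _ = _ := by
      rw [← ENNReal.ofReal_mul (by positivity), ← ENNReal.ofReal_mul hck]
      congr 1
      ring

/-- The bound of the production, all parts. -/
theorem prod_le3 (hU : RapV U) (hdiv : ∀ k, dp (kc k) (U k) = 0) {K θ₁ θ₂ : ℝ} (hK : 0 ≤ K)
    (hθ₁ : 0 ≤ θ₁) (hθ₁' : θ₁ < 4 / 5) (hθ₂ : 0 ≤ θ₂) (hθ₂' : θ₂ < 6 / 7) (hQ : Planar A Q)
    (hX : MeetsStrong K θ₁ θ₂ ({m | m.1 ∈ Q} ∪ R ∪ W)) (hg0 : 0 ≤ g) (hh0 : 0 ≤ h)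
    (hR : ∑' m : K3 × Bool, R.indicator (fun m => ‖par m.2 m.1 (U m.1)‖) m ≤ g)
    (hW : ∑' m : K3 × Bool, W.indicator (fun m => kn m.1 * ‖par m.2 m.1 (U m.1)‖ ^ 2) m
      ≤ h ^ 2) {ε₁ ε₂ : ℝ} (hε₁ : 0 < ε₁) (hε₂ : 0 < ε₂) :
    ‖T3s (ft U)‖ ≤ 54 * (108 * (Real.sqrt A * Real.sqrt (hn 3 U * hn 2 U * hn 1 U))
      + 9 * (g * hn 2 U) + 594 * (h * hn 3 U))
      + 2916 * (ck K θ₁ 1 1 * Real.sqrt (hn 0 U)
        * (ε₁ * hn 3 U + ε₁ ^ (-((1 + 5 / 2 * θ₁) / (2 - 5 / 2 * θ₁))) * hn 0 U)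
      + ck K θ₂ 2 0 * Real.sqrt (hn 0 U)
        * (ε₂ * hn 3 U + ε₂ ^ (-((7 / 2 * θ₂) / (3 - 7 / 2 * θ₂))) * hn 0 U)) := by
  classical
  have h00 := hn_nonneg 0 U
  have h0 := hn_nonneg 2 U
  have h03 := hn_nonneg 3 U
  have h1 := ft_le_tz2 hU hdiv hX
  have h3 := tz_mono1 (y := be U) (z := be U) (fun k => xe_split (U := U) (Q := Q) (R := R)
    (W := W) k)
  rw [tz_add1, tz_add1] at h3
  have h4 := h3.trans (add_le_add (add_le_add (tz_Q hU hQ) (tz_R hU hg0 hR)) (tz_W2 hU hh0 hW))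
  rw [← ENNReal.ofReal_add (by positivity) (by positivity),
    ← ENNReal.ofReal_add (by positivity) (by positivity)] at h4
  have r1 : 0 < ε₁ ^ (-((1 + 5 / 2 * θ₁) / (2 - 5 / 2 * θ₁))) := Real.rpow_pos_of_pos hε₁ _
  have r2 : 0 < ε₂ ^ (-((7 / 2 * θ₂) / (3 - 7 / 2 * θ₂))) := Real.rpow_pos_of_pos hε₂ _
  have t1 := low_term hU hK hθ₁ (by linarith) 1 1 (ρ := 1 + 5 / 2 * θ₁) (ε := ε₁)
    (by push_cast; ring) (by linarith) hε₁ (l := l1 K θ₁)
    (fun q k hn => by unfold l1; rw [if_neg hn])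
    (fun q k hn => by unfold l1; rw [if_pos hn, pow_one, pow_one])
  have t2 := low_term hU hK hθ₂ (by linarith) 2 0 (ρ := 7 / 2 * θ₂) (ε := ε₂)
    (by push_cast; ring) (by linarith) hε₂ (l := l2 K θ₂)
    (fun q k hn => by unfold l2; rw [if_neg hn])
    (fun q k hn => by unfold l2; rw [if_pos hn, pow_zero, mul_one])
  rw [show (3 : ℝ) - (1 + 5 / 2 * θ₁) = 2 - 5 / 2 * θ₁ by ring] at t1
  have c1 := ck_nonneg K θ₁ 1 1
  have c2 := ck_nonneg K θ₂ 2 0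
  have h5 : ENNReal.ofReal ‖T3s (ft U)‖ ≤ ENNReal.ofReal (54 * (108 * (Real.sqrt A
      * Real.sqrt (hn 3 U * hn 2 U * hn 1 U))
      + 9 * (g * hn 2 U) + 594 * (h * hn 3 U))
      + 108 * (27 * ck K θ₁ 1 1 * Real.sqrt (hn 0 U)
        * (ε₁ * hn 3 U + ε₁ ^ (-((1 + 5 / 2 * θ₁) / (2 - 5 / 2 * θ₁))) * hn 0 U)
      + 27 * ck K θ₂ 2 0 * Real.sqrt (hn 0 U)
        * (ε₂ * hn 3 U + ε₂ ^ (-((7 / 2 * θ₂) / (3 - 7 / 2 * θ₂))) * hn 0 U))) := by
    rw [ENNReal.ofReal_add (by positivity) (by positivity), ENNReal.ofReal_mul (by norm_num),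
      ENNReal.ofReal_mul (by norm_num : (0 : ℝ) ≤ 108),
      ENNReal.ofReal_add (p := 27 * ck K θ₁ 1 1 * Real.sqrt (hn 0 U)
        * (ε₁ * hn 3 U + ε₁ ^ (-((1 + 5 / 2 * θ₁) / (2 - 5 / 2 * θ₁))) * hn 0 U))
        (by positivity) (by positivity)]
    refine h1.trans ?_
    have e54 : (54 : ℝ≥0∞) = ENNReal.ofReal 54 := by norm_num
    have e108 : (108 : ℝ≥0∞) = ENNReal.ofReal 108 := by norm_num
    rw [e54, e108]
    gcongr
  refine ((ENNReal.ofReal_le_ofReal_iff (by positivity)).1 h5).trans (le_of_eq ?_)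
  ring

end Pool.Agent.X96.HT
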