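import Pool.Agent.X96.HT.Par

/-!
The bound of the production by one triad in terms of a set of helical modes which meets all mixed
triads.
-/

open Complex H459R3.NS

namespace Pool.Agent.X96.HT

/-- Every triad of helical modes which is not collinear and whose signs are not all equal
meets `X`. -/
def MeetsMixed (X : Set (K3 × Bool)) : Prop :=
  ∀ (a b c : K3) (r s t : Bool), a + b + c = 0 → crossProduct a b ≠ 0 → ¬ (r = s ∧ s = t) →
    (a, r) ∈ X ∨ (b, s) ∈ X ∨ (c, t) ∈ X

section

variable {x y z : ℂ} {k p q a a' b b' c c' : C3}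

lemma Gs_add1 : Gs x y z k p q (a + a') b c = Gs x y z k p q a b c + Gs x y z k p q a' b c := by
  unfold Gs tau dp; simp only [Pi.add_apply]; ring

lemma Gs_add2 : Gs x y z k p q a (b + b') c = Gs x y z k p q a b c + Gs x y z k p q a b' c := by
  unfold Gs tau dp; simp only [Pi.add_apply]; ring

lemma Gs_add3 : Gs x y z k p q a b (c + c') = Gs x y z k p q a b c + Gs x y z k p q a b c' := by
  unfold Gs tau dp; simp only [Pi.add_apply]; ring

end

/-- the symmetric form of three frequencies -/
noncomputable def G3 (k p q : K3) (a b c : C3) : ℂ :=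
  Gs (kn k) (kn p) (kn q) (kc k) (kc p) (kc q) a b c

lemma G3_rot (k p q : K3) (a b c : C3) : G3 k p q a b c = G3 p q k b c a := Gs_rot _ _ _ _ _ _ _ _ _

lemma kc_sum {k p q : K3} (h : k + p + q = 0) (j : Fin 3) : kc k j + kc p j + kc q j = 0 := by
  unfold kc
  have := congrFun h j
  simp only [Pi.add_apply, Pi.zero_apply] at this
  exact_mod_cast this

lemma sum_rot {k p q : K3} (h : k + p + q = 0) : p + q + k = 0 := by rw [← h]; abel

lemma G3_zero3 {k p : K3} (h : k + p = 0) (a b c : C3) : G3 k p 0 a b c = 0 := by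
  have hp : p = -k := by rw [← sub_eq_zero, sub_neg_eq_add, add_comm]; exact h
  subst hp
  unfold G3
  rw [kn_neg, kn_zero]
  unfold Gs tau dp kc
  simp only [Pi.neg_apply, Pi.zero_apply, Int.cast_neg, Int.cast_zero]
  push_cast
  ring

lemma G3_zero {k p q : K3} (h : k + p + q = 0) (h0 : k = 0 ∨ p = 0 ∨ q = 0) (a b c : C3) :
    G3 k p q a b c = 0 := by
  rcases h0 with h0 | h0 | h0
  · subst h0
    rw [G3_rot]
    exact G3_zero3 (by simpa using h) _ _ _
  · subst h0
    rw [G3_rot, G3_rot]
    exact G3_zero3 (by rw [add_comm]; simpa using h) _ _ _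
  · subst h0
    exact G3_zero3 (by simpa using h) _ _ _

section

variable {k p q : K3} {a b c : C3}

lemma G3_par (h : k + p + q = 0) (ha : dp (kc k) a = 0) (hb : dp (kc p) b = 0)
    (hc : dp (kc q) c = 0) (r s t : Bool) :
    G3 k p q (par r k a) (par s p b) (par t q c)
      = (kn k * (sg s * kn p - sg t * kn q) + kn p * (sg t * kn q - sg r * kn k)
        + kn q * (sg r * kn k - sg s * kn p))
        * dp (par r k a) (cp (par s p b) (par t q c)) := by
  have := Gs_eq (x := kn k) (y := kn p) (z := kn q) (kc_sum h) (dp_par r ha) (dp_par s hb)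
    (dp_par t hc) (hl_par r ha) (hl_par s hb) (hl_par t hc)
  unfold G3
  rw [this]
  push_cast
  ring

lemma G3_homo (h : k + p + q = 0) (ha : dp (kc k) a = 0) (hb : dp (kc p) b = 0)
    (hc : dp (kc q) c = 0) (s : Bool) : G3 k p q (par s k a) (par s p b) (par s q c) = 0 := by
  rw [G3_par h ha hb hc]
  ring

lemma G3_col (h : k + p + q = 0) (hp0 : p ≠ 0) (hq0 : q ≠ 0) (hcol : crossProduct k p = 0)
    (ha : dp (kc k) a = 0) (hb : dp (kc p) b = 0)
    (hc : dp (kc q) c = 0) (r s t : Bool) : G3 k p q (par r k a) (par s p b) (par t q c) = 0 := by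
  rw [G3_par h ha hb hc]
  have hD : dp (par r k a) (cp (par s p b) (par t q c)) = 0 := by
    have h1 := det_eq (a := par r k a) (c := par t q c) (hl_par s hb)
    have hc' := dp_par t hc
    have ha' := dp_par r ha
    -- `p` is parallel to `k` and to `q`
    have hc0 : (k 1 : ℂ) * p 2 - k 2 * p 1 = 0 := by
      have := congrFun hcol 0
      simp only [cross_apply, Matrix.cons_val_zero, Pi.zero_apply] at this
      exact_mod_cast this
    have hc1 : (k 2 : ℂ) * p 0 - k 0 * p 2 = 0 := by
      have := congrFun hcol 1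
      simp only [cross_apply, Matrix.cons_val_one, Matrix.cons_val_zero, Pi.zero_apply] at this
      exact_mod_cast this
    have hc2 : (k 0 : ℂ) * p 1 - k 1 * p 0 = 0 := by
      have := congrFun hcol 2
      simp only [cross_apply, Matrix.cons_val, Pi.zero_apply] at this
      exact_mod_cast this
    have hq : ∀ j, (q j : ℂ) = -k j - p j := fun j => by
      have := kc_sum h j
      unfold kc at this
      linear_combination this
    have e1 : ∀ m : Fin 3, (q m : ℂ) * dp (kc p) (par t q c) = 0 := by
      intro m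
      unfold dp kc at *
      rw [hq 0, hq 1, hq 2] at hc'
      rw [hq m]
      fin_cases m
      · simp only [Fin.zero_eta, Fin.isValue]
        linear_combination (p 0 : ℂ) * hc' - (par t q c 1) * hc2 + (par t q c 2) * hc1
      · simp only [Fin.mk_one, Fin.isValue]
        linear_combination (p 1 : ℂ) * hc' + (par t q c 0) * hc2 - (par t q c 2) * hc0
      · simp only [Fin.reduceFinMk, Fin.isValue]
        linear_combination (p 2 : ℂ) * hc' - (par t q c 0) * hc1 + (par t q c 1) * hc0
    have e1' : dp (kc p) (par t q c) = 0 := by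
      obtain ⟨m, hm⟩ := Function.ne_iff.1 hq0
      have hm' : (q m : ℂ) ≠ 0 := by exact_mod_cast hm
      exact (mul_eq_zero.1 (e1 m)).resolve_left hm'
    by_cases hk0 : k = 0
    · subst hk0
      rw [par_zero]; simp [dp]
    have e2 : ∀ m : Fin 3, (k m : ℂ) * dp (kc p) (par r k a) = 0 := by
      intro m
      unfold dp kc at *
      fin_cases m
      · simp only [Fin.zero_eta, Fin.isValue]
        linear_combination (p 0 : ℂ) * ha' + (par r k a 1) * hc2 - (par r k a 2) * hc1
      · simp only [Fin.mk_one, Fin.isValue]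
        linear_combination (p 1 : ℂ) * ha' - (par r k a 0) * hc2 + (par r k a 2) * hc0
      · simp only [Fin.reduceFinMk, Fin.isValue]
        linear_combination (p 2 : ℂ) * ha' + (par r k a 0) * hc1 - (par r k a 1) * hc0
    have e2' : dp (kc p) (par r k a) = 0 := by
      obtain ⟨m, hm⟩ := Function.ne_iff.1 hk0
      have hm' : (k m : ℂ) ≠ 0 := by exact_mod_cast hm
      exact (mul_eq_zero.1 (e2 m)).resolve_left hm'
    rw [e1', e2', zero_mul, zero_mul, sub_zero, mul_zero] at h1
    have hne : ((sg s * kn p : ℝ) : ℂ) ≠ 0 := by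
      have h2 : sg s ≠ 0 := by
        intro h0
        have := abs_sg s
        rw [h0] at this; simp at this
      exact_mod_cast mul_ne_zero h2 (kn_pos hp0).ne'
    exact (mul_eq_zero.1 h1).resolve_left hne
  rw [hD, mul_zero]

lemma kn_tri (h : k + p + q = 0) : kn q ≤ kn k + kn p := by
  have : q = -(k + p) := by rw [eq_neg_iff_add_eq_zero, add_comm]; exact h
  rw [this, kn_neg]
  exact kn_add_le k p

/-- minority sign in the third place -/
lemma G3_min3 (h : k + p + q = 0) (ha : dp (kc k) a = 0) (hb : dp (kc p) b = 0)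
    (hc : dp (kc q) c = 0) (s : Bool) :
    ‖G3 k p q (par s k a) (par s p b) (par (!s) q c)‖
      ≤ 54 * (kn q * (min (kn k) (kn p) * (‖par s k a‖ * ‖par s p b‖ * ‖par (!s) q c‖))) := by
  have hc2 := hl_par (!s) hc
  rw [sg_not] at hc2
  exact Gs_mixed (norm_kc_le k) (norm_kc_le p) (kn_nonneg q) (abs_sg s) (kc_sum h)
    (dp_par s ha) (dp_par s hb) (dp_par (!s) hc) (hl_par s ha) (hl_par s hb) hc2

/-- the three bounds -/
def B3 (k p q : K3) (w M : ℝ) : Prop :=
  w ≤ 108 * (kn p * kn q * M) ∧ w ≤ 108 * (kn q * kn k * M) ∧ w ≤ 108 * (kn k * kn p * M)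

lemma B3_rot {k p q : K3} {w M : ℝ} (h : B3 p q k w M) : B3 k p q w M := by
  obtain ⟨h1, h2, h3⟩ := h
  exact ⟨h3, h1, h2⟩

lemma B3_min3 (h : k + p + q = 0) (ha : dp (kc k) a = 0) (hb : dp (kc p) b = 0)
    (hc : dp (kc q) c = 0) (s : Bool) :
    B3 k p q ‖G3 k p q (par s k a) (par s p b) (par (!s) q c)‖
      (‖par s k a‖ * ‖par s p b‖ * ‖par (!s) q c‖) := by
  have h1 := G3_min3 h ha hb hc s
  have hk := kn_nonneg k
  have hp := kn_nonneg p
  have hq := kn_nonneg q
  have ht := kn_tri h
  set M := ‖par s k a‖ * ‖par s p b‖ * ‖par (!s) q c‖ with hM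
  have hM0 : 0 ≤ M := by positivity
  have m0 : 0 ≤ min (kn k) (kn p) := le_min hk hp
  refine ⟨h1.trans ?_, h1.trans ?_, h1.trans ?_⟩
  · have : kn q * (min (kn k) (kn p) * M) ≤ kn q * (kn p * M) := by gcongr; exact min_le_right _ _
    have h0 : 0 ≤ kn q * (kn p * M) := by positivity
    linarith
  · have : kn q * (min (kn k) (kn p) * M) ≤ kn q * (kn k * M) := by gcongr; exact min_le_left _ _
    have h0 : 0 ≤ kn q * (kn k * M) := by positivity
    linarith
  · have e : kn q * min (kn k) (kn p) ≤ 2 * (kn k * kn p) := by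
      rcases le_total (kn k) (kn p) with h' | h'
      · rw [min_eq_left h']
        nlinarith
      · rw [min_eq_right h']
        nlinarith
    calc 54 * (kn q * (min (kn k) (kn p) * M)) = 54 * ((kn q * min (kn k) (kn p)) * M) := by ring
      _ ≤ 54 * ((2 * (kn k * kn p)) * M) := by gcongr
      _ = _ := by ring

lemma B3_mixed (h : k + p + q = 0) (ha : dp (kc k) a = 0) (hb : dp (kc p) b = 0)
    (hc : dp (kc q) c = 0) {r s t : Bool} (hmix : ¬ (r = s ∧ s = t)) :
    B3 k p q ‖G3 k p q (par r k a) (par s p b) (par t q c)‖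
      (‖par r k a‖ * ‖par s p b‖ * ‖par t q c‖) := by
  by_cases hrs : r = s
  · subst hrs
    have ht : t = !r := by
      cases r <;> cases t <;> simp_all
    subst ht
    exact B3_min3 h ha hb hc r
  · by_cases hst : s = t
    · subst hst
      have hr : r = !s := by cases r <;> cases s <;> simp_all
      subst hr
      rw [G3_rot]
      have e : ‖par (!s) k a‖ * ‖par s p b‖ * ‖par s q c‖
          = ‖par s p b‖ * ‖par s q c‖ * ‖par (!s) k a‖ := by ring
      rw [e]
      exact B3_rot (B3_min3 (sum_rot h) hb hc ha s)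
    · have hr : r = t := by cases r <;> cases s <;> cases t <;> simp_all
      subst hr
      have hs : s = !r := by cases r <;> cases s <;> simp_all
      subst hs
      rw [G3_rot, G3_rot]
      have e : ‖par r k a‖ * ‖par (!r) p b‖ * ‖par r q c‖
          = ‖par r q c‖ * ‖par r k a‖ * ‖par (!r) p b‖ := by ring
      rw [e]
      exact B3_rot (B3_rot (B3_min3 (sum_rot (sum_rot h)) hc ha hb r))

end

open Classical in
/-- the size of the part of the coefficient in `X` -/
noncomputable def xi (X : Set (K3 × Bool)) (k : K3) (a : C3) : ℝ :=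
  (if (k, true) ∈ X then ‖par true k a‖ else 0) + (if (k, false) ∈ X then ‖par false k a‖ else 0)

lemma xi_nonneg (X : Set (K3 × Bool)) (k : K3) (a : C3) : 0 ≤ xi X k a := by
  unfold xi; positivity

/-- the size of both parts -/
noncomputable def bt (k : K3) (a : C3) : ℝ := ‖par true k a‖ + ‖par false k a‖

lemma bt_nonneg (k : K3) (a : C3) : 0 ≤ bt k a := by unfold bt; positivity

lemma bt_le (k : K3) (a : C3) : bt k a ≤ 3 * ‖a‖ := by
  have h1 := norm_par_le true k a
  have h2 := norm_par_le false k a
  unfold bt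
  linarith

/-- The bound of the production by one triad. -/
theorem G3_le {X : Set (K3 × Bool)} (hX : MeetsMixed X) {k p q : K3} {a b c : C3}
    (h : k + p + q = 0) (ha : dp (kc k) a = 0) (hb : dp (kc p) b = 0) (hc : dp (kc q) c = 0) :
    ‖G3 k p q a b c‖ ≤ 108 * (xi X k a * (kn p * bt p b) * (kn q * bt q c)
      + (kn k * bt k a) * xi X p b * (kn q * bt q c)
      + (kn k * bt k a) * (kn p * bt p b) * xi X q c) := by
  classical
  have hk0 := kn_nonneg k
  have hp0 := kn_nonneg p
  have hq0 := kn_nonneg q
  have x1 := xi_nonneg X k a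
  have x2 := xi_nonneg X p b
  have x3 := xi_nonneg X q c
  have b1 := bt_nonneg k a
  have b2 := bt_nonneg p b
  have b3 := bt_nonneg q c
  by_cases h0 : k = 0 ∨ p = 0 ∨ q = 0
  · rw [G3_zero h h0, norm_zero]; positivity
  push Not at h0
  obtain ⟨hk, hp, hq⟩ := h0
  -- the eight terms
  have key : ∀ r s t : Bool, ‖G3 k p q (par r k a) (par s p b) (par t q c)‖
      ≤ 108 * ((if (k, r) ∈ X then ‖par r k a‖ else 0) * (kn p * ‖par s p b‖) * (kn q * ‖par t q c‖)
        + (kn k * ‖par r k a‖) * (if (p, s) ∈ X then ‖par s p b‖ else 0) * (kn q * ‖par t q c‖)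
        + (kn k * ‖par r k a‖) * (kn p * ‖par s p b‖)
          * (if (q, t) ∈ X then ‖par t q c‖ else 0)) := by
    intro r s t
    have n1 := norm_nonneg (par r k a)
    have n2 := norm_nonneg (par s p b)
    have n3 := norm_nonneg (par t q c)
    have i1 : 0 ≤ (if (k, r) ∈ X then ‖par r k a‖ else 0) := by positivity
    have i2 : 0 ≤ (if (p, s) ∈ X then ‖par s p b‖ else 0) := by positivity
    have i3 : 0 ≤ (if (q, t) ∈ X then ‖par t q c‖ else 0) := by positivity
    have e1 : 0 ≤ (if (k, r) ∈ X then ‖par r k a‖ else 0) * (kn p * ‖par s p b‖)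
      * (kn q * ‖par t q c‖) := by positivity
    have e2 : 0 ≤ (kn k * ‖par r k a‖) * (if (p, s) ∈ X then ‖par s p b‖ else 0)
      * (kn q * ‖par t q c‖) := by positivity
    have e3 : 0 ≤ (kn k * ‖par r k a‖) * (kn p * ‖par s p b‖)
          * (if (q, t) ∈ X then ‖par t q c‖ else 0) := by positivity
    by_cases hmix : r = s ∧ s = t
    · obtain ⟨rfl, rfl⟩ := hmix
      rw [G3_homo h ha hb hc, norm_zero]
      positivity
    · by_cases hcol : crossProduct k p = 0
      · rw [G3_col h hp hq hcol ha hb hc, norm_zero]; positivity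
      · obtain ⟨c1, c2, c3⟩ := B3_mixed h ha hb hc hmix
        rcases hX k p q r s t h hcol hmix with hx | hx | hx
        · refine c1.trans ?_
          rw [if_pos hx] at e1 ⊢
          have : kn p * kn q * (‖par r k a‖ * ‖par s p b‖ * ‖par t q c‖)
            = ‖par r k a‖ * (kn p * ‖par s p b‖) * (kn q * ‖par t q c‖) := by ring
          linarith
        · refine c2.trans ?_
          rw [if_pos hx] at e2 ⊢
          have : kn q * kn k * (‖par r k a‖ * ‖par s p b‖ * ‖par t q c‖)
            = (kn k * ‖par r k a‖) * ‖par s p b‖ * (kn q * ‖par t q c‖) := by ring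
          linarith
        · refine c3.trans ?_
          rw [if_pos hx] at e3 ⊢
          have : kn k * kn p * (‖par r k a‖ * ‖par s p b‖ * ‖par t q c‖)
            = (kn k * ‖par r k a‖) * (kn p * ‖par s p b‖) * ‖par t q c‖ := by ring
          linarith
  have hsum : G3 k p q a b c
      = G3 k p q (par true k a) (par true p b) (par true q c)
      + G3 k p q (par true k a) (par true p b) (par false q c)
      + (G3 k p q (par true k a) (par false p b) (par true q c)
      + G3 k p q (par true k a) (par false p b) (par false q c))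
      + (G3 k p q (par false k a) (par true p b) (par true q c)
      + G3 k p q (par false k a) (par true p b) (par false q c)
      + (G3 k p q (par false k a) (par false p b) (par true q c)
      + G3 k p q (par false k a) (par false p b) (par false q c))) := by
    conv_lhs => rw [← par_add hk a, ← par_add hp b, ← par_add hq c]
    unfold G3
    rw [Gs_add1, Gs_add2, Gs_add2, Gs_add3, Gs_add3, Gs_add3, Gs_add3]
  rw [hsum]
  have t1 := fun x y : ℂ => norm_add_le x y
  refine (t1 _ _).trans ?_
  refine (add_le_add ((t1 _ _).trans (add_le_add ((t1 _ _).trans (add_le_add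
    (key true true true) (key true true false)))
    ((t1 _ _).trans (add_le_add (key true false true) (key true false false)))))
    ((t1 _ _).trans (add_le_add ((t1 _ _).trans (add_le_add
    (key false true true) (key false true false)))
    ((t1 _ _).trans (add_le_add (key false false true) (key false false false)))))).trans ?_
  unfold xi bt
  refine le_of_eq ?_
  ring

end Pool.Agent.X96.HT
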