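import Pool.Agent.X96.HT.Low

/-!
The pointwise bound when only the strong mixed triads have to meet the set of modes.
-/

open Complex H459R3.NS

namespace Pool.Agent.X96.HT

/-- `X` meets all strong mixed triads: those triads `a + b + c = 0` of frequencies which are not
collinear, with the same sign `s` of helicity for `a` and `b` and the opposite sign for `c`, such
that the shortest of the three frequencies is longer than `K M^θ₁`, where `M` is the length of the
longest, and `c` is longer than `K m^θ₂`, where `m` is the length of the longer one of `a` and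
`b`. -/
def MeetsStrong (K θ₁ θ₂ : ℝ) (X : Set (K3 × Bool)) : Prop :=
  ∀ (a b c : K3) (s : Bool), a + b + c = 0 → crossProduct a b ≠ 0 →
    K * max (kn a) (max (kn b) (kn c)) ^ θ₁ < min (kn a) (min (kn b) (kn c)) →
    K * max (kn a) (kn b) ^ θ₂ < kn c →
    (a, s) ∈ X ∨ (b, s) ∈ X ∨ (c, !s) ∈ X

section

variable {k p q : K3} {a b c : C3}

/-- the minority mode has a low frequency -/
lemma G3_minlow (h : k + p + q = 0) (ha : dp (kc k) a = 0) (hb : dp (kc p) b = 0)
    (hc : dp (kc q) c = 0) (s : Bool) :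
    ‖G3 k p q (par s k a) (par s p b) (par (!s) q c)‖
      ≤ 108 * (kn q ^ 2 * (‖par s k a‖ * ‖par s p b‖ * ‖par (!s) q c‖)) := by
  rw [G3_par h ha hb hc, sg_not, norm_mul]
  have e : ((kn k : ℂ) * (sg s * kn p - ((-sg s : ℝ) : ℂ) * kn q)
      + kn p * (((-sg s : ℝ) : ℂ) * kn q - sg s * kn k) + kn q * (sg s * kn k - sg s * kn p))
      = ((2 * sg s * kn q * (kn k - kn p) : ℝ) : ℂ) := by
    push_cast; ring
  rw [e, Complex.norm_real, Real.norm_eq_abs, abs_mul, abs_mul, abs_mul, abs_sg,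
    abs_of_nonneg (kn_nonneg q), abs_of_nonneg (by norm_num : (0 : ℝ) ≤ 2), mul_one]
  have h1 : |kn k - kn p| ≤ kn q := by
    rw [abs_le]
    constructor
    · have h' : q + k + p = 0 := by rw [← h]; abel
      have := kn_tri h'
      linarith
    · have h' : p + q + k = 0 := by rw [← h]; abel
      have := kn_tri h'
      linarith
  have h2 : ‖dp (par s k a) (cp (par s p b) (par (!s) q c))‖
      ≤ 6 * (‖par s k a‖ * ‖par s p b‖ * ‖par (!s) q c‖) := by
    refine (norm_dp_le _ _).trans ?_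
    have := norm_cp_le (par s p b) (par (!s) q c)
    calc 3 * (‖par s k a‖ * ‖cp (par s p b) (par (!s) q c)‖)
        ≤ 3 * (‖par s k a‖ * (2 * (‖par s p b‖ * ‖par (!s) q c‖))) := by gcongr
      _ = _ := by ring
  have hq := kn_nonneg q
  calc 2 * kn q * |kn k - kn p| * ‖dp (par s k a) (cp (par s p b) (par (!s) q c))‖
      ≤ 2 * kn q * kn q * (6 * (‖par s k a‖ * ‖par s p b‖ * ‖par (!s) q c‖)) := by gcongr
    _ = 12 * (kn q ^ 2 * (‖par s k a‖ * ‖par s p b‖ * ‖par (!s) q c‖)) := by ring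
    _ ≤ _ := by gcongr; norm_num

/-- weight of a pair with a low frequency -/
noncomputable def l1 (K θ : ℝ) (x y : K3) : ℝ := by
  classical
  exact if kn x ≤ K * kn y ^ θ then kn x * kn y else 0

/-- weight of a pair with a low frequency -/
noncomputable def l2 (K θ : ℝ) (x y : K3) : ℝ := by
  classical
  exact if kn x ≤ K * kn y ^ θ then kn x ^ 2 else 0

lemma l1_nonneg (K θ : ℝ) (x y : K3) : 0 ≤ l1 K θ x y := by
  unfold l1
  have := kn_nonneg x
  have := kn_nonneg y
  split_ifs <;> positivity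

lemma l2_nonneg (K θ : ℝ) (x y : K3) : 0 ≤ l2 K θ x y := by
  unfold l2
  split_ifs <;> positivity

/-- weight of a triad -/
noncomputable def ex (K θ₁ θ₂ : ℝ) (k p q : K3) : ℝ :=
  (l1 K θ₁ k p + l1 K θ₁ p k + l1 K θ₁ k q + l1 K θ₁ q k + l1 K θ₁ p q + l1 K θ₁ q p)
  + (l2 K θ₂ k p + l2 K θ₂ p k + l2 K θ₂ k q + l2 K θ₂ q k + l2 K θ₂ p q + l2 K θ₂ q p)

lemma ex_nonneg (K θ₁ θ₂ : ℝ) (k p q : K3) : 0 ≤ ex K θ₁ θ₂ k p q := by
  have n1 := fun x y => l1_nonneg K θ₁ x y
  have n2 := fun x y => l2_nonneg K θ₂ x y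
  unfold ex
  linarith [n1 k p, n1 p k, n1 k q, n1 q k, n1 p q, n1 q p, n2 k p, n2 p k, n2 k q, n2 q k,
    n2 p q, n2 q p]

/-- one of the first weights is large -/
lemma ex_ge1 {K θ₁ θ₂ : ℝ} (h : ¬ (K * max (kn k) (max (kn p) (kn q)) ^ θ₁
      < min (kn k) (min (kn p) (kn q)))) {w M : ℝ} (hw : B3 k p q w M) (hM : 0 ≤ M) :
    w ≤ 108 * (ex K θ₁ θ₂ k p q * M) := by
  have n1 := fun x y => l1_nonneg K θ₁ x y
  have n2 := fun x y => l2_nonneg K θ₂ x y
  obtain ⟨c1, c2, c3⟩ := hw
  have fin : ∀ y, y ≤ ex K θ₁ θ₂ k p q → w ≤ 108 * (y * M) → w ≤ 108 * (ex K θ₁ θ₂ k p q * M) := by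
    intro y hy hw'
    refine hw'.trans ?_
    gcongr
  rw [not_lt] at h
  have hl : ∀ x y, kn x ≤ K * kn y ^ θ₁ → l1 K θ₁ x y = kn x * kn y := by
    intro x y hxy
    unfold l1
    rw [if_pos hxy]
  have m := And.intro (n1 k p) (And.intro (n1 p k) (And.intro (n1 k q) (And.intro (n1 q k)
    (And.intro (n1 p q) (n1 q p)))))
  have m' := And.intro (n2 k p) (And.intro (n2 p k) (And.intro (n2 k q) (And.intro (n2 q k)
    (And.intro (n2 p q) (n2 q p)))))
  obtain ⟨m1, m2, m3, m4, m5, m6⟩ := m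
  obtain ⟨m7, m8, m9, m10, m11, m12⟩ := m'
  have o1 := le_total (kn k) (kn p)
  have o2 := le_total (kn k) (kn q)
  have o3 := le_total (kn p) (kn q)
  rcases o1 with o1 | o1 <;> rcases o2 with o2 | o2 <;> rcases o3 with o3 | o3
  -- k ≤ p ≤ q
  · rw [max_eq_right o3, max_eq_right o2, min_eq_left o3, min_eq_left o1] at h
    refine fin (l1 K θ₁ k q) (by unfold ex; linarith) ?_
    rw [hl _ _ h]
    calc w ≤ _ := c2
      _ = _ := by ring
  -- k ≤ q ≤ p
  · rw [max_eq_left o3, max_eq_right o1, min_eq_right o3, min_eq_left o2] at h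
    refine fin (l1 K θ₁ k p) (by unfold ex; linarith) ?_
    rw [hl _ _ h]
    exact c3
  -- k ≤ p ≤ q ≤ k
  · rw [max_eq_right o3, max_eq_left o2, min_eq_left o3, min_eq_left o1] at h
    have : kn k ≤ K * kn q ^ θ₁ := by
      have e : kn q = kn k := le_antisymm o2 (o1.trans o3)
      rw [e]; exact h
    refine fin (l1 K θ₁ k q) (by unfold ex; linarith) ?_
    rw [hl _ _ this]
    calc w ≤ _ := c2
      _ = _ := by ring
  -- q ≤ k ≤ p
  · rw [max_eq_left o3, max_eq_right o1, min_eq_right o3, min_eq_right o2] at h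
    refine fin (l1 K θ₁ q p) (by unfold ex; linarith) ?_
    rw [hl _ _ h]
    calc w ≤ _ := c1
      _ = _ := by ring
  -- p ≤ k ≤ q
  · rw [max_eq_right o3, max_eq_right o2, min_eq_left o3, min_eq_right o1] at h
    refine fin (l1 K θ₁ p q) (by unfold ex; linarith) ?_
    rw [hl _ _ h]
    exact c1
  -- k ≤ q ≤ p ≤ k
  · rw [max_eq_left o3, max_eq_left o1, min_eq_right o3, min_eq_left o2] at h
    have : kn k ≤ K * kn p ^ θ₁ := by
      have e : kn p = kn k := le_antisymm o1 (o2.trans o3)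
      rw [e]; exact h
    refine fin (l1 K θ₁ k p) (by unfold ex; linarith) ?_
    rw [hl _ _ this]
    exact c3
  -- p ≤ q ≤ k
  · rw [max_eq_right o3, max_eq_left o2, min_eq_left o3, min_eq_right o1] at h
    refine fin (l1 K θ₁ p k) (by unfold ex; linarith) ?_
    rw [hl _ _ h]
    calc w ≤ _ := c3
      _ = _ := by ring
  -- q ≤ p ≤ k
  · rw [max_eq_left o3, max_eq_left o1, min_eq_right o3, min_eq_right o2] at h
    refine fin (l1 K θ₁ q k) (by unfold ex; linarith) ?_
    rw [hl _ _ h]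
    exact c2

/-- one of the second weights is large -/
lemma ex_ge2 {K θ₁ θ₂ : ℝ} (h : ¬ (K * max (kn k) (kn p) ^ θ₂ < kn q)) {w M : ℝ}
    (hw : w ≤ 108 * (kn q ^ 2 * M)) (hM : 0 ≤ M) :
    w ≤ 108 * (ex K θ₁ θ₂ k p q * M) := by
  have n1 := fun x y => l1_nonneg K θ₁ x y
  have n2 := fun x y => l2_nonneg K θ₂ x y
  have m := And.intro (n1 k p) (And.intro (n1 p k) (And.intro (n1 k q) (And.intro (n1 q k)
    (And.intro (n1 p q) (n1 q p)))))
  have m' := And.intro (n2 k p) (And.intro (n2 p k) (And.intro (n2 k q) (And.intro (n2 q k)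
    (And.intro (n2 p q) (n2 q p)))))
  obtain ⟨m1, m2, m3, m4, m5, m6⟩ := m
  obtain ⟨m7, m8, m9, m10, m11, m12⟩ := m'
  have hl : ∀ x y, kn x ≤ K * kn y ^ θ₂ → l2 K θ₂ x y = kn x ^ 2 := by
    intro x y hxy
    unfold l2
    rw [if_pos hxy]
  rw [not_lt] at h
  have key : kn q ^ 2 ≤ ex K θ₁ θ₂ k p q := by
    rcases le_total (kn k) (kn p) with o | o
    · rw [max_eq_right o] at h
      rw [← hl q p h]
      unfold ex; linarith
    · rw [max_eq_left o] at h
      rw [← hl q k h]
      unfold ex; linarith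
  refine hw.trans ?_
  gcongr

lemma ex_rot (K θ₁ θ₂ : ℝ) (k p q : K3) : ex K θ₁ θ₂ k p q = ex K θ₁ θ₂ p q k := by
  unfold ex; ring

/-- the bounds for one triad and one choice of signs -/
def Alt (K θ₁ θ₂ : ℝ) (X : Set (K3 × Bool)) (k p q : K3) (r s t : Bool) (w M : ℝ) : Prop :=
  w ≤ 108 * (ex K θ₁ θ₂ k p q * M) ∨ (k, r) ∈ X ∨ (p, s) ∈ X ∨ (q, t) ∈ X

lemma Alt_rot {K θ₁ θ₂ : ℝ} {X : Set (K3 × Bool)} {r s t : Bool} {w M : ℝ}
    (h : Alt K θ₁ θ₂ X p q k s t r w M) : Alt K θ₁ θ₂ X k p q r s t w M := by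
  unfold Alt at *
  rw [ex_rot]
  tauto

lemma Alt_min3 {K θ₁ θ₂ : ℝ} {X : Set (K3 × Bool)} (hX : MeetsStrong K θ₁ θ₂ X)
    (h : k + p + q = 0) (hcol : crossProduct k p ≠ 0) (ha : dp (kc k) a = 0) (hb : dp (kc p) b = 0)
    (hc : dp (kc q) c = 0) (s : Bool) :
    Alt K θ₁ θ₂ X k p q s s (!s) ‖G3 k p q (par s k a) (par s p b) (par (!s) q c)‖
      (‖par s k a‖ * ‖par s p b‖ * ‖par (!s) q c‖) := by
  by_cases h1 : K * max (kn k) (max (kn p) (kn q)) ^ θ₁ < min (kn k) (min (kn p) (kn q))
  · by_cases h2 : K * max (kn k) (kn p) ^ θ₂ < kn q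
    · exact Or.inr (hX k p q s h hcol h1 h2)
    · exact Or.inl (ex_ge2 h2 (G3_minlow h ha hb hc s) (by positivity))
  · exact Or.inl (ex_ge1 h1 (B3_min3 h ha hb hc s) (by positivity))

lemma cross_rot (h : k + p + q = 0) : crossProduct p q = crossProduct k p := by
  have : q = -(k + p) := by rw [eq_neg_iff_add_eq_zero, add_comm]; exact h
  subst this
  funext j
  fin_cases j <;> simp [cross_apply] <;> ring

lemma Alt_mixed {K θ₁ θ₂ : ℝ} {X : Set (K3 × Bool)} (hX : MeetsStrong K θ₁ θ₂ X)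
    (h : k + p + q = 0) (hcol : crossProduct k p ≠ 0) (ha : dp (kc k) a = 0) (hb : dp (kc p) b = 0)
    (hc : dp (kc q) c = 0) {r s t : Bool} (hmix : ¬ (r = s ∧ s = t)) :
    Alt K θ₁ θ₂ X k p q r s t ‖G3 k p q (par r k a) (par s p b) (par t q c)‖
      (‖par r k a‖ * ‖par s p b‖ * ‖par t q c‖) := by
  by_cases hrs : r = s
  · subst hrs
    have ht : t = !r := by
      cases r <;> cases t <;> simp_all
    subst ht
    exact Alt_min3 hX h hcol ha hb hc r
  · by_cases hst : s = t
    · subst hst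
      have hr : r = !s := by cases r <;> cases s <;> simp_all
      subst hr
      rw [G3_rot]
      have e : ‖par (!s) k a‖ * ‖par s p b‖ * ‖par s q c‖
          = ‖par s p b‖ * ‖par s q c‖ * ‖par (!s) k a‖ := by ring
      rw [e]
      refine Alt_rot (Alt_min3 hX (sum_rot h) ?_ hb hc ha s)
      rw [cross_rot h]; exact hcol
    · have hr : r = t := by cases r <;> cases s <;> cases t <;> simp_all
      subst hr
      have hs : s = !r := by cases r <;> cases s <;> simp_all
      subst hs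
      rw [G3_rot, G3_rot]
      have e : ‖par r k a‖ * ‖par (!r) p b‖ * ‖par r q c‖
          = ‖par r q c‖ * ‖par r k a‖ * ‖par (!r) p b‖ := by ring
      rw [e]
      refine Alt_rot (Alt_rot (Alt_min3 hX (sum_rot (sum_rot h)) ?_ hc ha hb r))
      rw [cross_rot (sum_rot h), cross_rot h]; exact hcol

end

/-- The bound of the production by one triad. -/
theorem G3_le2 {K θ₁ θ₂ : ℝ} {X : Set (K3 × Bool)} (hX : MeetsStrong K θ₁ θ₂ X) {k p q : K3}
    {a b c : C3}
    (h : k + p + q = 0) (ha : dp (kc k) a = 0) (hb : dp (kc p) b = 0) (hc : dp (kc q) c = 0) :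
    ‖G3 k p q a b c‖ ≤ 108 * (xi X k a * (kn p * bt p b) * (kn q * bt q c)
      + (kn k * bt k a) * xi X p b * (kn q * bt q c)
      + (kn k * bt k a) * (kn p * bt p b) * xi X q c
      + ex K θ₁ θ₂ k p q * (bt k a * bt p b * bt q c)) := by
  classical
  have hk0 := kn_nonneg k
  have hp0 := kn_nonneg p
  have hq0 := kn_nonneg q
  have x1 := xi_nonneg X k a
  have x2 := xi_nonneg X p b
  have x3 := xi_nonneg X q c
  have b1 := bt_nonneg k a
  have b2 := bt_nonneg p b
  have b3 := bt_nonneg q c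
  have hex := ex_nonneg K θ₁ θ₂ k p q
  by_cases h0 : k = 0 ∨ p = 0 ∨ q = 0
  · rw [G3_zero h h0, norm_zero]; positivity
  push Not at h0
  obtain ⟨hk, hp, hq⟩ := h0
  -- the eight terms
  have key : ∀ r s t : Bool, ‖G3 k p q (par r k a) (par s p b) (par t q c)‖
      ≤ 108 * ((if (k, r) ∈ X then ‖par r k a‖ else 0) * (kn p * ‖par s p b‖) * (kn q * ‖par t q c‖)
        + (kn k * ‖par r k a‖) * (if (p, s) ∈ X then ‖par s p b‖ else 0) * (kn q * ‖par t q c‖)
        + (kn k * ‖par r k a‖) * (kn p * ‖par s p b‖)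
          * (if (q, t) ∈ X then ‖par t q c‖ else 0)
        + ex K θ₁ θ₂ k p q * (‖par r k a‖ * ‖par s p b‖ * ‖par t q c‖)) := by
    intro r s t
    have n1 := norm_nonneg (par r k a)
    have n2 := norm_nonneg (par s p b)
    have n3 := norm_nonneg (par t q c)
    have i1 : 0 ≤ (if (k, r) ∈ X then ‖par r k a‖ else 0) := by positivity
    have i2 : 0 ≤ (if (p, s) ∈ X then ‖par s p b‖ else 0) := by positivity
    have i3 : 0 ≤ (if (q, t) ∈ X then ‖par t q c‖ else 0) := by positivity
    have e1 : 0 ≤ (if (k, r) ∈ X then ‖par r k a‖ else 0) * (kn p * ‖par s p b‖)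
      * (kn q * ‖par t q c‖) := by positivity
    have e2 : 0 ≤ (kn k * ‖par r k a‖) * (if (p, s) ∈ X then ‖par s p b‖ else 0)
      * (kn q * ‖par t q c‖) := by positivity
    have e3 : 0 ≤ (kn k * ‖par r k a‖) * (kn p * ‖par s p b‖)
          * (if (q, t) ∈ X then ‖par t q c‖ else 0) := by positivity
    have e4 : 0 ≤ ex K θ₁ θ₂ k p q * (‖par r k a‖ * ‖par s p b‖ * ‖par t q c‖) := by positivity
    by_cases hmix : r = s ∧ s = t
    · obtain ⟨rfl, rfl⟩ := hmix
      rw [G3_homo h ha hb hc, norm_zero]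
      positivity
    · by_cases hcol : crossProduct k p = 0
      · rw [G3_col h hp hq hcol ha hb hc, norm_zero]; positivity
      · obtain ⟨c1, c2, c3⟩ := B3_mixed h ha hb hc hmix
        rcases Alt_mixed hX h hcol ha hb hc hmix with hx | hx | hx | hx
        · refine hx.trans ?_
          linarith
        · refine c1.trans ?_
          rw [if_pos hx] at e1 ⊢
          have : kn p * kn q * (‖par r k a‖ * ‖par s p b‖ * ‖par t q c‖)
            = ‖par r k a‖ * (kn p * ‖par s p b‖) * (kn q * ‖par t q c‖) := by ring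
          linarith
        · refine c2.trans ?_
          rw [if_pos hx] at e2 ⊢
          have : kn q * kn k * (‖par r k a‖ * ‖par s p b‖ * ‖par t q c‖)
            = (kn k * ‖par r k a‖) * ‖par s p b‖ * (kn q * ‖par t q c‖) := by ring
          linarith
        · refine c3.trans ?_
          rw [if_pos hx] at e3 ⊢
          have : kn k * kn p * (‖par r k a‖ * ‖par s p b‖ * ‖par t q c‖)
            = (kn k * ‖par r k a‖) * (kn p * ‖par s p b‖) * ‖par t q c‖ := by ring
          linarith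
  have hsum : G3 k p q a b c
      = G3 k p q (par true k a) (par true p b) (par true q c)
      + G3 k p q (par true k a) (par true p b) (par false q c)
      + (G3 k p q (par true k a) (par false p b) (par true q c)
      + G3 k p q (par true k a) (par false p b) (par false q c))
      + (G3 k p q (par false k a) (par true p b) (par true q c)
      + G3 k p q (par false k a) (par true p b) (par false q c)
      + (G3 k p q (par false k a) (par false p b) (par true q c)
      + G3 k p q (par false k a) (par false p b) (par false q c))) := by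
    conv_lhs => rw [← par_add hk a, ← par_add hp b, ← par_add hq c]
    unfold G3
    rw [Gs_add1, Gs_add2, Gs_add2, Gs_add3, Gs_add3, Gs_add3, Gs_add3]
  rw [hsum]
  have t1 := fun x y : ℂ => norm_add_le x y
  refine (t1 _ _).trans ?_
  refine (add_le_add ((t1 _ _).trans (add_le_add ((t1 _ _).trans (add_le_add
    (key true true true) (key true true false)))
    ((t1 _ _).trans (add_le_add (key true false true) (key true false false)))))
    ((t1 _ _).trans (add_le_add ((t1 _ _).trans (add_le_add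
    (key false true true) (key false true false)))
    ((t1 _ _).trans (add_le_add (key false false true) (key false false false)))))).trans ?_
  unfold xi bt
  refine le_of_eq ?_
  ring

end Pool.Agent.X96.HT
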