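import Pool.Agent.X96.HT.Crit

/-!
The scale of Sobolev norms: splitting a part of the modes into low and high frequencies.
-/

open MeasureTheory Set Filter Topology
open scoped ContDiff
open H459R3.NS

namespace Pool.Agent.X96.HT

/-- `m^a ≤ (m^{a+1} - (m-1)^{a+1}) / min 1 (a+1)` -/
lemma pow_diff {a : ℝ} (ha : -1 < a) {m : ℕ} (hm : 1 ≤ m) :
    min 1 (a + 1) * (m : ℝ) ^ a ≤ (m : ℝ) ^ (a + 1) - ((m - 1 : ℕ) : ℝ) ^ (a + 1) := by
  have hm0 : (0 : ℝ) < m := by exact_mod_cast hm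
  have hm1 : (1 : ℝ) ≤ m := by exact_mod_cast hm
  have hc : ((m - 1 : ℕ) : ℝ) = m - 1 := by push_cast [Nat.cast_sub hm]; ring
  have hd0 : (0 : ℝ) ≤ m - 1 := by linarith
  rw [hc]
  have e1 : (m : ℝ) - 1 = m * (1 + -(1 / m)) := by field_simp; ring
  have h1m : (1 : ℝ) / m ≤ 1 := by rw [div_le_one hm0]; exact hm1
  have h1m0 : (0 : ℝ) ≤ 1 / m := by positivity
  have e2 : ((m : ℝ) - 1) ^ (a + 1) = (m : ℝ) ^ (a + 1) * (1 + -(1 / (m : ℝ))) ^ (a + 1) := by
    rw [e1, Real.mul_rpow hm0.le (by linarith)]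
  have key : (1 + -(1 / (m : ℝ))) ^ (a + 1) ≤ 1 - min 1 (a + 1) * (1 / m) := by
    rcases le_total (a + 1) 1 with h | h
    · rw [min_eq_right h]
      have := rpow_one_add_le_one_add_mul_self (s := -(1 / (m : ℝ))) (by linarith)
        (p := a + 1) (by linarith) h
      linarith
    · rw [min_eq_left h]
      have h3 : (1 + -(1 / (m : ℝ))) ^ (a + 1) ≤ (1 + -(1 / (m : ℝ))) ^ (1 : ℝ) :=
        Real.rpow_le_rpow_of_exponent_ge' (by linarith) (by linarith) zero_le_one h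
      rw [Real.rpow_one] at h3
      linarith
  have hp : 0 ≤ (m : ℝ) ^ (a + 1) := by positivity
  have e3 : (m : ℝ) ^ (a + 1) = m ^ a * m := by rw [Real.rpow_add hm0, Real.rpow_one]
  rw [e2]
  calc min 1 (a + 1) * (m : ℝ) ^ a = (m : ℝ) ^ (a + 1) * (min 1 (a + 1) * (1 / m)) := by
        rw [e3]; field_simp
    _ = (m : ℝ) ^ (a + 1) - (m : ℝ) ^ (a + 1) * (1 - min 1 (a + 1) * (1 / m)) := by ring
    _ ≤ _ := by gcongr

lemma sum_pow {a : ℝ} (ha : -1 < a) (L : ℕ) :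
    min 1 (a + 1) * ∑ m ∈ Finset.Icc 1 L, (m : ℝ) ^ a ≤ (L : ℝ) ^ (a + 1) := by
  induction L with
  | zero =>
    simp only [Finset.Icc_eq_empty_of_lt (Nat.zero_lt_one), Finset.sum_empty, mul_zero]
    positivity
  | succ L ih =>
    rw [Finset.sum_Icc_succ_top (by omega), mul_add]
    have := pow_diff ha (m := L + 1) (by omega)
    simp only [Nat.add_sub_cancel] at this
    linarith

lemma card_shell (m : ℕ) (hm : 1 ≤ m) (F : Finset K3) (hF : ∀ q ∈ F, N q = m) :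
    (F.card : ℝ) ≤ 26 * m ^ 2 := by
  have h1 : F ⊆ (finite_cube m).toFinset \ (finite_cube (m - 1)).toFinset := by
    intro q hq
    rw [Finset.mem_sdiff, Set.Finite.mem_toFinset, Set.Finite.mem_toFinset, mem_setOf_eq,
      mem_setOf_eq, hF q hq]
    omega
  have h2 : (finite_cube (m - 1)).toFinset ⊆ (finite_cube m).toFinset := by
    intro q hq
    rw [Set.Finite.mem_toFinset, mem_setOf_eq] at hq ⊢
    omega
  have h3 := Finset.card_le_card h1
  rw [Finset.card_sdiff_of_subset h2] at h3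
  have h4 := Finset.card_le_card h2
  have h5 : (F.card : ℝ) ≤ ((finite_cube m).toFinset.card : ℝ)
      - ((finite_cube (m - 1)).toFinset.card : ℝ) := by
    have : (F.card : ℝ) ≤ (((finite_cube m).toFinset.card
      - (finite_cube (m - 1)).toFinset.card : ℕ) : ℝ) := by exact_mod_cast h3
    rwa [Nat.cast_sub h4] at this
  rw [card_cube, card_cube] at h5
  have hm1 : (1 : ℝ) ≤ m := by exact_mod_cast hm
  have hc : ((m - 1 : ℕ) : ℝ) = m - 1 := by push_cast [Nat.cast_sub hm]; ring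
  rw [hc] at h5
  nlinarith

/-- `∑_{0 < N k ≤ L} (N k)^{-b} ≤ C L^{3-b}` for `b < 3` -/
lemma cube_pow {b : ℝ} (hb : b < 3) (L : ℕ) (F : Finset K3)
    (hF : ∀ q ∈ F, 0 < N q ∧ N q ≤ L) :
    ∑ q ∈ F, (N q : ℝ) ^ (-b) ≤ 26 / min 1 (3 - b) * (L : ℝ) ^ (3 - b) := by
  have hmin : 0 < min 1 (3 - b) := lt_min one_pos (by linarith)
  have e1 : ∑ q ∈ F, (N q : ℝ) ^ (-b)
      = ∑ m ∈ Finset.Icc 1 L, ∑ q ∈ F.filter (fun q => N q = m), (N q : ℝ) ^ (-b) :=
    (Finset.sum_fiberwise_of_maps_to (fun q hq => by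
      rw [Finset.mem_Icc]; exact hF q hq) _).symm
  have e2 : ∀ m ∈ Finset.Icc 1 L, ∑ q ∈ F.filter (fun q => N q = m), (N q : ℝ) ^ (-b)
      ≤ 26 * (m : ℝ) ^ (2 - b) := by
    intro m hm
    rw [Finset.mem_Icc] at hm
    have hm0 : (0 : ℝ) < m := by exact_mod_cast hm.1
    have h1 : ∑ q ∈ F.filter (fun q => N q = m), (N q : ℝ) ^ (-b)
        = (F.filter (fun q => N q = m)).card * (m : ℝ) ^ (-b) := by
      rw [← nsmul_eq_mul, ← Finset.sum_const]
      refine Finset.sum_congr rfl fun q hq => ?_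
      rw [(Finset.mem_filter.1 hq).2]
    rw [h1]
    have h2 := card_shell m hm.1 (F.filter (fun q => N q = m))
      fun q hq => (Finset.mem_filter.1 hq).2
    calc ((F.filter (fun q => N q = m)).card : ℝ) * (m : ℝ) ^ (-b)
        ≤ 26 * m ^ 2 * (m : ℝ) ^ (-b) := by gcongr
      _ = _ := by
        rw [show (2 : ℝ) - b = 2 + -b by ring, Real.rpow_add hm0]
        norm_num
        ring
  rw [e1]
  refine (Finset.sum_le_sum e2).trans ?_
  rw [← Finset.mul_sum]
  have h3 := sum_pow (a := 2 - b) (by linarith) L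
  rw [show 2 - b + 1 = 3 - b by ring] at h3
  have h4 : ∑ m ∈ Finset.Icc 1 L, (m : ℝ) ^ (2 - b) ≤ (L : ℝ) ^ (3 - b) / min 1 (3 - b) := by
    rw [le_div_iff₀ hmin]; linarith
  calc 26 * ∑ m ∈ Finset.Icc 1 L, (m : ℝ) ^ (2 - b)
      ≤ 26 * ((L : ℝ) ^ (3 - b) / min 1 (3 - b)) := by gcongr
    _ = _ := by ring

variable {U : K3 → C3}

/-- summability of the weighted sums with real exponents -/
lemma summable_ind_rpow (hU : RapV U) (W : Set (K3 × Bool)) {b : ℝ} (hb0 : 0 < b) (hb : b ≤ 3) :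
    Summable (W.indicator fun m : K3 × Bool => kn m.1 ^ b * ‖par m.2 m.1 (U m.1)‖ ^ 2) := by
  have hall := summable_ind hU univ 3
  refine Summable.of_nonneg_of_le (fun m => ?_) (fun m => ?_) hall
  · exact Set.indicator_nonneg (fun m _ => mul_nonneg (Real.rpow_nonneg (kn_nonneg _) _)
      (sq_nonneg _)) _
  · rw [indicator_univ]
    refine (Set.indicator_le_self' (fun m _ => mul_nonneg (Real.rpow_nonneg (kn_nonneg _) _)
      (sq_nonneg _)) _).trans ?_
    by_cases hm : m.1 = 0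
    · rw [hm, par_zero]; simp
    · have h1 : 1 ≤ kn m.1 := by
        refine le_trans ?_ (N_le_kn m.1)
        have : N m.1 ≠ 0 := fun h => hm (N_eq_zero.1 h)
        exact_mod_cast Nat.pos_of_ne_zero this
      have h2 : kn m.1 ^ b ≤ kn m.1 ^ 3 := by
        calc kn m.1 ^ b ≤ kn m.1 ^ (3 : ℝ) := Real.rpow_le_rpow_of_exponent_le h1 hb
          _ = kn m.1 ^ 3 := by norm_cast
      gcongr

/-- Splitting a part of the modes. -/
lemma split_modes (hU : RapV U) {b h δ : ℝ} (hb1 : 1 < b) (hb3 : b < 3) (hh : 0 ≤ h) (hδ : 0 < δ)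
    (E : Set (K3 × Bool))
    (hE : ∑' m : K3 × Bool, E.indicator (fun m => kn m.1 ^ b * ‖par m.2 m.1 (U m.1)‖ ^ 2) m
      ≤ h ^ 2) :
    ∃ E1 E2 : Set (K3 × Bool), E ⊆ E1 ∪ E2 ∧
      ∑' m : K3 × Bool, E1.indicator (fun m => ‖par m.2 m.1 (U m.1)‖) m
        ≤ Real.sqrt (52 / min 1 (3 - b) * (h ^ 2 * ((h / δ) ^ 2) ^ ((3 - b) / (b - 1)))) ∧
      ∑' m : K3 × Bool, E2.indicator (fun m => kn m.1 * ‖par m.2 m.1 (U m.1)‖ ^ 2) m
        ≤ δ ^ 2 := by
  classical
  set Λ : ℝ := ((h / δ) ^ 2) ^ (1 / (b - 1)) with hΛ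
  have hΛ0 : 0 ≤ Λ := Real.rpow_nonneg (sq_nonneg _) _
  have hb' : 0 < b - 1 := by linarith
  have hmin : 0 < min 1 (3 - b) := lt_min one_pos (by linarith)
  set x : K3 × Bool → ℝ := fun m => ‖par m.2 m.1 (U m.1)‖ with hx
  have hx0 : ∀ m, 0 ≤ x m := fun m => norm_nonneg _
  have hs := summable_ind_rpow hU E (by linarith : 0 < b) hb3.le
  refine ⟨{m ∈ E | 0 < N m.1 ∧ (N m.1 : ℝ) ≤ Λ}, {m ∈ E | ¬ (0 < N m.1 ∧ (N m.1 : ℝ) ≤ Λ)},
    fun m hm => ?_, ?_, ?_⟩
  · by_cases h : 0 < N m.1 ∧ (N m.1 : ℝ) ≤ Λ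
    · exact Or.inl ⟨hm, h⟩
    · exact Or.inr ⟨hm, h⟩
  · -- low frequencies: Cauchy-Schwarz over finite sets
    refine Real.tsum_le_of_sum_le (fun m => Set.indicator_nonneg (fun m _ => hx0 m) _)
      fun F => ?_
    set G := F.filter fun m => m ∈ E ∧ 0 < N m.1 ∧ (N m.1 : ℝ) ≤ Λ with hG
    have e1 : ∑ m ∈ F, {m ∈ E | 0 < N m.1 ∧ (N m.1 : ℝ) ≤ Λ}.indicator x m = ∑ m ∈ G, x m := by
      rw [hG, Finset.sum_filter]
      refine Finset.sum_congr rfl fun m _ => ?_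
      rw [Set.indicator_apply]
      rfl
    rw [e1]
    have hGm : ∀ m ∈ G, m ∈ E ∧ 0 < N m.1 ∧ (N m.1 : ℝ) ≤ Λ := fun m hm =>
      (Finset.mem_filter.1 hm).2
    refine Real.le_sqrt_of_sq_le ?_
    have h1 : (∑ m ∈ G, x m) ^ 2 ≤ (∑ m ∈ G, kn m.1 ^ (-b)) * ∑ m ∈ G, kn m.1 ^ b * x m ^ 2 := by
      refine Finset.sum_sq_le_sum_mul_sum_of_sq_le_mul G (fun m _ => Real.rpow_nonneg
        (kn_nonneg _) _) (fun m _ => mul_nonneg (Real.rpow_nonneg (kn_nonneg _) _)
        (sq_nonneg _)) fun m hm => ?_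
      have hk : 0 < kn m.1 := by
        refine lt_of_lt_of_le ?_ (N_le_kn m.1)
        exact_mod_cast (hGm m hm).2.1
      rw [← mul_assoc, ← Real.rpow_add hk]
      simp
    have h2 : ∑ m ∈ G, kn m.1 ^ b * x m ^ 2 ≤ h ^ 2 := by
      refine le_trans ?_ hE
      refine le_trans (le_of_eq ?_) (hs.sum_le_tsum G fun m _ => Set.indicator_nonneg
        (fun m _ => mul_nonneg (Real.rpow_nonneg (kn_nonneg _) _) (sq_nonneg _)) _)
      refine Finset.sum_congr rfl fun m hm => ?_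
      rw [Set.indicator_of_mem (hGm m hm).1]
    have h3 : ∑ m ∈ G, kn m.1 ^ (-b) ≤ 52 / min 1 (3 - b) * Λ ^ (3 - b) := by
      have a1 : ∑ m ∈ G, kn m.1 ^ (-b) ≤ ∑ m ∈ G, (N m.1 : ℝ) ^ (-b) := by
        refine Finset.sum_le_sum fun m hm => ?_
        refine Real.rpow_le_rpow_of_nonpos ?_ (N_le_kn m.1) (by linarith)
        exact_mod_cast (hGm m hm).2.1
      have a2 : ∀ s : Bool, ∑ m ∈ G.filter (fun m => m.2 = s), (N m.1 : ℝ) ^ (-b)
          ≤ 26 / min 1 (3 - b) * Λ ^ (3 - b) := by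
        intro s
        have a3 : ∑ m ∈ G.filter (fun m => m.2 = s), (N m.1 : ℝ) ^ (-b)
            = ∑ q ∈ (G.filter (fun m => m.2 = s)).image Prod.fst, (N q : ℝ) ^ (-b) := by
          rw [Finset.sum_image]
          intro m hm m' hm' he
          have h1 := (Finset.mem_filter.1 hm).2
          have h2 := (Finset.mem_filter.1 hm').2
          exact Prod.ext he (h1.trans h2.symm)
        rw [a3]
        refine (cube_pow hb3 ⌊Λ⌋₊ _ fun q hq => ?_).trans ?_
        · obtain ⟨m, hm, rfl⟩ := Finset.mem_image.1 hq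
          have := hGm m (Finset.mem_filter.1 hm).1
          exact ⟨this.2.1, Nat.le_floor this.2.2⟩
        · have := Nat.floor_le hΛ0
          have h3b : 0 ≤ 3 - b := by linarith
          gcongr
      have a4 : ∑ m ∈ G, (N m.1 : ℝ) ^ (-b)
          = ∑ m ∈ G.filter (fun m => m.2 = true), (N m.1 : ℝ) ^ (-b)
            + ∑ m ∈ G.filter (fun m => m.2 = false), (N m.1 : ℝ) ^ (-b) := by
        rw [← Finset.sum_filter_add_sum_filter_not G (fun m => m.2 = true)]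
        congr 2
        ext m
        simp
      have a5 := a2 true
      have a6 := a2 false
      calc ∑ m ∈ G, kn m.1 ^ (-b) ≤ _ := a1
        _ ≤ 26 / min 1 (3 - b) * Λ ^ (3 - b) + 26 / min 1 (3 - b) * Λ ^ (3 - b) := by
          rw [a4]; exact add_le_add a5 a6
        _ = _ := by ring
    have h4 : Λ ^ (3 - b) = ((h / δ) ^ 2) ^ ((3 - b) / (b - 1)) := by
      rw [hΛ, ← Real.rpow_mul (sq_nonneg _)]
      congr 1
      ring
    rw [← h4]
    have h5 : 0 ≤ Λ ^ (3 - b) := Real.rpow_nonneg hΛ0 _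
    calc (∑ m ∈ G, x m) ^ 2 ≤ (∑ m ∈ G, kn m.1 ^ (-b)) * ∑ m ∈ G, kn m.1 ^ b * x m ^ 2 := h1
      _ ≤ (52 / min 1 (3 - b) * Λ ^ (3 - b)) * h ^ 2 := by
        refine mul_le_mul h3 h2 (Finset.sum_nonneg fun m _ => mul_nonneg
          (Real.rpow_nonneg (kn_nonneg _) _) (sq_nonneg _)) (by positivity)
      _ = _ := by ring
  · -- high frequencies
    have hterm : ∀ m, h ^ 2 * ({m ∈ E | ¬ (0 < N m.1 ∧ (N m.1 : ℝ) ≤ Λ)}.indicator
        (fun m => kn m.1 * x m ^ 2) m) ≤ δ ^ 2 * E.indicator (fun m => kn m.1 ^ b * x m ^ 2) m := by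
      intro m
      have hrn : 0 ≤ E.indicator (fun m => kn m.1 ^ b * x m ^ 2) m :=
        Set.indicator_nonneg (fun m _ => mul_nonneg (Real.rpow_nonneg (kn_nonneg _) _)
          (sq_nonneg _)) _
      by_cases hm : m ∈ {m ∈ E | ¬ (0 < N m.1 ∧ (N m.1 : ℝ) ≤ Λ)}
      · rw [Set.indicator_of_mem hm, Set.indicator_of_mem hm.1]
        rcases Nat.eq_zero_or_pos (N m.1) with h0 | h0
        · have : x m = 0 := by
            simp only [hx]
            rw [N_eq_zero.1 h0, par_zero, norm_zero]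
          rw [this]; simp
        · have h1 : Λ < N m.1 := by
            by_contra hc
            exact hm.2 ⟨h0, not_lt.1 hc⟩
          have h2 : Λ ≤ kn m.1 := h1.le.trans (N_le_kn _)
          have hk : 0 < kn m.1 := lt_of_lt_of_le (by exact_mod_cast h0) (N_le_kn m.1)
          have h3 : (h / δ) ^ 2 ≤ kn m.1 ^ (b - 1) := by
            calc (h / δ) ^ 2 = Λ ^ (b - 1) := by
                  rw [hΛ, ← Real.rpow_mul (sq_nonneg _), one_div_mul_cancel hb'.ne',
                    Real.rpow_one]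
              _ ≤ kn m.1 ^ (b - 1) := Real.rpow_le_rpow hΛ0 h2 hb'.le
          have h4 : kn m.1 ^ b = kn m.1 ^ (b - 1) * kn m.1 := by
            rw [Real.rpow_sub hk, Real.rpow_one]; field_simp
          have h5 : h ^ 2 ≤ δ ^ 2 * kn m.1 ^ (b - 1) := by
            rw [div_pow, div_le_iff₀ (by positivity)] at h3
            linarith
          show h ^ 2 * (kn m.1 * x m ^ 2) ≤ δ ^ 2 * (kn m.1 ^ b * x m ^ 2)
          rw [h4]
          calc h ^ 2 * (kn m.1 * x m ^ 2) ≤ (δ ^ 2 * kn m.1 ^ (b - 1)) * (kn m.1 * x m ^ 2) := by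
                gcongr
            _ = _ := by ring
      · rw [Set.indicator_of_notMem hm, mul_zero]
        positivity
    have hs2 : Summable ({m ∈ E | ¬ (0 < N m.1 ∧ (N m.1 : ℝ) ≤ Λ)}.indicator
        (fun m => kn m.1 * x m ^ 2)) := by
      have := summable_ind hU {m ∈ E | ¬ (0 < N m.1 ∧ (N m.1 : ℝ) ≤ Λ)} 1
      simpa using this
    rcases hh.eq_or_lt with h0 | h0
    · -- h = 0: everything vanishes
      have hz : ∀ m ∈ E, x m = 0 := by
        intro m hm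
        by_cases hm0 : m.1 = 0
        · simp only [hx]; rw [hm0, par_zero, norm_zero]
        have h1 : E.indicator (fun m => kn m.1 ^ b * x m ^ 2) m ≤ 0 := by
          refine le_trans (hs.le_tsum m fun j _ => Set.indicator_nonneg
            (fun m _ => mul_nonneg (Real.rpow_nonneg (kn_nonneg _) _) (sq_nonneg _)) _) ?_
          refine hE.trans (le_of_eq ?_)
          rw [← h0]; norm_num
        rw [Set.indicator_of_mem hm] at h1
        have hk : 0 < kn m.1 ^ b := Real.rpow_pos_of_pos (kn_pos hm0) _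
        have h2 : x m ^ 2 ≤ 0 := by
          by_contra hc
          have := mul_pos hk (not_le.1 hc)
          linarith
        exact pow_eq_zero_iff (two_ne_zero) |>.1 (le_antisymm h2 (sq_nonneg _))
      have : ∀ m, {m ∈ E | ¬ (0 < N m.1 ∧ (N m.1 : ℝ) ≤ Λ)}.indicator
        (fun m => kn m.1 * x m ^ 2) m = 0 := by
        intro m
        by_cases hm : m ∈ {m ∈ E | ¬ (0 < N m.1 ∧ (N m.1 : ℝ) ≤ Λ)}
        · rw [Set.indicator_of_mem hm, hz m hm.1]; simp
        · rw [Set.indicator_of_notMem hm]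
      rw [tsum_congr this, tsum_zero]
      positivity
    · have h1 := (hs2.mul_left (h ^ 2)).tsum_le_tsum hterm (hs.mul_left (δ ^ 2))
      rw [tsum_mul_left, tsum_mul_left] at h1
      have h2 : h ^ 2 * ∑' m, ({m ∈ E | ¬ (0 < N m.1 ∧ (N m.1 : ℝ) ≤ Λ)}.indicator
        (fun m => kn m.1 * x m ^ 2) m) ≤ h ^ 2 * δ ^ 2 := by
        refine h1.trans ?_
        rw [mul_comm (h ^ 2)]
        gcongr
      exact le_of_mul_le_mul_left h2 (by positivity)

end Pool.Agent.X96.HT
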