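import Pool.Agent.X96.HT.Pw

/-!
Sums over the triads, and bounds for them.
-/

open MeasureTheory Set Filter Topology
open scoped ENNReal
open H459R3.NS

namespace Pool.Agent.X96.HT

/-- sum over the triads -/
noncomputable def T3s (f : K3 → K3 → K3 → ℂ) : ℂ := ∑' p : K3 × K3, f p.1 p.2 (-p.1 - p.2)

/-- summability over the triads -/
def S3s (f : K3 → K3 → K3 → ℂ) : Prop := Summable fun p : K3 × K3 => f p.1 p.2 (-p.1 - p.2)

lemma T3s_12 (f : K3 → K3 → K3 → ℂ) : T3s (fun k p q => f p k q) = T3s f := by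
  unfold T3s
  rw [← (Equiv.prodComm K3 K3).tsum_eq]
  refine tsum_congr fun p => ?_
  simp only [Equiv.prodComm_apply, Prod.fst_swap, Prod.snd_swap]
  rw [show -p.2 - p.1 = -p.1 - p.2 by abel]

lemma S3s_12 {f : K3 → K3 → K3 → ℂ} (h : S3s f) : S3s (fun k p q => f p k q) := by
  have := (Equiv.prodComm K3 K3).summable_iff.2 h
  refine this.congr fun p => ?_
  simp only [Function.comp_apply, Equiv.prodComm_apply, Prod.fst_swap, Prod.snd_swap]
  rw [show -p.2 - p.1 = -p.1 - p.2 by abel]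

lemma T3s_23 (f : K3 → K3 → K3 → ℂ) : T3s (fun k p q => f k q p) = T3s f := by
  unfold T3s
  rw [← inv23.tsum_eq]
  refine tsum_congr fun p => ?_
  have : inv23 p = (p.1, -p.1 - p.2) := rfl
  rw [this]
  simp only
  rw [show -p.1 - (-p.1 - p.2) = p.2 by abel]

lemma S3s_23 {f : K3 → K3 → K3 → ℂ} (h : S3s f) : S3s (fun k p q => f k q p) := by
  have := inv23.summable_iff.2 h
  refine this.congr fun p => ?_
  have : inv23 p = (p.1, -p.1 - p.2) := rfl
  simp only [Function.comp_apply, this]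
  rw [show -p.1 - (-p.1 - p.2) = p.2 by abel]

lemma T3s_add {f g : K3 → K3 → K3 → ℂ} (hf : S3s f) (hg : S3s g) :
    T3s (fun k p q => f k p q + g k p q) = T3s f + T3s g := hf.tsum_add hg

lemma S3s.add {f g : K3 → K3 → K3 → ℂ} (hf : S3s f) (hg : S3s g) :
    S3s (fun k p q => f k p q + g k p q) := Summable.add hf hg

/-- Symmetrization. -/
lemma T3s_sym {f : K3 → K3 → K3 → ℂ} (h : S3s f) :
    6 * T3s f = T3s (fun k p q => (f k p q + f k q p) + (f p q k + f p k q)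
      + (f q k p + f q p k)) := by
  have h1 := h
  have h2 : S3s (fun k p q => f k q p) := S3s_23 h
  have h3 : S3s (fun k p q => f p k q) := S3s_12 h
  have h4 : S3s (fun k p q => f q k p) := S3s_23 h3
  have h5 : S3s (fun k p q => f p q k) := S3s_12 h2
  have h6 : S3s (fun k p q => f q p k) := S3s_23 h5
  have e2 : T3s (fun k p q => f k q p) = T3s f := T3s_23 f
  have e3 : T3s (fun k p q => f p k q) = T3s f := T3s_12 f
  have e4 : T3s (fun k p q => f q k p) = T3s f := by rw [← e3]; exact T3s_23 (fun k p q => f p k q)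
  have e5 : T3s (fun k p q => f p q k) = T3s f := by rw [← e2]; exact T3s_12 (fun k p q => f k q p)
  have e6 : T3s (fun k p q => f q p k) = T3s f := by rw [← e5]; exact T3s_23 (fun k p q => f p q k)
  rw [T3s_add ((h1.add h2).add (h5.add h3)) (h4.add h6), T3s_add (h1.add h2) (h5.add h3),
    T3s_add h1 h2, T3s_add h5 h3, T3s_add h4 h6, e2, e3, e4, e5, e6]
  ring

lemma enorm_T3s_le {f : K3 → K3 → K3 → ℂ} : ‖T3s f‖ₑ ≤ ∑' p : K3 × K3, ‖f p.1 p.2 (-p.1 - p.2)‖ₑ :=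
  enorm_tsum_le_tsum_enorm

/-! ### Bounds in extended reals -/

lemma tz_rot (x y z : K3 → ℝ≥0∞) : tz x y z = tz y z x := by
  rw [tz_comm12, tz_comm23]

/-- `∑ ξ_k β_p β_q ≤ (∑ ξ) ∑ β²` -/
lemma tz_l1 (ξ β : K3 → ℝ≥0∞) : tz ξ β β ≤ (∑' k, ξ k) * (e2 β * e2 β) := by
  unfold tz
  rw [ENNReal.tsum_prod', ← ENNReal.tsum_mul_right]
  refine ENNReal.tsum_le_tsum fun k => ?_
  have e : ∀ p, ξ k * β p * β (-k - p) = ξ k * (β p * β (-k - p)) := fun p => by ring
  simp_rw [e]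
  rw [ENNReal.tsum_mul_left]
  gcongr
  refine (enn_cs _ _).trans (le_of_eq ?_)
  unfold e2
  congr 2
  exact (Equiv.subLeft (-k)).tsum_eq (fun q => β q ^ 2)

open Classical in
/-- The weighted bound. -/
lemma tz_weight {ξ β η v : K3 → ℝ≥0∞} {B : ℝ≥0∞} (hξ0 : ξ 0 = 0) (hξ : ∀ k, ξ k ≤ η k * v k)
    (hv : ∀ n : ℕ, 1 ≤ n → (∑' k, if 0 < N k ∧ N k ≤ 2 * n then v k ^ 2 else 0) ≤ B * n) :
    tz ξ β β ≤ 2 * (e2 η * e2 β * (B * ∑' q, N q * β q ^ 2) ^ (1 / 2 : ℝ)) := by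
  -- restrict to `N p ≤ N q`
  set ψ : K3 → K3 → ℝ≥0∞ := fun k q => if 0 < N k ∧ N k ≤ 2 * N q then β q else 0 with hψ
  have hN : ∀ k p : K3, N k ≤ N p + N (-k - p) := by
    intro k p
    rw [N_le_iff]
    intro j
    have h1 := (N_le_iff p (N p)).1 le_rfl j
    have h2 := (N_le_iff (-k - p) (N (-k - p))).1 le_rfl j
    simp only [Pi.sub_apply, Pi.neg_apply] at h2
    have : k j = -(p j) + -(-k j - p j) := by ring
    rw [this]
    refine (abs_add_le _ _).trans ?_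
    rw [abs_neg, abs_neg]
    push_cast
    linarith
  have h1 : ∀ k p, ξ k * β p * β (-k - p)
      ≤ η k * v k * (β p * ψ k (-k - p)) + η k * v k * (β (-k - p) * ψ k p) := by
    intro k p
    by_cases hk : k = 0
    · subst hk; rw [hξ0]; simp
    have hk' : 0 < N k := Nat.pos_of_ne_zero fun h => hk (N_eq_zero.1 h)
    have h0 : ξ k * β p * β (-k - p) ≤ η k * v k * (β p * β (-k - p)) := by
      rw [mul_assoc]; gcongr; exact hξ k
    have h2 := hN k p
    rcases le_total (N p) (N (-k - p)) with h | h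
    · refine h0.trans (le_add_right (le_of_eq ?_))
      simp only [hψ]
      rw [if_pos ⟨hk', by omega⟩]
    · refine h0.trans (le_add_left (le_of_eq ?_))
      simp only [hψ]
      rw [if_pos ⟨hk', by omega⟩, mul_comm (β p)]
  have h2 : ∀ k, ∑' p, β p * ψ k (-k - p) ≤ e2 β * (∑' q, ψ k q ^ 2) ^ (1 / 2 : ℝ) := by
    intro k
    refine (enn_cs _ _).trans (le_of_eq ?_)
    unfold e2
    congr 2
    exact (Equiv.subLeft (-k)).tsum_eq (fun q => ψ k q ^ 2)
  have h3 : ∀ k, ∑' p, β (-k - p) * ψ k p ≤ e2 β * (∑' q, ψ k q ^ 2) ^ (1 / 2 : ℝ) := by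
    intro k
    refine (enn_cs _ _).trans (le_of_eq ?_)
    unfold e2
    congr 2
    exact (Equiv.subLeft (-k)).tsum_eq (fun q => β q ^ 2)
  have h4 : ∀ k, ∑' p, ξ k * β p * β (-k - p)
      ≤ 2 * (e2 β * (η k * (v k * (∑' q, ψ k q ^ 2) ^ (1 / 2 : ℝ)))) := by
    intro k
    calc ∑' p, ξ k * β p * β (-k - p)
        ≤ ∑' p, (η k * v k * (β p * ψ k (-k - p)) + η k * v k * (β (-k - p) * ψ k p)) :=
          ENNReal.tsum_le_tsum fun p => h1 k p
      _ = η k * v k * ∑' p, β p * ψ k (-k - p) + η k * v k * ∑' p, β (-k - p) * ψ k p := by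
          rw [ENNReal.tsum_add, ENNReal.tsum_mul_left, ENNReal.tsum_mul_left]
      _ ≤ η k * v k * (e2 β * (∑' q, ψ k q ^ 2) ^ (1 / 2 : ℝ))
          + η k * v k * (e2 β * (∑' q, ψ k q ^ 2) ^ (1 / 2 : ℝ)) := by
          gcongr
          · exact h2 k
          · exact h3 k
      _ = _ := by ring
  have h5 : ∑' k, (v k * (∑' q, ψ k q ^ 2) ^ (1 / 2 : ℝ)) ^ 2 ≤ B * ∑' q, N q * β q ^ 2 := by
    simp_rw [mul_pow, enn_half_sq, ← ENNReal.tsum_mul_left]
    rw [ENNReal.tsum_comm]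
    refine ENNReal.tsum_le_tsum fun q => ?_
    rcases Nat.eq_zero_or_pos (N q) with h0 | h0
    · have : ∀ k, v k ^ 2 * ψ k q ^ 2 = 0 := by
        intro k
        simp only [hψ]
        rw [if_neg (by omega)]; simp
      simp_rw [this]; simp
    · have e : ∀ k, v k ^ 2 * ψ k q ^ 2
          = β q ^ 2 * (if 0 < N k ∧ N k ≤ 2 * N q then v k ^ 2 else 0) := by
        intro k
        simp only [hψ]
        split_ifs
        · ring
        · simp
      simp_rw [e]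
      rw [ENNReal.tsum_mul_left]
      calc β q ^ 2 * _ ≤ β q ^ 2 * (B * N q) := by gcongr; exact hv (N q) h0
        _ = _ := by ring
  unfold tz
  rw [ENNReal.tsum_prod']
  calc ∑' k, ∑' p, ξ k * β p * β (-k - p)
      ≤ ∑' k, 2 * (e2 β * (η k * (v k * (∑' q, ψ k q ^ 2) ^ (1 / 2 : ℝ)))) :=
        ENNReal.tsum_le_tsum h4
    _ = 2 * (e2 β * ∑' k, η k * (v k * (∑' q, ψ k q ^ 2) ^ (1 / 2 : ℝ))) := by
        rw [ENNReal.tsum_mul_left, ENNReal.tsum_mul_left]
    _ ≤ 2 * (e2 β * (e2 η * (∑' k, (v k * (∑' q, ψ k q ^ 2) ^ (1 / 2 : ℝ)) ^ 2)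
          ^ (1 / 2 : ℝ))) := by
        gcongr
        exact enn_cs _ _
    _ ≤ 2 * (e2 β * (e2 η * (B * ∑' q, N q * β q ^ 2) ^ (1 / 2 : ℝ))) := by gcongr
    _ = _ := by ring

/-! ### Counting -/

/-- At most `A r²` elements of `Q` lie in the cube of side `2 r` centred at the origin, `r ≥ 1`. -/
def Planar (A : ℝ) (Q : Set K3) : Prop :=
  ∀ r : ℕ, 1 ≤ r → (({q ∈ Q | ∀ j, |q j| ≤ r}).ncard : ℝ) ≤ A * r ^ 2

lemma Planar.nonneg {A : ℝ} {Q : Set K3} (hQ : Planar A Q) : 0 ≤ A := by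
  have := hQ 1 le_rfl
  simp only [Nat.cast_one, one_pow, mul_one] at this
  exact le_trans (by positivity) this

lemma finite_cube (r : ℕ) : {q : K3 | N q ≤ r}.Finite := by
  have := finite_box 0 r
  simpa using this

/-- summation by parts -/
lemma layer (F : Finset K3) (L : ℕ) (hF : ∀ q ∈ F, 0 < N q ∧ N q ≤ L) (w : ℕ → ℝ)
    (hw : ∀ m, 1 ≤ m → w (m + 1) ≤ w m) (c : ℕ → ℝ)
    (hc : ∀ r : ℕ, 1 ≤ r → ((F.filter fun q => N q ≤ r).card : ℝ) ≤ c r) (hL : 1 ≤ L)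
    (hwL : 0 ≤ w L) :
    ∑ q ∈ F, w (N q) ≤ c L * w L + ∑ m ∈ Finset.Ico 1 L, c m * (w m - w (m + 1)) := by
  have tele : ∀ n L : ℕ, 1 ≤ n → n ≤ L →
      w n = w L + ∑ m ∈ Finset.Ico 1 L, if n ≤ m then w m - w (m + 1) else 0 := by
    intro n L hn hL
    induction L, hL using Nat.le_induction with
    | base =>
      have : ∑ m ∈ Finset.Ico 1 n, (if n ≤ m then w m - w (m + 1) else 0) = 0 := by
        refine Finset.sum_eq_zero fun m hm => ?_
        rw [Finset.mem_Ico] at hm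
        rw [if_neg (by omega)]
      rw [this, add_zero]
    | succ L hL ih =>
      rw [Finset.sum_Ico_succ_top (by omega), if_pos hL]
      linarith
  have e1 : ∑ q ∈ F, w (N q)
      = ∑ q ∈ F, (w L + ∑ m ∈ Finset.Ico 1 L, if N q ≤ m then w m - w (m + 1) else 0) :=
    Finset.sum_congr rfl fun q hq => tele _ _ (hF q hq).1 (hF q hq).2
  rw [e1, Finset.sum_add_distrib, Finset.sum_comm]
  refine add_le_add ?_ (Finset.sum_le_sum fun m hm => ?_)
  · rw [Finset.sum_const, nsmul_eq_mul]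
    have h1 := hc L hL
    rw [Finset.filter_true_of_mem fun q hq => (hF q hq).2] at h1
    gcongr
  · rw [Finset.mem_Ico] at hm
    rw [← Finset.sum_filter, Finset.sum_const, nsmul_eq_mul]
    have h1 := hc m hm.1
    have h2 := hw m hm.1
    have h3 : 0 ≤ w m - w (m + 1) := by linarith
    gcongr

/-- `∑_{q ∈ Q, 0 < N q ≤ L} 1 / N q ≤ 2 A L` -/
lemma planar_sum {A : ℝ} {Q : Set K3} (hQ : Planar A Q) (L : ℕ) (hL : 1 ≤ L) (F : Finset K3)
    (hF : ∀ q ∈ F, q ∈ Q ∧ 0 < N q ∧ N q ≤ L) : ∑ q ∈ F, (1 : ℝ) / N q ≤ 2 * A * L := by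
  have hA := hQ.nonneg
  have hcount : ∀ r : ℕ, 1 ≤ r → ((F.filter fun q => N q ≤ r).card : ℝ) ≤ A * r ^ 2 := by
    intro r hr
    refine le_trans ?_ (hQ r hr)
    have h1 : ((F.filter fun q => N q ≤ r : Finset K3) : Set K3)
        ⊆ {q ∈ Q | ∀ j, |q j| ≤ r} := by
      intro q hq
      rw [Finset.mem_coe, Finset.mem_filter] at hq
      exact ⟨(hF q hq.1).1, (N_le_iff q r).1 hq.2⟩
    have h2 : ({q ∈ Q | ∀ j, |q j| ≤ r}).Finite :=
      (finite_cube r).subset fun q hq => (N_le_iff q r).2 hq.2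
    have h3 := Set.ncard_le_ncard h1 h2
    rw [Set.ncard_coe_finset] at h3
    exact_mod_cast h3
  have h := layer F L (fun q hq => (hF q hq).2) (fun m => 1 / (m : ℝ))
    (fun m hm => one_div_le_one_div_of_le (by exact_mod_cast hm) (by push_cast; linarith))
    (fun r => A * r ^ 2) hcount hL (by positivity)
  refine h.trans ?_
  have hL0 : (0 : ℝ) < L := by exact_mod_cast (by omega : 0 < L)
  have e2 : ∀ m ∈ Finset.Ico 1 L, A * (m : ℝ) ^ 2 * (1 / (m : ℝ) - 1 / ((m + 1 : ℕ) : ℝ)) ≤ A := by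
    intro m hm
    rw [Finset.mem_Ico] at hm
    have hm0 : (0 : ℝ) < m := by exact_mod_cast (by omega : 0 < m)
    calc A * (m : ℝ) ^ 2 * (1 / (m : ℝ) - 1 / ((m + 1 : ℕ) : ℝ)) = A * (m / (m + 1)) := by
          push_cast; field_simp; ring
      _ ≤ A * 1 := by
        gcongr
        rw [div_le_one (by positivity)]
        linarith
      _ = A := mul_one A
  have e4 := Finset.sum_le_sum e2
  rw [Finset.sum_const, Nat.card_Ico, nsmul_eq_mul] at e4
  have h5 : ((L - 1 : ℕ) : ℝ) * A ≤ L * A := by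
    gcongr
    omega
  have e3 : A * (L : ℝ) ^ 2 * (1 / L) = A * L := by field_simp
  linarith

lemma card_cube (r : ℕ) : ((finite_cube r).toFinset.card : ℝ) = (2 * r + 1) ^ 3 := by
  have e : (finite_cube r).toFinset = Finset.Icc (fun _ => -(r : ℤ)) (fun _ => (r : ℤ)) := by
    ext q
    rw [Set.Finite.mem_toFinset, mem_setOf_eq, N_le_iff, Finset.mem_Icc, Pi.le_def, Pi.le_def]
    constructor
    · intro h
      exact ⟨fun i => (abs_le.1 (h i)).1, fun i => (abs_le.1 (h i)).2⟩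
    · rintro ⟨h1, h2⟩ i
      exact abs_le.2 ⟨h1 i, h2 i⟩
  rw [e, Pi.card_Icc]
  simp only [Int.card_Icc, Finset.prod_const, Finset.card_univ, Fintype.card_fin]
  push_cast
  congr 1
  have : ((r : ℤ) + 1 - -(r : ℤ)).toNat = 2 * r + 1 := by omega
  rw [this]
  push_cast; ring

/-- `∑_{0 < N q ≤ L} 1 / N q² ≤ 81 L` -/
lemma cube_sum (L : ℕ) (hL : 1 ≤ L) (F : Finset K3)
    (hF : ∀ q ∈ F, 0 < N q ∧ N q ≤ L) : ∑ q ∈ F, (1 : ℝ) / (N q : ℝ) ^ 2 ≤ 81 * L := by
  have hcount : ∀ r : ℕ, 1 ≤ r → ((F.filter fun q => N q ≤ r).card : ℝ) ≤ 27 * r ^ 3 := by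
    intro r hr
    have h1 : (F.filter fun q => N q ≤ r) ⊆ (finite_cube r).toFinset := by
      intro q hq
      rw [Finset.mem_filter] at hq
      rw [Set.Finite.mem_toFinset]
      exact hq.2
    have h2 := Finset.card_le_card h1
    have h3 : ((F.filter fun q => N q ≤ r).card : ℝ) ≤ (2 * r + 1) ^ 3 := by
      rw [← card_cube]; exact_mod_cast h2
    refine h3.trans ?_
    have hr1 : (1 : ℝ) ≤ r := by exact_mod_cast hr
    calc (2 * (r : ℝ) + 1) ^ 3 ≤ (3 * r) ^ 3 := by gcongr; linarith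
      _ = _ := by ring
  have h := layer F L hF (fun m => 1 / (m : ℝ) ^ 2)
    (fun m hm => by
      have : (0 : ℝ) < m := by exact_mod_cast hm
      refine one_div_le_one_div_of_le (by positivity) ?_
      push_cast
      gcongr
      linarith)
    (fun r => 27 * r ^ 3) hcount hL (by positivity)
  refine h.trans ?_
  have hL0 : (0 : ℝ) < L := by exact_mod_cast (by omega : 0 < L)
  have e2 : ∀ m ∈ Finset.Ico 1 L,
      27 * (m : ℝ) ^ 3 * (1 / (m : ℝ) ^ 2 - 1 / ((m + 1 : ℕ) : ℝ) ^ 2) ≤ 54 := by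
    intro m hm
    rw [Finset.mem_Ico] at hm
    have hm0 : (0 : ℝ) < m := by exact_mod_cast (by omega : 0 < m)
    have e : 27 * (m : ℝ) ^ 3 * (1 / (m : ℝ) ^ 2 - 1 / ((m + 1 : ℕ) : ℝ) ^ 2)
        = 27 * (m * (2 * m + 1)) / (m + 1) ^ 2 := by
      push_cast; field_simp; ring
    rw [e, div_le_iff₀ (by positivity)]
    nlinarith
  have e4 := Finset.sum_le_sum e2
  rw [Finset.sum_const, Nat.card_Ico, nsmul_eq_mul] at e4
  have h5 : ((L - 1 : ℕ) : ℝ) * 54 ≤ L * 54 := by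
    gcongr
    omega
  have e3 : 27 * (L : ℝ) ^ 3 * (1 / (L : ℝ) ^ 2) = 27 * L := by field_simp
  linarith

end Pool.Agent.X96.HT
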